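import Pool.Agent.Helper50.VD.St

/-! # Final assembly -/

open MeasureTheory Set Filter Topology
open scoped ENNReal

noncomputable section

namespace VD.M_Final

/-- reflection in the axis -/
def Rf (x : ℝ × ℝ) : ℝ × ℝ := (x.1, -x.2)

theorem mp_Rf : MeasurePreserving Rf volume volume := by
  have h1 : MeasurePreserving (fun x : ℝ => x) volume volume := MeasurePreserving.id _
  have h2 : MeasurePreserving (fun x : ℝ => -x) volume volume := Measure.measurePreserving_neg _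
  exact h1.prod h2

theorem emb_Rf : MeasurableEmbedding Rf := by
  have : Rf = fun x => ((MeasurableEquiv.refl ℝ).prodCongr (MeasurableEquiv.neg ℝ)) x := by
    ext x <;> rfl
  rw [this]
  exact MeasurableEquiv.measurableEmbedding _

/-- x.2 * 1_A -/
def ff (A : Set (ℝ × ℝ)) (x : ℝ × ℝ) : ℝ := x.2 * A.indicator (fun _ => (1 : ℝ)) x

theorem ff_nonneg {A : Set (ℝ × ℝ)} (hs : A ⊆ Om) (x : ℝ × ℝ) : 0 ≤ ff A x := by
  unfold ff
  by_cases h : x ∈ A
  · rw [indicator_of_mem h]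
    have : (0 : ℝ) < x.2 := hs h
    simpa using this.le
  · rw [indicator_of_notMem h]; simp

theorem ff_meas {A : Set (ℝ × ℝ)} (hA : MeasurableSet A) : Measurable (ff A) := by
  unfold ff
  exact measurable_snd.mul (measurable_const.indicator hA)

theorem mul_patch (A : Set (ℝ × ℝ)) (x : ℝ × ℝ) : x.2 * patch A x = ff A x + ff A (Rf x) := by
  unfold patch ff Rf
  ring

theorem lint_ff {A : Set (ℝ × ℝ)} (hA : MeasurableSet A) (hs : A ⊆ Om) :
    ∫⁻ x, ENNReal.ofReal (ff A x) = nu A := by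
  rw [nu_apply hA, ← lintegral_indicator hA]
  congr 1
  ext x
  unfold ff
  by_cases h : x ∈ A
  · rw [indicator_of_mem h, indicator_of_mem h, mul_one]
  · rw [indicator_of_notMem h, indicator_of_notMem h]; simp

theorem int_ff_iff {A : Set (ℝ × ℝ)} (hA : MeasurableSet A) (hs : A ⊆ Om) :
    Integrable (ff A) ↔ nu A < ∞ := by
  constructor
  · intro h
    have h2 := h.2
    rw [hasFiniteIntegral_iff_ofReal (Eventually.of_forall (ff_nonneg hs)), lint_ff hA hs] at h2
    exact h2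
  · intro h
    refine ⟨(ff_meas hA).aestronglyMeasurable, ?_⟩
    rw [hasFiniteIntegral_iff_ofReal (Eventually.of_forall (ff_nonneg hs)), lint_ff hA hs]
    exact h

theorem integral_ff {A : Set (ℝ × ℝ)} (hA : MeasurableSet A) (hs : A ⊆ Om) :
    ∫ x, ff A x = (nu A).toReal := by
  rw [integral_eq_lintegral_of_nonneg_ae (Eventually.of_forall (ff_nonneg hs))
    (ff_meas hA).aestronglyMeasurable, lint_ff hA hs]

theorem int_patch_iff {A : Set (ℝ × ℝ)} (hA : MeasurableSet A) (hs : A ⊆ Om) :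
    Integrable (fun x : ℝ × ℝ => x.2 * patch A x) ↔ nu A < ∞ := by
  have e : (fun x : ℝ × ℝ => x.2 * patch A x) = fun x => ff A x + ff A (Rf x) := by
    ext x; exact mul_patch A x
  rw [e]
  constructor
  · intro h
    rw [← int_ff_iff hA hs]
    refine h.mono' (ff_meas hA).aestronglyMeasurable (Eventually.of_forall fun x => ?_)
    rw [Real.norm_of_nonneg (ff_nonneg hs x)]
    have := ff_nonneg hs (Rf x)
    linarith
  · intro h
    have h1 := (int_ff_iff hA hs).mpr h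
    have h2 : Integrable (fun x => ff A (Rf x)) := (mp_Rf.integrable_comp_emb emb_Rf).mpr h1
    exact h1.add h2

theorem integral_patch {A : Set (ℝ × ℝ)} (hA : MeasurableSet A) (hs : A ⊆ Om) (h : nu A < ∞) :
    ∫ x : ℝ × ℝ, x.2 * patch A x = 2 * (nu A).toReal := by
  have e : (fun x : ℝ × ℝ => x.2 * patch A x) = fun x => ff A x + ff A (Rf x) := by
    ext x; exact mul_patch A x
  have h1 := (int_ff_iff hA hs).mpr h
  have h2 : Integrable (fun x => ff A (Rf x)) := (mp_Rf.integrable_comp_emb emb_Rf).mpr h1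
  rw [e, integral_add h1 h2, mp_Rf.integral_comp emb_Rf, integral_ff hA hs]
  ring

theorem enorm_patch {A : Set (ℝ × ℝ)} (hs : A ⊆ Om) (x : ℝ × ℝ) :
    ‖patch A x‖ₑ = A.indicator (fun _ => (1 : ℝ≥0∞)) x + A.indicator (fun _ => (1 : ℝ≥0∞)) (Rf x) := by
  unfold patch
  by_cases h : x ∈ A
  · have h2 : Rf x ∉ A := by
      intro h3
      have a1 : (0 : ℝ) < x.2 := hs h
      have a2 : (0 : ℝ) < -x.2 := hs h3
      linarith
    have h2' : (x.1, -x.2) ∉ A := h2
    rw [indicator_of_mem h, indicator_of_mem h, indicator_of_notMem h2, indicator_of_notMem h2']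
    simp
  · by_cases h2 : Rf x ∈ A
    · have h2' : (x.1, -x.2) ∈ A := h2
      rw [indicator_of_notMem h, indicator_of_notMem h, indicator_of_mem h2, indicator_of_mem h2']
      simp
    · have h2' : (x.1, -x.2) ∉ A := h2
      rw [indicator_of_notMem h, indicator_of_notMem h, indicator_of_notMem h2,
        indicator_of_notMem h2']
      simp

theorem mass_patch {A : Set (ℝ × ℝ)} (hA : MeasurableSet A) (hs : A ⊆ Om) :
    ∫⁻ x, ‖patch A x‖ₑ = 2 * volume A := by
  have h1 : Measurable (A.indicator (fun _ => (1 : ℝ≥0∞))) := measurable_const.indicator hA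
  calc ∫⁻ x, ‖patch A x‖ₑ
      = ∫⁻ x, (A.indicator (fun _ => (1 : ℝ≥0∞)) x + A.indicator (fun _ => (1 : ℝ≥0∞)) (Rf x)) := by
        congr 1; ext x; exact enorm_patch hs x
    _ = (∫⁻ x, A.indicator (fun _ => (1 : ℝ≥0∞)) x) +
          ∫⁻ x, A.indicator (fun _ => (1 : ℝ≥0∞)) (Rf x) := lintegral_add_left h1 _
    _ = volume A + volume A := by
        rw [mp_Rf.lintegral_comp_emb emb_Rf (A.indicator (fun _ => (1 : ℝ≥0∞)))]
        rw [lintegral_indicator hA]
        simp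
    _ = 2 * volume A := by ring

/-- unpacking membership in K_mu -/
theorem InK_iff {μ : ℝ} (hμ : 0 < μ) (ω : ℝ × ℝ → ℝ) : InK μ ω ↔
    ∃ A, MeasurableSet A ∧ A ⊆ Om ∧ ω =ᵐ[volume] patch A ∧ nu A = ENNReal.ofReal (μ / 2) ∧
      volume A ≤ 1 / 2 := by
  constructor
  · rintro ⟨⟨A, hA, hs, hae⟩, h1, h2, h3⟩
    have hae2 : (fun x : ℝ × ℝ => x.2 * ω x) =ᵐ[volume] fun x => x.2 * patch A x := by
      filter_upwards [hae] with x hx
      rw [hx]
    have i1 := (integrable_congr hae2).mp h1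
    have i2 := (int_patch_iff hA hs).mp i1
    rw [integral_congr_ae hae2, integral_patch hA hs i2] at h2
    have h3' : ∫⁻ x, ‖ω x‖ₑ = ∫⁻ x, ‖patch A x‖ₑ := by
      apply lintegral_congr_ae
      filter_upwards [hae] with x hx
      rw [hx]
    rw [h3', mass_patch hA hs] at h3
    refine ⟨A, hA, hs, hae, ?_, ?_⟩
    · rw [← ENNReal.ofReal_toReal i2.ne]
      congr 1
      linarith
    · rw [ENNReal.le_div_iff_mul_le (Or.inl two_ne_zero) (Or.inl ENNReal.ofNat_ne_top), mul_comm]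
      exact h3
  · rintro ⟨A, hA, hs, hae, h1, h2⟩
    have i2 : nu A < ∞ := by rw [h1]; exact ENNReal.ofReal_lt_top
    have hae2 : (fun x : ℝ × ℝ => x.2 * ω x) =ᵐ[volume] fun x => x.2 * patch A x := by
      filter_upwards [hae] with x hx
      rw [hx]
    refine ⟨⟨A, hA, hs, hae⟩, ?_, ?_, ?_⟩
    · exact (integrable_congr hae2).mpr ((int_patch_iff hA hs).mpr i2)
    · rw [integral_congr_ae hae2, integral_patch hA hs i2, h1, ENNReal.toReal_ofReal (by linarith)]
      ring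
    · have h3' : ∫⁻ x, ‖ω x‖ₑ = ∫⁻ x, ‖patch A x‖ₑ := by
        apply lintegral_congr_ae
        filter_upwards [hae] with x hx
        rw [hx]
      rw [h3', mass_patch hA hs]
      rw [ENNReal.le_div_iff_mul_le (Or.inl two_ne_zero) (Or.inl ENNReal.ofNat_ne_top), mul_comm] at h2
      exact h2

theorem dil_meas {r : ℝ} {A : Set (ℝ × ℝ)} (hA : MeasurableSet A) : MeasurableSet (dil r A) := by
  have : Measurable (fun z : ℝ × ℝ => (z.1 / r, z.2 / r)) :=
    (measurable_fst.div_const r).prodMk (measurable_snd.div_const r)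
  exact this hA

theorem sh_meas {τ : ℝ} {A : Set (ℝ × ℝ)} (hA : MeasurableSet A) : MeasurableSet (sh τ A) := by
  have : Measurable (fun z : ℝ × ℝ => (z.1 - τ, z.2)) :=
    (measurable_fst.sub_const τ).prodMk measurable_snd
  exact this hA

theorem dil_Om {r : ℝ} (hr : 0 < r) {A : Set (ℝ × ℝ)} (hs : A ⊆ Om) : dil r A ⊆ Om := by
  intro z hz
  have h : (0 : ℝ) < z.2 / r := hs hz
  have := mul_pos h hr
  rw [div_mul_cancel₀ _ hr.ne'] at this
  exact this

theorem sh_Om {τ : ℝ} {A : Set (ℝ × ℝ)} (hs : A ⊆ Om) : sh τ A ⊆ Om := by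
  intro z hz
  have h : ((z.1 - τ, z.2) : ℝ × ℝ) ∈ Om := hs hz
  exact h

theorem bdd_sh_dil {r τ : ℝ} (hr : 0 < r) {A : Set (ℝ × ℝ)} (hb : ∃ R, A ⊆ Box R) :
    ∃ R, sh τ (dil r A) ⊆ Box R := by
  obtain ⟨R, hR⟩ := hb
  refine ⟨r * R + |τ|, ?_⟩
  intro z hz
  obtain ⟨h1, h2, h3⟩ := hR (show ((z.1 - τ) / r, z.2 / r) ∈ A from hz)
  simp only [abs_div, abs_of_pos hr] at h1
  rw [div_le_iff₀ hr] at h1
  simp only at h3
  rw [div_le_iff₀ hr] at h3
  have h2' : 0 < z.2 := by
    have := mul_pos h2 hr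
    simp only at this
    rwa [div_mul_cancel₀ _ hr.ne'] at this
  refine ⟨?_, h2', ?_⟩
  · have := abs_sub_abs_le_abs_sub z.1 τ
    linarith
  · have := abs_nonneg τ
    linarith

theorem patch_comp {r rs τ : ℝ} (_ : 0 < r) (_ : 0 < rs) (A : Set (ℝ × ℝ)) (x : ℝ × ℝ) :
    patch (dil rs A) ((x.1 - τ) / r, x.2 / r) = patch (sh τ (dil (r * rs) A)) x := by
  unfold patch
  have e1 : ((x.1 - τ) / r, x.2 / r) ∈ dil rs A ↔ x ∈ sh τ (dil (r * rs) A) := by
    simp only [dil, sh, Set.mem_ofPred_eq, div_div]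
  have e2 : ((x.1 - τ) / r, -(x.2 / r)) ∈ dil rs A ↔ (x.1, -x.2) ∈ sh τ (dil (r * rs) A) := by
    simp only [dil, sh, Set.mem_ofPred_eq, div_div, neg_div]
  congr 1
  · by_cases h : x ∈ sh τ (dil (r * rs) A)
    · rw [indicator_of_mem h, indicator_of_mem (e1.mpr h)]
    · rw [indicator_of_notMem h, indicator_of_notMem (fun h' => h (e1.mp h'))]
  · by_cases h : (x.1, -x.2) ∈ sh τ (dil (r * rs) A)
    · rw [indicator_of_mem h, indicator_of_mem (e2.mpr h)]
    · rw [indicator_of_notMem h, indicator_of_notMem (fun h' => h (e2.mp h'))]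

theorem patch_congr {A C : Set (ℝ × ℝ)} (h : A =ᵐ[volume] C) : patch A =ᵐ[volume] patch C := by
  have h1 : ∀ᵐ x : ℝ × ℝ, (x ∈ A ↔ x ∈ C) := by
    filter_upwards [h] with x hx
    exact eq_iff_iff.mp hx
  have h2 : ∀ᵐ x : ℝ × ℝ, (Rf x ∈ A ↔ Rf x ∈ C) := mp_Rf.quasiMeasurePreserving.ae h1
  filter_upwards [h1, h2] with x hx hx2
  have hx2' : (x.1, -x.2) ∈ A ↔ (x.1, -x.2) ∈ C := hx2
  unfold patch
  congr 1
  · by_cases h : x ∈ A
    · rw [indicator_of_mem h, indicator_of_mem (hx.mp h)]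
    · rw [indicator_of_notMem h, indicator_of_notMem (fun h' => h (hx.mpr h'))]
  · by_cases h : (x.1, -x.2) ∈ A
    · rw [indicator_of_mem h, indicator_of_mem (hx2'.mp h)]
    · rw [indicator_of_notMem h, indicator_of_notMem (fun h' => h (hx2'.mpr h'))]

end VD.M_Final

namespace VD

open M_Final

theorem mFinal (hK5 : StK5) (hK9 : StK9) (hU4 : StU4) (hE5 : StE5) (hE6 : StE6) (hF6 : StF6)
    (hF7 : StF7) : StFinal := by
  obtain ⟨A1, W1, hS1, hnu1, hmax1⟩ := hF7 1 one_ne_zero ENNReal.one_ne_top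
  have hm1 := hS1.dm.meas
  have hs1 := hS1.dm.sub
  have hv1 : volume A1 < ∞ := hS1.dm.vol
  have hv0 : 0 < volume A1 := hS1.vol_pos
  set V : ℝ := (volume A1).toReal with hV
  have hVpos : 0 < V := ENNReal.toReal_pos hv0.ne' hv1.ne
  have hVeq : volume A1 = ENNReal.ofReal V := (ENNReal.ofReal_toReal hv1.ne).symm
  set rs : ℝ := Real.sqrt (1 / (2 * V)) with hrs
  have hrs0 : 0 < rs := Real.sqrt_pos.mpr (by positivity)
  have hrs2 : rs ^ 2 * V = 1 / 2 := by
    rw [hrs, Real.sq_sqrt (by positivity)]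
    field_simp
  -- facts about dilates
  have hnuD : ∀ r, 0 < r → nu (dil r A1) = ENNReal.ofReal (r ^ 3) := by
    intro r hr
    rw [(hK5.1 A1 r hm1 hs1 hr).2.1, hnu1, mul_one]
  have hvD : ∀ r, 0 < r → volume (dil r A1) = ENNReal.ofReal (r ^ 2 * V) := by
    intro r hr
    rw [(hK5.1 A1 r hm1 hs1 hr).2.2.1, hVeq, ← ENNReal.ofReal_mul (by positivity)]
  have hBD : ∀ r, 0 < r → BG (dil r A1) (dil r A1) = r ^ 4 * BG A1 A1 := by
    intro r hr
    exact (hK5.1 A1 r hm1 hs1 hr).2.2.2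
  have hmaxD : ∀ r, 0 < r → ∀ C, MeasurableSet C → C ⊆ Om → volume C < ∞ →
      nu C = ENNReal.ofReal (r ^ 3) → BG C C ≤ BG (dil r A1) (dil r A1) := by
    intro r hr C h1 h2 h3 h4
    have hr' : 0 < 1 / r := by positivity
    obtain ⟨-, k2, k3, k4⟩ := hK5.1 C (1 / r) h1 h2 hr'
    have k5 := hmax1 (dil (1 / r) C) (dil_meas h1) (dil_Om hr' h2)
      (by rw [k3]; exact ENNReal.mul_lt_top ENNReal.ofReal_lt_top h3)
      (by
        rw [k2, h4, ← ENNReal.ofReal_mul (by positivity)]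
        have : (1 / r) ^ 3 * r ^ 3 = 1 := by field_simp
        rw [this, ENNReal.ofReal_one])
    rw [k4] at k5
    rw [hBD r hr]
    have : BG C C = r ^ 4 * ((1 / r) ^ 4 * BG C C) := by field_simp
    rw [this]
    exact mul_le_mul_of_nonneg_left k5 (by positivity)
  have hSD : ∀ r τ, 0 < r → nu (sh τ (dil r A1)) = nu (dil r A1) ∧
      volume (sh τ (dil r A1)) = volume (dil r A1) ∧
      BG (sh τ (dil r A1)) (sh τ (dil r A1)) = BG (dil r A1) (dil r A1) := by
    intro r τ hr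
    exact (hK5.2.1 (dil r A1) τ (dil_meas hm1) (dil_Om hr hs1)).2
  -- every maximising set is a translate of a dilate
  have hform : ∀ (c m : ℝ≥0∞) (A : Set (ℝ × ℝ)), c ≠ 0 → c ≠ ∞ → m ≠ ∞ → IsMx Om c m A →
      (volume A < m ∨ ∀ δ : ℝ, 0 < δ → 0 < volume (A ∩ {z | z.2 < δ})) →
      ∃ r τ : ℝ, 0 < r ∧ c = ENNReal.ofReal (r ^ 3) ∧ A =ᵐ[volume] sh τ (dil r A1) := by
    intro c m A hc hc' hm hA hcase
    obtain ⟨τ, A', W', hS', hae⟩ := hF6 c m A hc hc' hm hA hcase
    obtain ⟨r, hr, he⟩ := hU4 A1 W1 A' W' hS1 hS'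
    subst he
    refine ⟨r, τ, hr, ?_, hae⟩
    rw [← hnuD r hr, ← (hSD r τ hr).1, ← nu_congr hae]
    exact hA.1.2.2.1.symm
  set μs : ℝ := 2 * rs ^ 3 with hμs
  have hμs0 : 0 < μs := by positivity
  have hcube : ∀ μ : ℝ, 0 < μ → ∃ ρ : ℝ, 0 < ρ ∧ ρ ^ 3 = μ / 2 := by
    intro μ hμ
    refine ⟨(μ / 2) ^ ((3 : ℝ)⁻¹), by positivity, ?_⟩
    rw [← Real.rpow_natCast, ← Real.rpow_mul (by positivity)]
    norm_num
  -- the energy of the standard patches
  have hEn : ∀ r τ, 0 < r → Energy (patch (sh τ (dil r A1))) =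
      ENNReal.ofReal (BG (dil r A1) (dil r A1) / 2) := by
    intro r τ hr
    rw [hE5.1 _ (sh_meas (dil_meas hm1)) (sh_Om (dil_Om hr hs1)) (bdd_sh_dil hr hS1.dm.bdd),
      (hSD r τ hr).2.2]
  refine ⟨μs, hμs0, μs, hμs0, patch (dil rs A1), ?_, ?_, ?_⟩
  · rw [InK_iff hμs0]
    refine ⟨dil rs A1, dil_meas hm1, dil_Om hrs0 hs1, Eventually.of_forall fun _ => rfl, ?_, ?_⟩
    · rw [hnuD rs hrs0]
      congr 1
      rw [hμs]; ring
    · rw [hvD rs hrs0, hrs2]
      rw [ENNReal.ofReal_div_of_pos (by norm_num)]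
      simp
  · intro μ hμ hμle ω
    obtain ⟨ρ, hρ, hρ3⟩ := hcube μ hμ
    have hρrs : ρ ≤ rs := by
      by_contra hcon
      push Not at hcon
      have : rs ^ 3 < ρ ^ 3 := pow_lt_pow_left₀ hcon hrs0.le (by norm_num)
      rw [hρ3] at this
      linarith
    have hvρ : volume (dil ρ A1) ≤ 1 / 2 := by
      rw [hvD ρ hρ]
      have h1 : ρ ^ 2 * V ≤ 1 / 2 := by
        rw [← hrs2]
        apply mul_le_mul_of_nonneg_right _ hVpos.le
        exact pow_le_pow_left₀ hρ.le hρrs 2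
      calc ENNReal.ofReal (ρ ^ 2 * V) ≤ ENNReal.ofReal (1 / 2) := ENNReal.ofReal_le_ofReal h1
        _ = 1 / 2 := by
          rw [ENNReal.ofReal_div_of_pos (by norm_num)]
          simp
    have hKρ : ∀ τ, InK μ (patch (sh τ (dil ρ A1))) := by
      intro τ
      rw [InK_iff hμ]
      refine ⟨sh τ (dil ρ A1), sh_meas (dil_meas hm1), sh_Om (dil_Om hρ hs1),
        Eventually.of_forall fun _ => rfl, ?_, ?_⟩
      · rw [(hSD ρ τ hρ).1, hnuD ρ hρ, hρ3]
      · rw [(hSD ρ τ hρ).2.1]; exact hvρ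
    have hub : ∀ ω', InK μ ω' → Energy ω' ≤ ENNReal.ofReal (BG (dil ρ A1) (dil ρ A1) / 2) := by
      intro ω' hω'
      obtain ⟨A, hA, hs, hae, h1, h2⟩ := (InK_iff hμ ω').mp hω'
      have hvA : volume A < ∞ := h2.trans_lt (by simp)
      rw [hE5.2.2 _ _ hae]
      refine (hE5.2.1 A hA hs hvA (by rw [h1]; exact ENNReal.ofReal_lt_top)).trans ?_
      apply ENNReal.ofReal_le_ofReal
      have := hmaxD ρ hρ A hA hs hvA (by rw [h1, hρ3])
      linarith
    constructor
    · rintro ⟨hK, hmax⟩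
      obtain ⟨A, hA, hs, hae, h1, h2⟩ := (InK_iff hμ ω).mp hK
      have hvA : volume A < ∞ := h2.trans_lt (by simp)
      have hnA : nu A < ∞ := by rw [h1]; exact ENNReal.ofReal_lt_top
      have hle : BG (dil ρ A1) (dil ρ A1) ≤ BG A A := by
        have e1 := hmax _ (hKρ 0)
        rw [hEn ρ 0 hρ, hE5.2.2 _ _ hae] at e1
        have e2 := e1.trans (hE5.2.1 A hA hs hvA hnA)
        have h0 : 0 ≤ BG A A := (hK9.1 A A hA hA hs hs hvA hvA hnA hnA).2.2.1
        have e3 := (ENNReal.ofReal_le_ofReal_iff (by linarith)).mp e2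
        linarith
      have hmx : IsMx Om (ENNReal.ofReal (μ / 2)) (volume A + 1) A := by
        refine ⟨⟨hA, hs, h1, le_add_right (le_refl _)⟩, ?_⟩
        rintro C ⟨g1, g2, g3, g4⟩
        have g5 : volume C < ∞ := g4.trans_lt (ENNReal.add_lt_top.mpr ⟨hvA, ENNReal.one_lt_top⟩)
        exact (hmaxD ρ hρ C g1 g2 g5 (by rw [g3, hρ3])).trans hle
      obtain ⟨r, τ, hr, hc, hae2⟩ := hform _ _ A
        (by rw [Ne, ENNReal.ofReal_eq_zero]; push Not; linarith) ENNReal.ofReal_ne_top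
        (ENNReal.add_lt_top.mpr ⟨hvA, ENNReal.one_lt_top⟩).ne hmx
        (Or.inl (ENNReal.lt_add_right hvA.ne one_ne_zero))
      have hr3 : r ^ 3 = μ / 2 := by
        have := congrArg ENNReal.toReal hc
        rw [ENNReal.toReal_ofReal (by linarith), ENNReal.toReal_ofReal (by positivity)] at this
        exact this.symm
      refine ⟨r / rs, τ, by positivity, ?_, ?_⟩
      · rw [hμs, div_pow, hr3]
        field_simp
      · have e : (fun x : ℝ × ℝ => patch (dil rs A1) ((x.1 - τ) / (r / rs), x.2 / (r / rs))) =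
            patch (sh τ (dil r A1)) := by
          ext x
          rw [patch_comp (by positivity) hrs0, div_mul_cancel₀ _ hrs0.ne']
        rw [e]
        exact hae.trans (patch_congr hae2)
    · rintro ⟨r, τ, hr, hr3, hae⟩
      have e : (fun x : ℝ × ℝ => patch (dil rs A1) ((x.1 - τ) / r, x.2 / r)) =
          patch (sh τ (dil (r * rs) A1)) := by
        ext x
        exact patch_comp hr hrs0 A1 x
      have hρe : r * rs = ρ := by
        have h3 : (r * rs) ^ 3 = ρ ^ 3 := by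
          rw [hρ3, mul_pow, ← hr3, hμs]; ring
        exact (pow_left_inj₀ (by positivity) hρ.le (by norm_num)).mp h3
      rw [e, hρe] at hae
      refine ⟨?_, ?_⟩
      · rw [InK_iff hμ]
        obtain ⟨A, g1, g2, g3, g4, g5⟩ := (InK_iff hμ _).mp (hKρ τ)
        exact ⟨A, g1, g2, hae.trans g3, g4, g5⟩
      · intro ω' hω'
        rw [hE5.2.2 _ _ hae, hEn ρ τ hρ]
        exact hub ω' hω'
  · intro μ hμ ω hω
    have hμ0 : 0 < μ := hμs0.trans hμ
    obtain ⟨hK, hmax⟩ := hω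
    obtain ⟨A, hA, hs, hae, h1, h2⟩ := (InK_iff hμ0 ω).mp hK
    have hvA : volume A < ∞ := h2.trans_lt (by simp)
    have hnA : nu A < ∞ := by rw [h1]; exact ENNReal.ofReal_lt_top
    have h0 : 0 ≤ BG A A := (hK9.1 A A hA hA hs hs hvA hvA hnA hnA).2.2.1
    by_cases hsep : ∃ δ : ℝ, 0 < δ ∧ volume (A ∩ {z | z.2 < δ}) = 0
    · obtain ⟨δ, hδ, hz⟩ := hsep
      refine ⟨δ, hδ, ?_⟩
      have h3 : ∀ᵐ x : ℝ × ℝ, x ∉ A ∩ {z | z.2 < δ} := measure_eq_zero_iff_ae_notMem.mp hz
      filter_upwards [hae, h3] with x hx hx3 hx0 hxδ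
      rw [hx]
      unfold patch
      have a1 : x ∉ A := fun h => hx3 ⟨h, hxδ⟩
      have a2 : (x.1, -x.2) ∉ A := by
        intro h
        have : (0 : ℝ) < -x.2 := hs h
        linarith
      rw [indicator_of_notMem a1, indicator_of_notMem a2]
      simp
    · exfalso
      push Not at hsep
      have hcase : ∀ δ : ℝ, 0 < δ → 0 < volume (A ∩ {z | z.2 < δ}) := fun δ hδ =>
        pos_iff_ne_zero.mpr (hsep δ hδ)
      have hmx : IsMx Om (ENNReal.ofReal (μ / 2)) (1 / 2) A := by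
        refine ⟨⟨hA, hs, h1, h2⟩, ?_⟩
        rintro C ⟨g1, g2, g3, g4⟩
        have g5 : volume C < ∞ := g4.trans_lt (by simp)
        apply le_of_forall_pos_le_add
        intro ε hε
        obtain ⟨C', k1, k2, k3, k4, k5, k6⟩ := hE6 C g1 g2 g5
          (by rw [g3]; exact ENNReal.ofReal_lt_top) ε hε
        have hKC : InK μ (patch C') := by
          rw [InK_iff hμ0]
          exact ⟨C', k1, k2, Eventually.of_forall fun _ => rfl, k5.trans g3, k4.trans g4⟩
        have e1 := hmax _ hKC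
        rw [hE5.2.2 _ _ hae, hE5.1 C' k1 k2 k3] at e1
        have e2 := e1.trans (hE5.2.1 A hA hs hvA hnA)
        have e3 := (ENNReal.ofReal_le_ofReal_iff (by linarith)).mp e2
        linarith
      obtain ⟨r, τ, hr, hc, hae2⟩ := hform _ _ A
        (by rw [Ne, ENNReal.ofReal_eq_zero]; push Not; linarith) ENNReal.ofReal_ne_top
        (by simp) hmx (Or.inr hcase)
      have hr3 : r ^ 3 = μ / 2 := by
        have := congrArg ENNReal.toReal hc
        rw [ENNReal.toReal_ofReal (by linarith), ENNReal.toReal_ofReal (by positivity)] at this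
        exact this.symm
      have hrrs : rs < r := by
        by_contra hcon
        push Not at hcon
        have : r ^ 3 ≤ rs ^ 3 := pow_le_pow_left₀ hr.le hcon 3
        rw [hr3] at this
        linarith
      have hv : volume A = ENNReal.ofReal (r ^ 2 * V) := by
        rw [measure_congr hae2, (hSD r τ hr).2.1, hvD r hr]
      rw [hv] at h2
      have h5 : r ^ 2 * V ≤ 1 / 2 := by
        have : ENNReal.ofReal (r ^ 2 * V) ≤ ENNReal.ofReal (1 / 2) := by
          refine h2.trans (le_of_eq ?_)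
          rw [ENNReal.ofReal_div_of_pos (by norm_num)]
          simp
        exact (ENNReal.ofReal_le_ofReal_iff (by norm_num)).mp this
      have h6 : rs ^ 2 * V < r ^ 2 * V := by
        apply mul_lt_mul_of_pos_right _ hVpos
        exact pow_lt_pow_left₀ hrrs hrs0.le (by norm_num)
      rw [hrs2] at h6
      linarith

end VD
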