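import Pool.Agent.Helper50.VD.St
import Pool.Agent.Helper50.VD.Chk.Ends
import Pool.Agent.Helper50.VD.Chk.U1
import Pool.Agent.Helper50.VD.Chk.U2
import Pool.Agent.Helper50.VD.Chk.U3
import Pool.Agent.Helper50.VD.Chk.U4
import Pool.Agent.Helper50.VD.Chk.U5
import Pool.Agent.Helper50.VD.Chk.U6
import Pool.Agent.Helper50.VD.Chk.U7
import Pool.Agent.Helper50.VD.Chk.L1
import Pool.Agent.Helper50.VD.Chk.L2
import Pool.Agent.Helper50.VD.Chk.L3
import Pool.Agent.Helper50.VD.Chk.L4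
import Pool.Agent.Helper50.VD.Chk.L5

/-! # P5 : the potential of the polygon on its boundary -/

open MeasureTheory Set Filter Topology
open scoped ENNReal

noncomputable section

namespace VD.M_P5

theorem ax_arith (E P a r c : ℝ) (e1 : 2 * Real.pi * P = E) (e2 : |a - 2 ^ 56 * E| ≤ r)
    (e3 : c ≤ 2 ^ 56 * Real.pi) (h : a + r ≤ 2 * c * 1006) : P ≤ 1006 := by
  have e4 := (abs_le.mp e2).1
  have hp : (0 : ℝ) < 2 ^ 56 * (2 * Real.pi) := by positivity
  by_contra hc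
  push Not at hc
  have e5 := mul_lt_mul_of_pos_left hc hp
  have e6 : 2 ^ 56 * (2 * Real.pi) * P = 2 ^ 56 * E := by rw [← e1]; ring
  have e7 : 2 * c * 1006 ≤ 2 * (2 ^ 56 * Real.pi) * 1006 := by
    apply mul_le_mul_of_nonneg_right _ (by norm_num)
    linarith
  have e8 : 2 ^ 56 * (2 * Real.pi) * 1006 = 2 * (2 ^ 56 * Real.pi) * 1006 := by ring
  rw [e6, e8] at e5
  linarith

theorem lo_arith (E P a r c Z : ℝ) (hZ : 1 ≤ Z) (e1 : 4 * Real.pi * Z * P = E)
    (e2 : |a - 2 ^ 56 * E| ≤ r)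
    (e3 : 2 ^ 56 * Real.pi ≤ c) (h : 4 * c * Z * 994 ≤ a - r) : 994 ≤ P := by
  have e4 := (abs_le.mp e2).2
  have hp : (0 : ℝ) < 2 ^ 56 * (4 * Real.pi * Z) := by positivity
  by_contra hc
  push Not at hc
  have e5 := mul_lt_mul_of_pos_left hc hp
  have e6 : 2 ^ 56 * (4 * Real.pi * Z) * P = 2 ^ 56 * E := by rw [← e1]; ring
  have e7 : 4 * (2 ^ 56 * Real.pi) * Z * 994 ≤ 4 * c * Z * 994 := by
    have hZ' : 0 ≤ Z := by linarith
    apply mul_le_mul_of_nonneg_right _ (by norm_num)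
    apply mul_le_mul_of_nonneg_right _ hZ'
    linarith
  have e8 : 2 ^ 56 * (4 * Real.pi * Z) * 994 = 4 * (2 ^ 56 * Real.pi) * Z * 994 := by ring
  rw [e6, e8] at e5
  linarith

theorem ax_sound (hP2 : StP2) (hP3 : StP3) (X : ℕ) (h : axOk X = true) :
    phi (PB 1) ((X : ℝ), (0 : ℝ)) ≤ 1006 := by
  unfold axOk at h
  simp only [Bool.and_eq_true, decide_eq_true_eq, Nat.ble_eq] at h
  obtain ⟨⟨h1, h2⟩, h3⟩ := h
  refine ax_arith _ _ _ _ _ (hP2 X h1) (hP3.1 (TA X) h2) hP3.2.1 ?_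
  exact_mod_cast h3

theorem lo_sound (hP1 : StP1) (hP3 : StP3) (X Z : ℕ) (h : loOk X Z = true) :
    994 ≤ phi (PB 1) ((X : ℝ), (Z : ℝ)) := by
  unfold loOk at h
  simp only [Bool.and_eq_true, decide_eq_true_eq, Nat.ble_eq] at h
  obtain ⟨⟨⟨h0, h1⟩, h2⟩, h3⟩ := h
  refine lo_arith _ _ _ _ _ _ (by exact_mod_cast h0) (hP1 X Z h0 h1) (hP3.1 (TT X Z) h2)
    hP3.2.2 ?_
  exact_mod_cast h3

theorem seg_chkU1 (h : StP4) (z : ℝ × ℝ) (h1 : (0 : ℝ) ≤ z.1) (h2 : z.1 < 1427)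
    (h3 : 0 ≤ z.2) (h4 : g z = 1) : phi (PB 1) z ≤ 1006 :=
  h.1 [(373,3859), (522,3851), (672,3840), (877,3821), (1006,3806), (1097,3795), (1164,3785), 
      (1226,3776), (1281,3768), (1329,3760), (1378,3752)]
    (0,3867) (1427,3744) chkU1 z (by simpa using h1) (by simpa using h2) h3 h4

theorem seg_chkU2 (h : StP4) (z : ℝ × ℝ) (h1 : (1427 : ℝ) ≤ z.1) (h2 : z.1 < 2090)
    (h3 : 0 ≤ z.2) (h4 : g z = 1) : phi (PB 1) z ≤ 1006 :=
  h.1 [(1476,3735), (1531,3725), (1592,3713), (1666,3699), (1751,3681), (1826,3664), 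
      (1888,3650), (1938,3638), (1982,3627), (2021,3617), (2058,3608)]
    (1427,3744) (2090,3600) chkU2 z (by simpa using h1) (by simpa using h2) h3 h4

theorem seg_chkU3 (h : StP4) (z : ℝ × ℝ) (h1 : (2090 : ℝ) ≤ z.1) (h2 : z.1 < 2462)
    (h3 : 0 ≤ z.2) (h4 : g z = 1) : phi (PB 1) z ≤ 1006 :=
  h.1 [(2119,3592), (2148,3584), (2177,3576), (2206,3568), (2235,3560), (2264,3552), 
      (2293,3544), (2321,3535), (2354,3526), (2387,3516), (2423,3505)]
    (2090,3600) (2462,3493) chkU3 z (by simpa using h1) (by simpa using h2) h3 h4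

theorem seg_chkU4 (h : StP4) (z : ℝ × ℝ) (h1 : (2462 : ℝ) ≤ z.1) (h2 : z.1 < 2909)
    (h3 : 0 ≤ z.2) (h4 : g z = 1) : phi (PB 1) z ≤ 1006 :=
  h.1 [(2506,3479), (2556,3463), (2614,3444), (2664,3427), (2707,3412), (2744,3398), 
      (2779,3386), (2809,3375), (2837,3365), (2862,3355), (2887,3346)]
    (2462,3493) (2909,3337) chkU4 z (by simpa using h1) (by simpa using h2) h3 h4

theorem seg_chkU5 (h : StP4) (z : ℝ × ℝ) (h1 : (2909 : ℝ) ≤ z.1) (h2 : z.1 < 3154)
    (h3 : 0 ≤ z.2) (h4 : g z = 1) : phi (PB 1) z ≤ 1006 :=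
  h.1 [(2932,3329), (2952,3321), (2972,3313), (2992,3305), (3012,3297), (3032,3289), 
      (3052,3281), (3072,3273), (3092,3265), (3112,3257), (3132,3248)]
    (2909,3337) (3154,3239) chkU5 z (by simpa using h1) (by simpa using h2) h3 h4

theorem seg_chkU6 (h : StP4) (z : ℝ × ℝ) (h1 : (3154 : ℝ) ≤ z.1) (h2 : z.1 < 3527)
    (h3 : 0 ≤ z.2) (h4 : g z = 1) : phi (PB 1) z ≤ 1006 :=
  h.1 [(3177,3229), (3202,3219), (3227,3208), (3254,3196), (3284,3183), (3317,3169), 
      (3352,3153), (3392,3135), (3431,3116), (3467,3099), (3499,3084)]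
    (3154,3239) (3527,3070) chkU6 z (by simpa using h1) (by simpa using h2) h3 h4

theorem seg_chkU7 (h : StP4) (z : ℝ × ℝ) (h1 : (3527 : ℝ) ≤ z.1) (h2 : z.1 < 3746)
    (h3 : 0 ≤ z.2) (h4 : g z = 1) : phi (PB 1) z ≤ 1006 :=
  h.1 [(3553,3058), (3575,3047), (3596,3036), (3616,3026), (3635,3017), (3652,3008), 
      (3669,2999), (3686,2991), (3701,2983), (3716,2975), (3731,2967)]
    (3527,3070) (3746,2959) chkU7 z (by simpa using h1) (by simpa using h2) h3 h4

theorem seg_chkU8 (h : StP4) (z : ℝ × ℝ) (h1 : (3746 : ℝ) ≤ z.1) (h2 : z.1 < 3923)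
    (h3 : 0 ≤ z.2) (h4 : g z = 1) : phi (PB 1) z ≤ 1006 :=
  h.1 [(3760,2952), (3774,2944), (3789,2936), (3803,2929), (3817,2921), (3832,2913), 
      (3847,2905), (3861,2897), (3876,2889), (3891,2881), (3906,2872)]
    (3746,2959) (3923,2863) chkU8 z (by simpa using h1) (by simpa using h2) h3 h4

theorem seg_chkU9 (h : StP4) (z : ℝ × ℝ) (h1 : (3923 : ℝ) ≤ z.1) (h2 : z.1 < 4207)
    (h3 : 0 ≤ z.2) (h4 : g z = 1) : phi (PB 1) z ≤ 1006 :=
  h.1 [(3940,2853), (3959,2843), (3977,2832), (3998,2820), (4020,2808), (4043,2794), 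
      (4069,2779), (4097,2762), (4129,2743), (4158,2725), (4184,2709)]
    (3923,2863) (4207,2695) chkU9 z (by simpa using h1) (by simpa using h2) h3 h4

theorem seg_chkU10 (h : StP4) (z : ℝ × ℝ) (h1 : (4207 : ℝ) ≤ z.1) (h2 : z.1 < 4391)
    (h3 : 0 ≤ z.2) (h4 : g z = 1) : phi (PB 1) z ≤ 1006 :=
  h.1 [(4228,2681), (4248,2669), (4266,2657), (4283,2646), (4299,2636), (4314,2626), 
      (4328,2617), (4342,2608), (4355,2599), (4368,2591), (4380,2583)]
    (4207,2695) (4391,2575) chkU10 z (by simpa using h1) (by simpa using h2) h3 h4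

theorem seg_chkU11 (h : StP4) (z : ℝ × ℝ) (h1 : (4391 : ℝ) ≤ z.1) (h2 : z.1 < 4524)
    (h3 : 0 ≤ z.2) (h4 : g z = 1) : phi (PB 1) z ≤ 1006 :=
  h.1 [(4403,2567), (4415,2559), (4426,2552), (4436,2545), (4447,2537), (4458,2530), 
      (4469,2522), (4480,2515), (4490,2508), (4501,2500), (4512,2492)]
    (4391,2575) (4524,2484) chkU11 z (by simpa using h1) (by simpa using h2) h3 h4

theorem seg_chkU12 (h : StP4) (z : ℝ × ℝ) (h1 : (4524 : ℝ) ≤ z.1) (h2 : z.1 < 4706)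
    (h3 : 0 ≤ z.2) (h4 : g z = 1) : phi (PB 1) z ≤ 1006 :=
  h.1 [(4536,2475), (4549,2466), (4562,2457), (4575,2448), (4588,2438), (4603,2428), 
      (4617,2417), (4633,2406), (4649,2394), (4667,2381), (4686,2367)]
    (4524,2484) (4706,2352) chkU12 z (by simpa using h1) (by simpa using h2) h3 h4

theorem seg_chkU13 (h : StP4) (z : ℝ × ℝ) (h1 : (4706 : ℝ) ≤ z.1) (h2 : z.1 < 4924)
    (h3 : 0 ≤ z.2) (h4 : g z = 1) : phi (PB 1) z ≤ 1006 :=
  h.1 [(4728,2335), (4753,2316), (4778,2296), (4801,2279), (4821,2263), (4839,2248), 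
      (4856,2235), (4871,2223), (4885,2211), (4899,2200), (4912,2189)]
    (4706,2352) (4924,2179) chkU13 z (by simpa using h1) (by simpa using h2) h3 h4

theorem seg_chkU14 (h : StP4) (z : ℝ × ℝ) (h1 : (4924 : ℝ) ≤ z.1) (h2 : z.1 < 5038)
    (h3 : 0 ≤ z.2) (h4 : g z = 1) : phi (PB 1) z ≤ 1006 :=
  h.1 [(4936,2169), (4947,2160), (4958,2151), (4968,2143), (4977,2135), (4987,2127), 
      (4996,2119), (5005,2111), (5014,2104), (5022,2097), (5030,2090)]
    (4924,2179) (5038,2083) chkU14 z (by simpa using h1) (by simpa using h2) h3 h4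

theorem seg_chkU15 (h : StP4) (z : ℝ × ℝ) (h1 : (5038 : ℝ) ≤ z.1) (h2 : z.1 < 5147)
    (h3 : 0 ≤ z.2) (h4 : g z = 1) : phi (PB 1) z ≤ 1006 :=
  h.1 [(5046,2076), (5055,2068), (5064,2060), (5073,2052), (5082,2044), (5091,2037), 
      (5099,2029), (5109,2021), (5118,2013), (5127,2005), (5136,1996)]
    (5038,2083) (5147,1987) chkU15 z (by simpa using h1) (by simpa using h2) h3 h4

theorem seg_chkU16 (h : StP4) (z : ℝ × ℝ) (h1 : (5147 : ℝ) ≤ z.1) (h2 : z.1 < 5327)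
    (h3 : 0 ≤ z.2) (h4 : g z = 1) : phi (PB 1) z ≤ 1006 :=
  h.1 [(5157,1977), (5169,1967), (5180,1956), (5193,1945), (5206,1932), (5221,1919), 
      (5235,1905), (5252,1889), (5270,1872), (5290,1853), (5310,1834)]
    (5147,1987) (5327,1817) chkU16 z (by simpa using h1) (by simpa using h2) h3 h4

theorem seg_chkU17 (h : StP4) (z : ℝ × ℝ) (h1 : (5327 : ℝ) ≤ z.1) (h2 : z.1 < 5461)
    (h3 : 0 ≤ z.2) (h4 : g z = 1) : phi (PB 1) z ≤ 1006 :=
  h.1 [(5343,1801), (5358,1786), (5372,1772), (5384,1760), (5395,1749), (5406,1737), 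
      (5417,1726), (5427,1716), (5436,1706), (5445,1697), (5453,1689)]
    (5327,1817) (5461,1680) chkU17 z (by simpa using h1) (by simpa using h2) h3 h4

theorem seg_chkU18 (h : StP4) (z : ℝ × ℝ) (h1 : (5461 : ℝ) ≤ z.1) (h2 : z.1 < 5546)
    (h3 : 0 ≤ z.2) (h4 : g z = 1) : phi (PB 1) z ≤ 1006 :=
  h.1 [(5469,1672), (5476,1664), (5484,1656), (5491,1648), (5498,1641), (5505,1633), 
      (5512,1626), (5519,1618), (5526,1611), (5532,1604), (5539,1596)]
    (5461,1680) (5546,1589) chkU18 z (by simpa using h1) (by simpa using h2) h3 h4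

theorem seg_chkU19 (h : StP4) (z : ℝ × ℝ) (h1 : (5546 : ℝ) ≤ z.1) (h2 : z.1 < 5641)
    (h3 : 0 ≤ z.2) (h4 : g z = 1) : phi (PB 1) z ≤ 1006 :=
  h.1 [(5553,1581), (5560,1573), (5567,1566), (5574,1558), (5581,1550), (5589,1541), 
      (5597,1532), (5605,1523), (5613,1514), (5622,1504), (5631,1493)]
    (5546,1589) (5641,1482) chkU19 z (by simpa using h1) (by simpa using h2) h3 h4

theorem seg_chkU20 (h : StP4) (z : ℝ × ℝ) (h1 : (5641 : ℝ) ≤ z.1) (h2 : z.1 < 5795)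
    (h3 : 0 ≤ z.2) (h4 : g z = 1) : phi (PB 1) z ≤ 1006 :=
  h.1 [(5651,1470), (5662,1458), (5673,1445), (5685,1430), (5699,1414), (5714,1396), 
      (5730,1376), (5746,1357), (5760,1339), (5773,1323), (5785,1308)]
    (5641,1482) (5795,1295) chkU20 z (by simpa using h1) (by simpa using h2) h3 h4

theorem seg_chkU21 (h : StP4) (z : ℝ × ℝ) (h1 : (5795 : ℝ) ≤ z.1) (h2 : z.1 < 5883)
    (h3 : 0 ≤ z.2) (h4 : g z = 1) : phi (PB 1) z ≤ 1006 :=
  h.1 [(5805,1282), (5814,1271), (5822,1260), (5830,1250), (5838,1239), (5845,1230), 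
      (5852,1221), (5859,1212), (5865,1204), (5871,1196), (5877,1187)]
    (5795,1295) (5883,1179) chkU21 z (by simpa using h1) (by simpa using h2) h3 h4

theorem seg_chkU22 (h : StP4) (z : ℝ × ℝ) (h1 : (5883 : ℝ) ≤ z.1) (h2 : z.1 < 5950)
    (h3 : 0 ≤ z.2) (h4 : g z = 1) : phi (PB 1) z ≤ 1006 :=
  h.1 [(5889,1171), (5895,1163), (5901,1155), (5906,1148), (5911,1141), (5916,1134), 
      (5922,1126), (5927,1119), (5932,1112), (5938,1103), (5944,1095)]
    (5883,1179) (5950,1086) chkU22 z (by simpa using h1) (by simpa using h2) h3 h4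

theorem seg_chkU23 (h : StP4) (z : ℝ × ℝ) (h1 : (5950 : ℝ) ≤ z.1) (h2 : z.1 < 6046)
    (h3 : 0 ≤ z.2) (h4 : g z = 1) : phi (PB 1) z ≤ 1006 :=
  h.1 [(5956,1078), (5962,1069), (5969,1059), (5976,1049), (5983,1039), (5990,1029), 
      (5998,1017), (6006,1005), (6015,992), (6024,978), (6035,962)]
    (5950,1086) (6046,945) chkU23 z (by simpa using h1) (by simpa using h2) h3 h4

theorem seg_chkU24 (h : StP4) (z : ℝ × ℝ) (h1 : (6046 : ℝ) ≤ z.1) (h2 : z.1 < 6147)
    (h3 : 0 ≤ z.2) (h4 : g z = 1) : phi (PB 1) z ≤ 1006 :=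
  h.1 [(6059,925), (6072,904), (6083,887), (6093,870), (6102,856), (6110,843), (6117,831), 
      (6124,819), (6130,809), (6136,799), (6142,789)]
    (6046,945) (6147,780) chkU24 z (by simpa using h1) (by simpa using h2) h3 h4

theorem seg_chkU25 (h : StP4) (z : ℝ × ℝ) (h1 : (6147 : ℝ) ≤ z.1) (h2 : z.1 < 6199)
    (h3 : 0 ≤ z.2) (h4 : g z = 1) : phi (PB 1) z ≤ 1006 :=
  h.1 [(6152,772), (6157,763), (6162,754), (6167,746), (6171,738), (6175,731), (6179,724), 
      (6183,717), (6187,710), (6191,703), (6195,696)]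
    (6147,780) (6199,688) chkU25 z (by simpa using h1) (by simpa using h2) h3 h4

theorem seg_chkU26 (h : StP4) (z : ℝ × ℝ) (h1 : (6199 : ℝ) ≤ z.1) (h2 : z.1 < 6261)
    (h3 : 0 ≤ z.2) (h4 : g z = 1) : phi (PB 1) z ≤ 1006 :=
  h.1 [(6203,681), (6207,674), (6211,666), (6216,657), (6221,648), (6226,638), (6231,629), 
      (6236,619), (6242,608), (6248,596), (6254,585)]
    (6199,688) (6261,571) chkU26 z (by simpa using h1) (by simpa using h2) h3 h4

theorem seg_chkU27 (h : StP4) (z : ℝ × ℝ) (h1 : (6261 : ℝ) ≤ z.1) (h2 : z.1 < 6342)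
    (h3 : 0 ≤ z.2) (h4 : g z = 1) : phi (PB 1) z ≤ 1006 :=
  h.1 [(6268,557), (6276,541), (6285,522), (6295,501), (6304,482), (6311,467), (6317,454), 
      (6323,440), (6328,429), (6333,417), (6338,406)]
    (6261,571) (6342,397) chkU27 z (by simpa using h1) (by simpa using h2) h3 h4

theorem seg_chkU28 (h : StP4) (z : ℝ × ℝ) (h1 : (6342 : ℝ) ≤ z.1) (h2 : z.1 < 6380)
    (h3 : 0 ≤ z.2) (h4 : g z = 1) : phi (PB 1) z ≤ 1006 :=
  h.1 [(6346,387), (6350,378), (6353,371), (6356,363), (6359,356), (6362,349), (6365,341), 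
      (6368,334), (6371,326), (6374,319), (6377,311)]
    (6342,397) (6380,303) chkU28 z (by simpa using h1) (by simpa using h2) h3 h4

theorem seg_chkU29 (h : StP4) (z : ℝ × ℝ) (h1 : (6380 : ℝ) ≤ z.1) (h2 : z.1 < 6436)
    (h3 : 0 ≤ z.2) (h4 : g z = 1) : phi (PB 1) z ≤ 1006 :=
  h.1 [(6383,296), (6386,288), (6389,280), (6393,269), (6397,259), (6401,248), (6406,234), 
      (6411,220), (6417,202), (6424,181), (6431,159)]
    (6380,303) (6436,142) chkU29 z (by simpa using h1) (by simpa using h2) h3 h4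

theorem seg_chkU30 (h : StP4) (z : ℝ × ℝ) (h1 : (6436 : ℝ) ≤ z.1) (h2 : z.1 < 6466)
    (h3 : 0 ≤ z.2) (h4 : g z = 1) : phi (PB 1) z ≤ 1006 :=
  h.1 [(6440,128), (6444,114), (6447,103), (6450,92), (6452,84), (6454,76), (6456,68), 
      (6458,60), (6460,51), (6462,43), (6464,34)]
    (6436,142) (6466,24) chkU30 z (by simpa using h1) (by simpa using h2) h3 h4

theorem seg_chkU31 (h : StP4) (z : ℝ × ℝ) (h1 : (6466 : ℝ) ≤ z.1) (h2 : z.1 < 6472)
    (h3 : 0 ≤ z.2) (h4 : g z = 1) : phi (PB 1) z ≤ 1006 :=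
  h.1 [(6469,10)]
    (6466,24) (6472,0) chkU31 z (by simpa using h1) (by simpa using h2) h3 h4

theorem seg_chkL1 (h : StP4) (z : ℝ × ℝ) (h1 : 0 ≤ z.1) (h2 : (3709 : ℝ) < z.2)
    (h3 : z.2 ≤ 3887) (h4 : g z = 1) : 994 ≤ phi (PB 1) z :=
  h.2 [(652,3869), (833,3853), (928,3843), (1004,3834), (1097,3822), (1204,3807), (1320,3789), 
      (1434,3770), (1539,3751), (1627,3734), (1695,3720)]
    (352,3887) (1748,3709) chkL1 z h1 (by simpa using h2) (by simpa using h3) h4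

theorem seg_chkL2 (h : StP4) (z : ℝ × ℝ) (h1 : 0 ≤ z.1) (h2 : (3530 : ℝ) < z.2)
    (h3 : z.2 ≤ 3709) (h4 : g z = 1) : 994 ≤ phi (PB 1) z :=
  h.2 [(1789,3700), (1824,3692), (1868,3682), (1919,3670), (1976,3656), (2040,3640), 
      (2109,3622), (2179,3603), (2247,3584), (2314,3565), (2374,3547)]
    (1748,3709) (2430,3530) chkL2 z h1 (by simpa using h2) (by simpa using h3) h4

theorem seg_chkL3 (h : StP4) (z : ℝ × ℝ) (h1 : 0 ≤ z.1) (h2 : (3396 : ℝ) < z.2)
    (h3 : z.2 ≤ 3530) (h4 : g z = 1) : 994 ≤ phi (PB 1) z :=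
  h.2 [(2479,3515), (2523,3501), (2560,3489), (2590,3479), (2617,3470), (2638,3463), 
      (2661,3455), (2687,3446), (2716,3436), (2749,3424), (2785,3411)]
    (2430,3530) (2826,3396) chkL3 z h1 (by simpa using h2) (by simpa using h3) h4

theorem seg_chkL4 (h : StP4) (z : ℝ × ℝ) (h1 : 0 ≤ z.1) (h2 : (3190 : ℝ) < z.2)
    (h3 : z.2 ≤ 3396) (h4 : g z = 1) : 994 ≤ phi (PB 1) z :=
  h.2 [(2869,3380), (2914,3363), (2960,3345), (3009,3326), (3056,3307), (3103,3288), 
      (3148,3269), (3191,3251), (3231,3234), (3268,3218), (3302,3203)]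
    (2826,3396) (3331,3190) chkL4 z h1 (by simpa using h2) (by simpa using h3) h4

theorem seg_chkL5 (h : StP4) (z : ℝ × ℝ) (h1 : 0 ≤ z.1) (h2 : (3063 : ℝ) < z.2)
    (h3 : z.2 ≤ 3190) (h4 : g z = 1) : 994 ≤ phi (PB 1) z :=
  h.2 [(3357,3178), (3379,3168), (3399,3159), (3416,3151), (3431,3144), (3448,3136), 
      (3467,3127), (3488,3117), (3513,3105), (3539,3092), (3568,3078)]
    (3331,3190) (3598,3063) chkL5 z h1 (by simpa using h2) (by simpa using h3) h4

theorem seg_chkL6 (h : StP4) (z : ℝ × ℝ) (h1 : 0 ≤ z.1) (h2 : (2846 : ℝ) < z.2)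
    (h3 : z.2 ≤ 3063) (h4 : g z = 1) : 994 ≤ phi (PB 1) z :=
  h.2 [(3630,3047), (3663,3030), (3698,3012), (3734,2993), (3770,2974), (3806,2955), 
      (3843,2935), (3877,2916), (3912,2897), (3944,2879), (3974,2862)]
    (3598,3063) (4001,2846) chkL6 z h1 (by simpa using h2) (by simpa using h3) h4

theorem seg_chkL7 (h : StP4) (z : ℝ × ℝ) (h1 : 0 ≤ z.1) (h2 : (2717 : ℝ) < z.2)
    (h3 : z.2 ≤ 2846) (h4 : g z = 1) : 994 ≤ phi (PB 1) z :=
  h.2 [(4027,2831), (4051,2817), (4073,2804), (4092,2793), (4110,2782), (4125,2773), 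
      (4138,2765), (4151,2757), (4164,2749), (4179,2740), (4197,2729)]
    (4001,2846) (4216,2717) chkL7 z h1 (by simpa using h2) (by simpa using h3) h4

theorem seg_chkL8 (h : StP4) (z : ℝ × ℝ) (h1 : 0 ≤ z.1) (h2 : (2509 : ℝ) < z.2)
    (h3 : z.2 ≤ 2717) (h4 : g z = 1) : 994 ≤ phi (PB 1) z :=
  h.2 [(4236,2704), (4258,2690), (4282,2675), (4306,2659), (4332,2642), (4360,2624), 
      (4388,2605), (4416,2586), (4444,2567), (4472,2548), (4501,2528)]
    (4216,2717) (4528,2509) chkL8 z h1 (by simpa using h2) (by simpa using h3) h4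

theorem seg_chkL9 (h : StP4) (z : ℝ × ℝ) (h1 : 0 ≤ z.1) (h2 : (2341 : ℝ) < z.2)
    (h3 : z.2 ≤ 2509) (h4 : g z = 1) : 994 ≤ phi (PB 1) z :=
  h.2 [(4555,2490), (4580,2472), (4605,2454), (4628,2437), (4650,2421), (4671,2406), 
      (4689,2392), (4705,2380), (4720,2369), (4734,2358), (4746,2349)]
    (4528,2509) (4757,2341) chkL9 z h1 (by simpa using h2) (by simpa using h3) h4

theorem seg_chkL10 (h : StP4) (z : ℝ × ℝ) (h1 : 0 ≤ z.1) (h2 : (2210 : ℝ) < z.2)
    (h3 : z.2 ≤ 2341) (h4 : g z = 1) : 994 ≤ phi (PB 1) z :=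
  h.2 [(4767,2333), (4776,2326), (4785,2319), (4795,2311), (4807,2302), (4819,2292), 
      (4833,2281), (4848,2269), (4865,2256), (4883,2241), (4901,2226)]
    (4757,2341) (4921,2210) chkL10 z h1 (by simpa using h2) (by simpa using h3) h4

theorem seg_chkL11 (h : StP4) (z : ℝ × ℝ) (h1 : 0 ≤ z.1) (h2 : (1983 : ℝ) < z.2)
    (h3 : z.2 ≤ 2210) (h4 : g z = 1) : 994 ≤ phi (PB 1) z :=
  h.2 [(4941,2193), (4963,2175), (4986,2156), (5009,2136), (5032,2116), (5055,2096), 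
      (5077,2077), (5100,2057), (5122,2037), (5143,2018), (5163,2000)]
    (4921,2210) (5182,1983) chkL11 z h1 (by simpa using h2) (by simpa using h3) h4

theorem seg_chkL12 (h : StP4) (z : ℝ × ℝ) (h1 : 0 ≤ z.1) (h2 : (1846 : ℝ) < z.2)
    (h3 : z.2 ≤ 1983) (h4 : g z = 1) : 994 ≤ phi (PB 1) z :=
  h.2 [(5200,1966), (5217,1951), (5233,1936), (5247,1922), (5260,1910), (5272,1899), 
      (5283,1888), (5292,1879), (5301,1871), (5309,1863), (5317,1855)]
    (5182,1983) (5326,1846) chkL12 z h1 (by simpa using h2) (by simpa using h3) h4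

theorem seg_chkL13 (h : StP4) (z : ℝ × ℝ) (h1 : 0 ≤ z.1) (h2 : (1665 : ℝ) < z.2)
    (h3 : z.2 ≤ 1846) (h4 : g z = 1) : 994 ≤ phi (PB 1) z :=
  h.2 [(5335,1837), (5346,1827), (5358,1815), (5371,1802), (5384,1788), (5399,1773), 
      (5415,1757), (5431,1740), (5448,1722), (5466,1704), (5484,1684)]
    (5326,1846) (5502,1665) chkL13 z h1 (by simpa using h2) (by simpa using h3) h4

theorem seg_chkL14 (h : StP4) (z : ℝ × ℝ) (h1 : 0 ≤ z.1) (h2 : (1450 : ℝ) < z.2)
    (h3 : z.2 ≤ 1665) (h4 : g z = 1) : 994 ≤ phi (PB 1) z :=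
  h.2 [(5521,1645), (5540,1624), (5558,1604), (5576,1584), (5593,1565), (5610,1546), 
      (5626,1528), (5642,1510), (5656,1493), (5669,1478), (5681,1464)]
    (5502,1665) (5693,1450) chkL14 z h1 (by simpa using h2) (by simpa using h3) h4

theorem seg_chkL15 (h : StP4) (z : ℝ × ℝ) (h1 : 0 ≤ z.1) (h2 : (1329 : ℝ) < z.2)
    (h3 : z.2 ≤ 1450) (h4 : g z = 1) : 994 ≤ phi (PB 1) z :=
  h.2 [(5704,1437), (5714,1425), (5722,1415), (5729,1406), (5736,1398), (5742,1391), 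
      (5748,1383), (5755,1375), (5763,1365), (5772,1354), (5781,1342)]
    (5693,1450) (5791,1329) chkL15 z h1 (by simpa using h2) (by simpa using h3) h4

theorem seg_chkL16 (h : StP4) (z : ℝ × ℝ) (h1 : 0 ≤ z.1) (h2 : (1108 : ℝ) < z.2)
    (h3 : z.2 ≤ 1329) (h4 : g z = 1) : 994 ≤ phi (PB 1) z :=
  h.2 [(5802,1315), (5814,1300), (5826,1284), (5839,1267), (5853,1249), (5867,1230), 
      (5882,1210), (5897,1190), (5912,1169), (5927,1148), (5941,1128)]
    (5791,1329) (5956,1108) chkL16 z h1 (by simpa using h2) (by simpa using h3) h4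

theorem seg_chkL17 (h : StP4) (z : ℝ × ℝ) (h1 : 0 ≤ z.1) (h2 : (940 : ℝ) < z.2)
    (h3 : z.2 ≤ 1108) (h4 : g z = 1) : 994 ≤ phi (PB 1) z :=
  h.2 [(5969,1088), (5982,1070), (5994,1052), (6006,1035), (6017,1019), (6027,1003), (6036,990), 
      (6044,977), (6051,966), (6057,957), (6063,948)]
    (5956,1108) (6068,940) chkL17 z h1 (by simpa using h2) (by simpa using h3) h4

theorem seg_chkL18 (h : StP4) (z : ℝ × ℝ) (h1 : 0 ≤ z.1) (h2 : (769 : ℝ) < z.2)
    (h3 : z.2 ≤ 940) (h4 : g z = 1) : 994 ≤ phi (PB 1) z :=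
  h.2 [(6073,933), (6078,924), (6084,915), (6091,904), (6099,891), (6107,877), (6116,863), 
      (6126,846), (6137,828), (6148,809), (6159,789)]
    (6068,940) (6171,769) chkL18 z h1 (by simpa using h2) (by simpa using h3) h4

theorem seg_chkL19 (h : StP4) (z : ℝ × ℝ) (h1 : 0 ≤ z.1) (h2 : (550 : ℝ) < z.2)
    (h3 : z.2 ≤ 769) (h4 : g z = 1) : 994 ≤ phi (PB 1) z :=
  h.2 [(6183,747), (6195,726), (6207,704), (6218,683), (6229,663), (6240,643), (6250,623), 
      (6259,605), (6267,589), (6274,575), (6281,562)]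
    (6171,769) (6286,550) chkL19 z h1 (by simpa using h2) (by simpa using h3) h4

theorem seg_chkL20 (h : StP4) (z : ℝ × ℝ) (h1 : 0 ≤ z.1) (h2 : (380 : ℝ) < z.2)
    (h3 : z.2 ≤ 550) (h4 : g z = 1) : 994 ≤ phi (PB 1) z :=
  h.2 [(6291,541), (6295,532), (6299,524), (6303,515), (6308,505), (6314,492), (6321,477), 
      (6328,460), (6336,442), (6344,423), (6353,403)]
    (6286,550) (6362,380) chkL20 z h1 (by simpa using h2) (by simpa using h3) h4

theorem seg_chkL21 (h : StP4) (z : ℝ × ℝ) (h1 : 0 ≤ z.1) (h2 : (187 : ℝ) < z.2)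
    (h3 : z.2 ≤ 380) (h4 : g z = 1) : 994 ≤ phi (PB 1) z :=
  h.2 [(6371,358), (6380,336), (6389,313), (6397,291), (6404,271), (6410,254), (6415,239), 
      (6420,226), (6424,214), (6427,204), (6430,196)]
    (6362,380) (6433,187) chkL21 z h1 (by simpa using h2) (by simpa using h3) h4

theorem seg_chkL22 (h : StP4) (z : ℝ × ℝ) (h1 : 0 ≤ z.1) (h2 : (5 : ℝ) < z.2)
    (h3 : z.2 ≤ 187) (h4 : g z = 1) : 994 ≤ phi (PB 1) z :=
  h.2 [(6436,175), (6440,162), (6445,146), (6450,125), (6456,104), (6462,79), (6467,54), 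
      (6471,34), (6474,17)]
    (6433,187) (6475,5) chkL22 z h1 (by simpa using h2) (by simpa using h3) h4

end VD.M_P5

namespace VD

open M_P5

theorem phi_mono_of (hK6 : StK6) (hK7 : StK7) {A : Set (ℝ × ℝ)} (hA : DM A) (hv : 0 < volume A)
    (z w : ℝ × ℝ) (hz : 0 ≤ z.2) (h1 : |z.1| ≤ |w.1|) (h2 : z.2 ≤ w.2) (h3 : 0 ≤ z.1) (h4 : 0 ≤ w.1) :
    phi A w ≤ phi A z := by
  have e1 : phi A (w.1, w.2) ≤ phi A (z.1, w.2) := by
    rcases h1.eq_or_lt with h | h
    · rw [abs_of_nonneg h3, abs_of_nonneg h4] at h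
      rw [h]
    · exact (hK6 A hA hv _ _ _ (hz.trans h2) h).le
  have e2 : phi A (z.1, w.2) ≤ phi A (z.1, z.2) := by
    rcases h2.eq_or_lt with h | h
    · rw [h]
    · exact (hK7 A hA hv _ _ _ hz h).le
  exact e1.trans e2

theorem mP5 (hK6 : StK6) (hK7 : StK7) (hP0 : StP0) (hP1 : StP1) (hP2 : StP2) (hP3 : StP3)
    (hP4 : StP4) : StP5 := by
  intro z hz1 hz2 hg
  obtain ⟨-, -, hb, -, -, -, hr⟩ := hP0
  obtain ⟨hdm, -, hpos, -, -⟩ := hr 1 one_pos
  obtain ⟨-, hx, hy, -⟩ := hb z hz2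
  rw [hg, abs_of_nonneg hz1] at hx
  rw [hg] at hy
  constructor
  · rcases le_or_gt z.2 5 with h | h
    · have e := lo_sound hP1 hP3 6475 5 chkLast
      refine e.trans (phi_mono_of hK6 hK7 hdm hpos z _ hz2 ?_ ?_ hz1 ?_)
      · rw [abs_of_nonneg hz1, abs_of_nonneg (by positivity)]; push_cast; linarith
      · push_cast; linarith
      · positivity
    rcases le_or_gt z.2 187 with h' | h'
    · exact seg_chkL22 hP4 z hz1 h h' hg
    clear h; rename' h' => h
    rcases le_or_gt z.2 380 with h' | h'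
    · exact seg_chkL21 hP4 z hz1 h h' hg
    clear h; rename' h' => h
    rcases le_or_gt z.2 550 with h' | h'
    · exact seg_chkL20 hP4 z hz1 h h' hg
    clear h; rename' h' => h
    rcases le_or_gt z.2 769 with h' | h'
    · exact seg_chkL19 hP4 z hz1 h h' hg
    clear h; rename' h' => h
    rcases le_or_gt z.2 940 with h' | h'
    · exact seg_chkL18 hP4 z hz1 h h' hg
    clear h; rename' h' => h
    rcases le_or_gt z.2 1108 with h' | h'
    · exact seg_chkL17 hP4 z hz1 h h' hg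
    clear h; rename' h' => h
    rcases le_or_gt z.2 1329 with h' | h'
    · exact seg_chkL16 hP4 z hz1 h h' hg
    clear h; rename' h' => h
    rcases le_or_gt z.2 1450 with h' | h'
    · exact seg_chkL15 hP4 z hz1 h h' hg
    clear h; rename' h' => h
    rcases le_or_gt z.2 1665 with h' | h'
    · exact seg_chkL14 hP4 z hz1 h h' hg
    clear h; rename' h' => h
    rcases le_or_gt z.2 1846 with h' | h'
    · exact seg_chkL13 hP4 z hz1 h h' hg
    clear h; rename' h' => h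
    rcases le_or_gt z.2 1983 with h' | h'
    · exact seg_chkL12 hP4 z hz1 h h' hg
    clear h; rename' h' => h
    rcases le_or_gt z.2 2210 with h' | h'
    · exact seg_chkL11 hP4 z hz1 h h' hg
    clear h; rename' h' => h
    rcases le_or_gt z.2 2341 with h' | h'
    · exact seg_chkL10 hP4 z hz1 h h' hg
    clear h; rename' h' => h
    rcases le_or_gt z.2 2509 with h' | h'
    · exact seg_chkL9 hP4 z hz1 h h' hg
    clear h; rename' h' => h
    rcases le_or_gt z.2 2717 with h' | h'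
    · exact seg_chkL8 hP4 z hz1 h h' hg
    clear h; rename' h' => h
    rcases le_or_gt z.2 2846 with h' | h'
    · exact seg_chkL7 hP4 z hz1 h h' hg
    clear h; rename' h' => h
    rcases le_or_gt z.2 3063 with h' | h'
    · exact seg_chkL6 hP4 z hz1 h h' hg
    clear h; rename' h' => h
    rcases le_or_gt z.2 3190 with h' | h'
    · exact seg_chkL5 hP4 z hz1 h h' hg
    clear h; rename' h' => h
    rcases le_or_gt z.2 3396 with h' | h'
    · exact seg_chkL4 hP4 z hz1 h h' hg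
    clear h; rename' h' => h
    rcases le_or_gt z.2 3530 with h' | h'
    · exact seg_chkL3 hP4 z hz1 h h' hg
    clear h; rename' h' => h
    rcases le_or_gt z.2 3709 with h' | h'
    · exact seg_chkL2 hP4 z hz1 h h' hg
    clear h; rename' h' => h
    exact seg_chkL1 hP4 z hz1 h (by linarith) hg
  · rcases lt_or_ge z.1 1427 with h | h
    · exact seg_chkU1 hP4 z (by linarith) h hz2 hg
    rcases lt_or_ge z.1 2090 with h' | h'
    · exact seg_chkU2 hP4 z h h' hz2 hg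
    clear h; rename' h' => h
    rcases lt_or_ge z.1 2462 with h' | h'
    · exact seg_chkU3 hP4 z h h' hz2 hg
    clear h; rename' h' => h
    rcases lt_or_ge z.1 2909 with h' | h'
    · exact seg_chkU4 hP4 z h h' hz2 hg
    clear h; rename' h' => h
    rcases lt_or_ge z.1 3154 with h' | h'
    · exact seg_chkU5 hP4 z h h' hz2 hg
    clear h; rename' h' => h
    rcases lt_or_ge z.1 3527 with h' | h'
    · exact seg_chkU6 hP4 z h h' hz2 hg
    clear h; rename' h' => h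
    rcases lt_or_ge z.1 3746 with h' | h'
    · exact seg_chkU7 hP4 z h h' hz2 hg
    clear h; rename' h' => h
    rcases lt_or_ge z.1 3923 with h' | h'
    · exact seg_chkU8 hP4 z h h' hz2 hg
    clear h; rename' h' => h
    rcases lt_or_ge z.1 4207 with h' | h'
    · exact seg_chkU9 hP4 z h h' hz2 hg
    clear h; rename' h' => h
    rcases lt_or_ge z.1 4391 with h' | h'
    · exact seg_chkU10 hP4 z h h' hz2 hg
    clear h; rename' h' => h
    rcases lt_or_ge z.1 4524 with h' | h'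
    · exact seg_chkU11 hP4 z h h' hz2 hg
    clear h; rename' h' => h
    rcases lt_or_ge z.1 4706 with h' | h'
    · exact seg_chkU12 hP4 z h h' hz2 hg
    clear h; rename' h' => h
    rcases lt_or_ge z.1 4924 with h' | h'
    · exact seg_chkU13 hP4 z h h' hz2 hg
    clear h; rename' h' => h
    rcases lt_or_ge z.1 5038 with h' | h'
    · exact seg_chkU14 hP4 z h h' hz2 hg
    clear h; rename' h' => h
    rcases lt_or_ge z.1 5147 with h' | h'
    · exact seg_chkU15 hP4 z h h' hz2 hg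
    clear h; rename' h' => h
    rcases lt_or_ge z.1 5327 with h' | h'
    · exact seg_chkU16 hP4 z h h' hz2 hg
    clear h; rename' h' => h
    rcases lt_or_ge z.1 5461 with h' | h'
    · exact seg_chkU17 hP4 z h h' hz2 hg
    clear h; rename' h' => h
    rcases lt_or_ge z.1 5546 with h' | h'
    · exact seg_chkU18 hP4 z h h' hz2 hg
    clear h; rename' h' => h
    rcases lt_or_ge z.1 5641 with h' | h'
    · exact seg_chkU19 hP4 z h h' hz2 hg
    clear h; rename' h' => h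
    rcases lt_or_ge z.1 5795 with h' | h'
    · exact seg_chkU20 hP4 z h h' hz2 hg
    clear h; rename' h' => h
    rcases lt_or_ge z.1 5883 with h' | h'
    · exact seg_chkU21 hP4 z h h' hz2 hg
    clear h; rename' h' => h
    rcases lt_or_ge z.1 5950 with h' | h'
    · exact seg_chkU22 hP4 z h h' hz2 hg
    clear h; rename' h' => h
    rcases lt_or_ge z.1 6046 with h' | h'
    · exact seg_chkU23 hP4 z h h' hz2 hg
    clear h; rename' h' => h
    rcases lt_or_ge z.1 6147 with h' | h'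
    · exact seg_chkU24 hP4 z h h' hz2 hg
    clear h; rename' h' => h
    rcases lt_or_ge z.1 6199 with h' | h'
    · exact seg_chkU25 hP4 z h h' hz2 hg
    clear h; rename' h' => h
    rcases lt_or_ge z.1 6261 with h' | h'
    · exact seg_chkU26 hP4 z h h' hz2 hg
    clear h; rename' h' => h
    rcases lt_or_ge z.1 6342 with h' | h'
    · exact seg_chkU27 hP4 z h h' hz2 hg
    clear h; rename' h' => h
    rcases lt_or_ge z.1 6380 with h' | h'
    · exact seg_chkU28 hP4 z h h' hz2 hg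
    clear h; rename' h' => h
    rcases lt_or_ge z.1 6436 with h' | h'
    · exact seg_chkU29 hP4 z h h' hz2 hg
    clear h; rename' h' => h
    rcases lt_or_ge z.1 6466 with h' | h'
    · exact seg_chkU30 hP4 z h h' hz2 hg
    clear h; rename' h' => h
    rcases lt_or_ge z.1 6472 with h' | h'
    · exact seg_chkU31 hP4 z h h' hz2 hg
    clear h; rename' h' => h
    have e := ax_sound hP2 hP3 6472 chkAx
    refine (phi_mono_of hK6 hK7 hdm hpos _ z (le_refl _) ?_ ?_ ?_ hz1).trans e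
    · rw [abs_of_nonneg (by positivity), abs_of_nonneg hz1]; push_cast; linarith
    · simpa using hz2
    · positivity

end VD
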