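import Pool.Agent.Helper50.VD.St
import Pool.Agent.Helper50.VD.Chk.W1
import Pool.Agent.Helper50.VD.Chk.W2
import Pool.Agent.Helper50.VD.Chk.W3
import Pool.Agent.Helper50.VD.Chk.T1
import Pool.Agent.Helper50.VD.Chk.T2

/-! # U3 : every solution is close to the polygon -/

open MeasureTheory Set Filter Topology
open scoped ENNReal

noncomputable section

namespace VD

theorem mU3 (hU1 : StU1) (hW5 : StW5) (hR6 : StR6) (hT3 : StT3) (hC3 : StC3) : StU3 := by
  intro A W hS ρ p q hc
  by_contra hr
  push Not at hr
  rcases le_or_gt (77 / 100) ρ with h | h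
  · exact hC3 A ρ p q hc (by linarith) hr
  obtain ⟨-, h2, -⟩ := hU1 A ρ p q hc
  obtain ⟨hw, ht⟩ := hR6 A W hS ρ p q hc
  rcases h2 with h2 | h2
  · have h3 := hw h2
    rcases le_or_gt (7519 / 10000) ρ with h4 | h4
    · exact hW5 7700 7519 chkW_7700 A ρ p q hc h2 (by norm_num; linarith) (by norm_num; linarith)
    clear h; rename' h4 => h
    rcases le_or_gt (7317 / 10000) ρ with h4 | h4
    · exact hW5 7519 7317 chkW_7519 A ρ p q hc h2 (by norm_num; linarith) (by norm_num; linarith)
    clear h; rename' h4 => h
    rcases le_or_gt (7098 / 10000) ρ with h4 | h4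
    · exact hW5 7317 7098 chkW_7317 A ρ p q hc h2 (by norm_num; linarith) (by norm_num; linarith)
    clear h; rename' h4 => h
    rcases le_or_gt (6862 / 10000) ρ with h4 | h4
    · exact hW5 7098 6862 chkW_7098 A ρ p q hc h2 (by norm_num; linarith) (by norm_num; linarith)
    clear h; rename' h4 => h
    rcases le_or_gt (6611 / 10000) ρ with h4 | h4
    · exact hW5 6862 6611 chkW_6862 A ρ p q hc h2 (by norm_num; linarith) (by norm_num; linarith)
    clear h; rename' h4 => h
    rcases le_or_gt (6348 / 10000) ρ with h4 | h4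
    · exact hW5 6611 6348 chkW_6611 A ρ p q hc h2 (by norm_num; linarith) (by norm_num; linarith)
    clear h; rename' h4 => h
    rcases le_or_gt (6079 / 10000) ρ with h4 | h4
    · exact hW5 6348 6079 chkW_6348 A ρ p q hc h2 (by norm_num; linarith) (by norm_num; linarith)
    clear h; rename' h4 => h
    rcases le_or_gt (5809 / 10000) ρ with h4 | h4
    · exact hW5 6079 5809 chkW_6079 A ρ p q hc h2 (by norm_num; linarith) (by norm_num; linarith)
    clear h; rename' h4 => h
    rcases le_or_gt (5541 / 10000) ρ with h4 | h4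
    · exact hW5 5809 5541 chkW_5809 A ρ p q hc h2 (by norm_num; linarith) (by norm_num; linarith)
    clear h; rename' h4 => h
    rcases le_or_gt (5279 / 10000) ρ with h4 | h4
    · exact hW5 5541 5279 chkW_5541 A ρ p q hc h2 (by norm_num; linarith) (by norm_num; linarith)
    clear h; rename' h4 => h
    rcases le_or_gt (5028 / 10000) ρ with h4 | h4
    · exact hW5 5279 5028 chkW_5279 A ρ p q hc h2 (by norm_num; linarith) (by norm_num; linarith)
    clear h; rename' h4 => h
    rcases le_or_gt (4792 / 10000) ρ with h4 | h4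
    · exact hW5 5028 4792 chkW_5028 A ρ p q hc h2 (by norm_num; linarith) (by norm_num; linarith)
    clear h; rename' h4 => h
    rcases le_or_gt (4575 / 10000) ρ with h4 | h4
    · exact hW5 4792 4575 chkW_4792 A ρ p q hc h2 (by norm_num; linarith) (by norm_num; linarith)
    clear h; rename' h4 => h
    rcases le_or_gt (4377 / 10000) ρ with h4 | h4
    · exact hW5 4575 4377 chkW_4575 A ρ p q hc h2 (by norm_num; linarith) (by norm_num; linarith)
    clear h; rename' h4 => h
    rcases le_or_gt (4197 / 10000) ρ with h4 | h4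
    · exact hW5 4377 4197 chkW_4377 A ρ p q hc h2 (by norm_num; linarith) (by norm_num; linarith)
    clear h; rename' h4 => h
    rcases le_or_gt (4038 / 10000) ρ with h4 | h4
    · exact hW5 4197 4038 chkW_4197 A ρ p q hc h2 (by norm_num; linarith) (by norm_num; linarith)
    clear h; rename' h4 => h
    rcases le_or_gt (3897 / 10000) ρ with h4 | h4
    · exact hW5 4038 3897 chkW_4038 A ρ p q hc h2 (by norm_num; linarith) (by norm_num; linarith)
    clear h; rename' h4 => h
    rcases le_or_gt (3774 / 10000) ρ with h4 | h4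
    · exact hW5 3897 3774 chkW_3897 A ρ p q hc h2 (by norm_num; linarith) (by norm_num; linarith)
    clear h; rename' h4 => h
    exact hW5 3774 3701 chkW_3774 A ρ p q hc h2 (by norm_num; linarith) (by norm_num; linarith)
  · have h3 := ht h2
    rcases le_or_gt (7244 / 10000) ρ with h4 | h4
    · exact hT3 7700 7244 chkT_7700 A ρ p q hc h2 (by norm_num; linarith) (by norm_num; linarith)
    clear h; rename' h4 => h
    rcases le_or_gt (6694 / 10000) ρ with h4 | h4
    · exact hT3 7244 6694 chkT_7244 A ρ p q hc h2 (by norm_num; linarith) (by norm_num; linarith)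
    clear h; rename' h4 => h
    rcases le_or_gt (6048 / 10000) ρ with h4 | h4
    · exact hT3 6694 6048 chkT_6694 A ρ p q hc h2 (by norm_num; linarith) (by norm_num; linarith)
    clear h; rename' h4 => h
    rcases le_or_gt (5328 / 10000) ρ with h4 | h4
    · exact hT3 6048 5328 chkT_6048 A ρ p q hc h2 (by norm_num; linarith) (by norm_num; linarith)
    clear h; rename' h4 => h
    rcases le_or_gt (4594 / 10000) ρ with h4 | h4
    · exact hT3 5328 4594 chkT_5328 A ρ p q hc h2 (by norm_num; linarith) (by norm_num; linarith)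
    clear h; rename' h4 => h
    rcases le_or_gt (3928 / 10000) ρ with h4 | h4
    · exact hT3 4594 3928 chkT_4594 A ρ p q hc h2 (by norm_num; linarith) (by norm_num; linarith)
    clear h; rename' h4 => h
    rcases le_or_gt (3401 / 10000) ρ with h4 | h4
    · exact hT3 3928 3401 chkT_3928 A ρ p q hc h2 (by norm_num; linarith) (by norm_num; linarith)
    clear h; rename' h4 => h
    rcases le_or_gt (3062 / 10000) ρ with h4 | h4
    · exact hT3 3401 3062 chkT_3401 A ρ p q hc h2 (by norm_num; linarith) (by norm_num; linarith)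
    clear h; rename' h4 => h
    rcases le_or_gt (2874 / 10000) ρ with h4 | h4
    · exact hT3 3062 2874 chkT_3062 A ρ p q hc h2 (by norm_num; linarith) (by norm_num; linarith)
    clear h; rename' h4 => h
    exact hT3 2874 2813 chkT_2874 A ρ p q hc h2 (by norm_num; linarith) (by norm_num; linarith)

end VD
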