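import Pool.Agent.Helper50.VD.Defs

/-! # Basic facts, free to use in all modules -/

open MeasureTheory Set Filter Topology
open scoped ENNReal

noncomputable section

namespace VD

theorem measurableSet_Om : MeasurableSet Om := measurableSet_lt measurable_const measurable_snd

theorem isOpen_Om : IsOpen Om := isOpen_lt continuous_const continuous_snd

theorem measurableSet_Box (n : ℝ) : MeasurableSet (Box n) := by
  have h1 : MeasurableSet {z : ℝ × ℝ | |z.1| ≤ n} := by
    apply measurableSet_le _ measurable_const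
    exact (continuous_abs.comp continuous_fst).measurable
  have h2 : MeasurableSet {z : ℝ × ℝ | 0 < z.2} := measurableSet_lt measurable_const measurable_snd
  have h3 : MeasurableSet {z : ℝ × ℝ | z.2 ≤ n} := measurableSet_le measurable_snd measurable_const
  exact h1.inter (h2.inter h3)

theorem Box_eq (n : ℝ) : Box n = Icc (-n) n ×ˢ Ioc 0 n := by
  ext z
  simp [Box, abs_le, and_assoc]

theorem Box_subset_Om (n : ℝ) : Box n ⊆ Om := fun _ hz => hz.2.1

theorem Box_mono {m n : ℝ} (h : m ≤ n) : Box m ⊆ Box n :=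
  fun _ hz => ⟨hz.1.trans h, hz.2.1, hz.2.2.trans h⟩

theorem volume_Box (n : ℝ) (hn : 0 ≤ n) : volume (Box n) = ENNReal.ofReal (2 * n * n) := by
  rw [Box_eq, Measure.volume_eq_prod, Measure.prod_prod, Real.volume_Icc, Real.volume_Ioc,
    ← ENNReal.ofReal_mul (by linarith)]
  congr 1; ring

theorem volume_Box_lt_top (n : ℝ) : volume (Box n) < ∞ := by
  rw [Box_eq, Measure.volume_eq_prod, Measure.prod_prod, Real.volume_Icc, Real.volume_Ioc]
  exact ENNReal.mul_lt_top ENNReal.ofReal_lt_top ENNReal.ofReal_lt_top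

theorem nu_apply {A : Set (ℝ × ℝ)} (hA : MeasurableSet A) :
    nu A = ∫⁻ y in A, ENNReal.ofReal y.2 := withDensity_apply _ hA

theorem nu_lt_top {A : Set (ℝ × ℝ)} {n : ℝ} (hA : A ⊆ Box n) : nu A < ∞ := by
  refine lt_of_le_of_lt (measure_mono hA) ?_
  rw [nu_apply (measurableSet_Box n)]
  calc ∫⁻ y in Box n, ENNReal.ofReal y.2 ≤ ∫⁻ y in Box n, ENNReal.ofReal n := by
        apply setLIntegral_mono' (measurableSet_Box n)
        intro y hy
        exact ENNReal.ofReal_le_ofReal hy.2.2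
    _ = ENNReal.ofReal n * volume (Box n) := by rw [setLIntegral_const]
    _ < ∞ := ENNReal.mul_lt_top ENNReal.ofReal_lt_top (volume_Box_lt_top n)

theorem vol_lt_top {A : Set (ℝ × ℝ)} {n : ℝ} (hA : A ⊆ Box n) : volume A < ∞ :=
  lt_of_le_of_lt (measure_mono hA) (volume_Box_lt_top n)

theorem DM.vol {A : Set (ℝ × ℝ)} (h : DM A) : volume A < ∞ := by
  obtain ⟨R, hR⟩ := h.bdd; exact vol_lt_top hR

theorem DM.nu {A : Set (ℝ × ℝ)} (h : DM A) : VD.nu A < ∞ := by
  obtain ⟨R, hR⟩ := h.bdd; exact nu_lt_top hR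

theorem DM.symm {A : Set (ℝ × ℝ)} (h : DM A) {z : ℝ × ℝ} (hz : z ∈ A) : (-z.1, z.2) ∈ A :=
  h.mono z hz (-z.1, z.2) (show (0 : ℝ) < z.2 from h.sub hz) (by simp) le_rfl

theorem phi_of_null {A : Set (ℝ × ℝ)} (h : volume A = 0) (z : ℝ × ℝ) : phi A z = 0 := by
  unfold phi
  rw [Measure.restrict_eq_zero.mpr h]
  simp

theorem phi_congr {A C : Set (ℝ × ℝ)} (h : A =ᵐ[volume] C) (z : ℝ × ℝ) : phi A z = phi C z := by
  unfold phi
  rw [Measure.restrict_congr_set h]

theorem BG_congr {A C A' C' : Set (ℝ × ℝ)} (h : A =ᵐ[volume] A') (h' : C =ᵐ[volume] C') :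
    BG A C = BG A' C' := by
  unfold BG
  rw [Measure.restrict_congr_set h]
  congr 1
  ext z
  rw [phi_congr h']

theorem nu_congr {A C : Set (ℝ × ℝ)} (h : A =ᵐ[volume] C) : nu A = nu C :=
  measure_congr ((withDensity_absolutelyContinuous _ _).ae_eq h)

theorem Sol.vol_pos {A : Set (ℝ × ℝ)} {W : ℝ} (h : Sol A W) : 0 < volume A := by
  obtain ⟨z, hz⟩ := h.ne
  by_contra hc
  have h0 : volume A = 0 := by simpa using hc
  have := (h.iff z (h.dm.sub hz)).mp hz
  rw [phi_of_null h0] at this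
  exact absurd this (not_lt.mpr h.pos.le)

theorem nu_pos_iff {A : Set (ℝ × ℝ)} (hA : MeasurableSet A) (hs : A ⊆ Om) :
    0 < VD.nu A ↔ 0 < volume A := by
  rw [nu_apply hA, pos_iff_ne_zero, pos_iff_ne_zero, not_iff_not]
  constructor
  · intro h
    rw [lintegral_eq_zero_iff (by fun_prop)] at h
    have h2 : ∀ᵐ y ∂(volume.restrict A), False := by
      have h3 : ∀ᵐ y ∂(volume.restrict A), y ∈ A := ae_restrict_mem hA
      filter_upwards [h, h3] with y hy hy'
      have := hs hy'
      simp only [Pi.zero_apply, ENNReal.ofReal_eq_zero] at hy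
      exact absurd hy (not_le.mpr this)
    rw [ae_iff] at h2
    simpa using h2
  · intro h
    rw [Measure.restrict_eq_zero.mpr h]
    simp

end VD
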