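import Pool.Agent.Helper50.VD.St
import Pool.Agent.Helper25.VD.M_K0
import Pool.Agent.Helper75.VD.M_K1
import Pool.Agent.Helper25.VD.M_K2
import Pool.Agent.Helper73.VD.M_P0
import Pool.Agent.Helper25.VD.M_K5
import Pool.Agent.Helper75.VD.M_K6
import Pool.Agent.Helper83.VD.M_M0
import Pool.Agent.Helper55.VD.M_M1
import Pool.Agent.Helper52.VD.M_M5
import Pool.Agent.Helper75.VD.M_K7
import Pool.Agent.Helper83.VD.M_P1a
import Pool.Agent.Helper2.VD.M_P1b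
import Pool.Agent.Helper15.VD.M_P1
import Pool.Agent.Helper2.VD.M_P2b
import Pool.Agent.Helper15.VD.M_P2
import Pool.Agent.Helper49.VD.M_P3a
import Pool.Agent.Helper62.VD.M_P3
import Pool.Agent.Helper32.VD.M_P4
import Pool.Agent.Helper50.VD.M_P5
import Pool.Agent.Helper70.VD.M_U1
import Pool.Agent.Helper42.VD.M_U2
import Pool.Agent.Helper47.VD.M_W3
import Pool.Agent.Helper75.VD.M_W1
import Pool.Agent.Helper75.VD.M_W2
import Pool.Agent.Helper59.VD.M_A1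
import Pool.Agent.Helper70.VD.M_A3
import Pool.Agent.Helper70.VD.M_W4a
import Pool.Agent.Helper77.VD.M_W4
import Pool.Agent.Helper25.VD.M_K3
import Pool.Agent.Helper59.VD.M_U0
import Pool.Agent.Helper47.VD.M_W5
import Pool.Agent.Helper87.VD.M_R1
import Pool.Agent.Helper75.VD.M_K1b
import Pool.Agent.Helper3.VD.M_R3
import Pool.Agent.Helper75.VD.M_K1c
import Pool.Agent.Helper32.VD.M_R2
import Pool.Agent.Helper83.VD.M_R4
import Pool.Agent.Helper53.VD.M_R5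
import Pool.Agent.Helper3.VD.M_R6
import Pool.Agent.Helper42.VD.M_T1
import Pool.Agent.Helper47.VD.M_T2
import Pool.Agent.Helper59.VD.M_A2
import Pool.Agent.Helper70.VD.M_T4
import Pool.Agent.Helper32.VD.M_T3a
import Pool.Agent.Helper53.VD.M_T3
import Pool.Agent.Helper68.VD.M_C1
import Pool.Agent.Helper64.VD.M_C2
import Pool.Agent.Helper64.VD.M_C3
import Pool.Agent.Helper50.VD.M_U3
import Pool.Agent.Helper64.VD.M_C4
import Pool.Agent.Helper68.VD.M_U4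
import Pool.Agent.Helper31.VD.M_K9
import Pool.Agent.Helper42.VD.M_E1
import Pool.Agent.Helper99.VD.M_E2
import Pool.Agent.Helper31.VD.M_E3
import Pool.Agent.Helper55.VD.M_E4
import Pool.Agent.Helper38.VD.M_E7
import Pool.Agent.Helper47.VD.M_X0
import Pool.Agent.Helper63.VD.M_X1
import Pool.Agent.Helper83.VD.M_M2
import Pool.Agent.Helper52.VD.M_M3
import Pool.Agent.Helper32.VD.M_F5
import Pool.Agent.Helper83.VD.M_X2
import Pool.Agent.Helper68.VD.M_X3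
import Pool.Agent.Helper47.VD.M_X4
import Pool.Agent.Helper31.VD.M_M4
import Pool.Agent.Helper52.VD.M_M6
import Pool.Agent.Helper83.VD.M_F4
import Pool.Agent.Helper56.VD.M_F0
import Pool.Agent.Helper56.VD.M_F1
import Pool.Agent.Helper79.VD.M_F2
import Pool.Agent.Helper56.VD.M_F3
import Pool.Agent.Helper25.VD.M_K4
import Pool.Agent.Helper79.VD.M_F6
import Pool.Agent.Helper77.VD.M_E5
import Pool.Agent.Helper37.VD.M_E6
import Pool.Agent.Helper50.VD.M_F7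
import Pool.Agent.Helper50.VD.M_Final

/-! # MP_22dedb_an : assembly of all modules -/

namespace VD.All

theorem pK0 : StK0 := mK0 
theorem pK1 : StK1 := mK1 
theorem pK2 : StK2 := mK2 pK0 pK1
theorem pP0 : StP0 := mP0 
theorem pK5 : StK5 := mK5 pK0
theorem pK6 : StK6 := mK6 pK2 pK5
theorem pM0 : StM0 := mM0 
theorem pM1 : StM1 := mM1 pK0 pK1 pK2
theorem pM5 : StM5 := mM5 pK0 pK1 pK2 pM0 pM1
theorem pK7 : StK7 := mK7 pM5
theorem pP1a : StP1a := mP1a 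
theorem pP1b : StP1b := mP1b pK0 pK1 pK2 pP0
theorem pP1 : StP1 := mP1 pP1a pP1b
theorem pP2b : StP2b := mP2b pK0 pK1 pK2 pP0
theorem pP2 : StP2 := mP2 pP2b
theorem pP3a : StP3a := mP3a 
theorem pP3 : StP3 := mP3 pP3a
theorem pP4 : StP4 := mP4 pK6 pK7 pP0 pP1 pP3
theorem pP5 : StP5 := mP5 pK6 pK7 pP0 pP1 pP2 pP3 pP4
theorem pU1 : StU1 := mU1 pK0 pK1 pK2 pK5 pP0 pP5
theorem pU2 : StU2 := mU2 pK1 pK2 pP0
theorem pW3 : StW3 := mW3 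
theorem pW1 : StW1 := mW1 
theorem pW2 : StW2 := mW2 
theorem pA1 : StA1 := mA1 pP0
theorem pA3 : StA3 := mA3 pP0
theorem pW4a : StW4a := mW4a pW1 pW2 pA1 pA3 pP0
theorem pW4 : StW4 := mW4 pK0 pK1 pK2 pP0 pU1 pU2 pW3 pW4a pA1
theorem pK3 : StK3 := mK3 pK0 pK1 pK2
theorem pU0 : StU0 := mU0 pK0 pK2 pK3 pK5 pP0
theorem pW5 : StW5 := mW5 pU1 pU2 pW4
theorem pR1 : StR1 := mR1 pK0 pK1 pK2 pK3 pK5
theorem pK1b : StK1b := mK1b 
theorem pR3 : StR3 := mR3 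
theorem pK1c : StK1c := mK1c 
theorem pR2 : StR2 := mR2 pK1
theorem pR4 : StR4 := mR4 pK1 pK1c pR2
theorem pR5 : StR5 := mR5 pK0 pK1 pK1b pK2 pK3 pK5 pR3 pR4
theorem pR6 : StR6 := mR6 pP0 pK5 pR1 pR5
theorem pT1 : StT1 := mT1 
theorem pT2 : StT2 := mT2 pP0 pT1
theorem pA2 : StA2 := mA2 pP0
theorem pT4 : StT4 := mT4 
theorem pT3a : StT3a := mT3a pK1 pW1 pA2 pA3 pT4 pP0
theorem pT3 : StT3 := mT3 pK0 pK1 pK2 pP0 pU1 pT2 pT3a
theorem pC1 : StC1 := mC1 pK1 pP0 pW1 pA3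
theorem pC2 : StC2 := mC2 pP0 pT2 pT4 pC1
theorem pC3 : StC3 := mC3 pK0 pK1 pK2 pP0 pU1 pC1 pC2
theorem pU3 : StU3 := mU3 pU1 pW5 pR6 pT3 pC3
theorem pC4 : StC4 := mC4 pK0 pK1 pK2 pP0 pC1 pC2
theorem pU4 : StU4 := mU4 pK2 pK3 pK5 pP0 pP5 pU0 pU3 pC1 pC4
theorem pK9 : StK9 := mK9 pK0 pK1 pK2
theorem pE1 : StE1 := mE1 
theorem pE2 : StE2 := mE2 pE1
theorem pE3 : StE3 := mE3 pK0
theorem pE4 : StE4 := mE4 pK0 pE2 pE3
theorem pE7 : StE7 := mE7 pK9 pE4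
theorem pX0 : StX0 := mX0 
theorem pX1 : StX1 := mX1 pK0 pK1 pK2 pK9 pE7 pX0
theorem pM2 : StM2 := mM2 
theorem pM3 : StM3 := mM3 pK0 pK1 pK2 pM0 pM1 pM2
theorem pF5 : StF5 := mF5 pK1 pK2 pK6 pK7 pK9
theorem pX2 : StX2 := mX2 pK0 pK1 pK2 pK5 pK9
theorem pX3 : StX3 := mX3 pK2 pK5
theorem pX4 : StX4 := mX4 pK5 pX2 pX3
theorem pM4 : StM4 := mM4 pM0
theorem pM6 : StM6 := mM6 pM3 pM4 pM5
theorem pF4 : StF4 := mF4 pK0 pK1 pK2 pK3 pK5 pK9 pX1 pX4 pM6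
theorem pF0 : StF0 := mF0 pK0 pK1 pK2
theorem pF1 : StF1 := mF1 pF0
theorem pF2 : StF2 := mF2 pX0
theorem pF3 : StF3 := mF3 pK0 pK1 pK2 pK9 pE7 pF0 pF1 pF2
theorem pK4 : StK4 := mK4 pK0 pK1 pK2
theorem pF6 : StF6 := mF6 pK0 pK1 pK2 pK3 pK4 pK5 pK9 pX1 pX4 pM6
theorem pE5 : StE5 := mE5 pK0 pK9 pE3 pE4
theorem pE6 : StE6 := mE6 pK0 pK1 pK2 pK9
theorem pF7 : StF7 := mF7 pK5 pK9 pE6 pF3 pF4 pF5 pF6
theorem pFinal : StFinal := mFinal pK5 pK9 pU4 pE5 pE6 pF6 pF7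

end VD.All
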