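import Mathlib

/-!
# Vortex dipole patches: velocity, energy, the classes K_mu and S_mu
-/

open MeasureTheory Set
open scoped ENNReal

noncomputable section

namespace VD

/-- open upper half plane -/
def Om : Set (ℝ × ℝ) := {z | 0 < z.2}

/-- Biot–Savart kernel -/
def kBS (x : ℝ × ℝ) : ℝ × ℝ :=
  (-x.2 / (2 * Real.pi * (x.1 ^ 2 + x.2 ^ 2)), x.1 / (2 * Real.pi * (x.1 ^ 2 + x.2 ^ 2)))

/-- velocity k * ω -/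
def vel (ω : ℝ × ℝ → ℝ) (x : ℝ × ℝ) : ℝ × ℝ := ∫ y, ω y • kBS (x - y)

/-- kinetic energy 1/4 ∫ |u|² -/
def Energy (ω : ℝ × ℝ → ℝ) : ℝ≥0∞ :=
  (∫⁻ x, ENNReal.ofReal ((vel ω x).1 ^ 2 + (vel ω x).2 ^ 2)) / 4

/-- the patch 1_A - 1_{A_-} -/
def patch (A : Set (ℝ × ℝ)) (x : ℝ × ℝ) : ℝ :=
  A.indicator (fun _ => (1 : ℝ)) x - A.indicator (fun _ => (1 : ℝ)) (x.1, -x.2)

/-- the class K_μ -/
def InK (μ : ℝ) (ω : ℝ × ℝ → ℝ) : Prop :=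
  (∃ A, MeasurableSet A ∧ A ⊆ Om ∧ ω =ᵐ[volume] patch A) ∧
  Integrable (fun x : ℝ × ℝ => x.2 * ω x) ∧ ∫ x : ℝ × ℝ, x.2 * ω x = μ ∧
  ∫⁻ x : ℝ × ℝ, ‖ω x‖ₑ ≤ 1

/-- the maximisers S_μ -/
def InS (μ : ℝ) (ω : ℝ × ℝ → ℝ) : Prop :=
  InK μ ω ∧ ∀ ω', InK μ ω' → Energy ω' ≤ Energy ω

end VD
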