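import Pool.Agent.Helper50.VD.Poly

/-!
# Kernel evaluable lower bounds: row sums (wide contacts)
Lengths are multiplied by 100 (the polygon has integer vertices, see Es).
-/

namespace VD


/-- 100 l_B(s/100) rounded down -/
def xIn (s : ℕ) : List (ℕ × ℕ × ℕ) → ℕ
  | [] => 647500
  | (dh, dx, c) :: l => mn (Nat.div (Nat.sub (Nat.mul 100 c) (Nat.mul dx s)) dh) (xIn s l)

/-- 100 ρ l_B(s/(100 ρ)) rounded up, ρ = R/10000 -/
def xOut (R s : ℕ) : List (ℕ × ℕ × ℕ) → ℕ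
  | [] => 647500
  | (dh, dx, c) :: l =>
    mn (Nat.div (Nat.add (Nat.sub (Nat.mul R c) (Nat.mul (Nat.mul 100 dx) s)) (Nat.sub (Nat.mul 100 dh) 1)) (Nat.mul 100 dh)) (xOut R s l)

/-- lower bound of 10^18 ∫_a^b (1/V₋ + 1/V₊), V± = n + s² ± 2 z y + y² (Jensen), ns = n + s² -/
def fj (z ns a b : ℕ) : ℕ :=
  Nat.add (Nat.div (Nat.mul (Nat.sub b a) 3000000000000000000) (Nat.sub (Nat.add (Nat.add (Nat.add (Nat.mul a a) (Nat.mul a b)) (Nat.mul b b)) (Nat.mul 3 ns)) (Nat.mul (Nat.mul 3 z) (Nat.add a b)))) (Nat.div (Nat.mul (Nat.sub b a) 3000000000000000000) (Nat.add (Nat.add (Nat.add (Nat.add (Nat.mul a a) (Nat.mul a b)) (Nat.mul b b)) (Nat.mul 3 ns)) (Nat.mul (Nat.mul 3 z) (Nat.add a b))))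

/-- lower bound of 10^18 (b-a) (1/V₋ + 1/V₊) on [a,b], pointwise -/
def fp (z ns a b : ℕ) : ℕ :=
  Nat.add (Nat.div (Nat.mul (Nat.sub b a) 1000000000000000000) (mx (Nat.sub (Nat.add ns (Nat.mul a a)) (Nat.mul (Nat.mul 2 z) a)) (Nat.sub (Nat.add ns (Nat.mul b b)) (Nat.mul (Nat.mul 2 z) b)))) (Nat.div (Nat.mul (Nat.sub b a) 1000000000000000000) (Nat.add (Nat.add ns (Nat.mul b b)) (Nat.mul (Nat.mul 2 z) b)))

/-- data of the four extreme points: (xP, nP), tip, (0, yT²), (xT, xT²) -/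
structure Pts where
  xP : ℕ
  nP : ℕ
  yT : ℕ
  xT : ℕ

def cP (p : Pts) (s2 a b : ℕ) : ℕ := mn (fj p.xP (Nat.add p.nP s2) a b) (fj 647500 (Nat.add 419256250000 s2) a b)
def cQ (p : Pts) (s2 a b : ℕ) : ℕ := mn (fj 0 (Nat.add (Nat.mul p.yT p.yT) s2) a b) (fj p.xT (Nat.add (Nat.mul p.xT p.xT) s2) a b)
def cR (p : Pts) (s2 a b : ℕ) : ℕ :=
  mn (mn (fp p.xP (Nat.add p.nP s2) a b) (fp 647500 (Nat.add 419256250000 s2) a b))
    (mn (fp 0 (Nat.add (Nat.mul p.yT p.yT) s2) a b) (fp p.xT (Nat.add (Nat.mul p.xT p.xT) s2) a b))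

/-- cell boundary -/
def bd (x0 w i : ℕ) : ℕ := Nat.add x0 (Nat.div (Nat.mul w i) 16)

/-- (sufP, best) over the cells i, i+1, …, 15 (k = 16 - i);
lim: cells starting right of lim cannot contain the end of the row of A -/
def dp (p : Pts) (s2 x0 w lim : ℕ) : ℕ → ℕ × ℕ
  | 0 => (0, 0)
  | k + 1 =>
    match dp p s2 x0 w lim k with
    | (sp, b) =>
      (Nat.add (cP p s2 (bd x0 w (Nat.sub 15 k)) (bd x0 w (Nat.sub 16 k))) sp,
       cond (Nat.ble (bd x0 w (Nat.sub 15 k)) lim)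
        (mn (Nat.add (cP p s2 (bd x0 w (Nat.sub 15 k)) (bd x0 w (Nat.sub 16 k))) sp)
          (mn (Nat.add (cR p s2 (bd x0 w (Nat.sub 15 k)) (bd x0 w (Nat.sub 16 k))) sp)
            (Nat.add (cQ p s2 (bd x0 w (Nat.sub 15 k)) (bd x0 w (Nat.sub 16 k))) b)))
        (Nat.add (cP p s2 (bd x0 w (Nat.sub 15 k)) (bd x0 w (Nat.sub 16 k))) sp))

/-- value of one row s ∈ [s0, s1] : lower bound of 10^18 ∫ (kernels) along the row -/
def rowV (p : Pts) (x0 xn s0 s1 : ℕ) : ℕ :=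
  cond (Nat.ble xn x0) 0
    (dp p (Nat.mul s1 s1) x0 (Nat.sub xn x0) (cond (Nat.ble p.yT s0) p.xT 1000000) 16).2

def row (p : Pts) (x0 xn s0 s1 : ℕ) : ℕ := Nat.mul (Nat.sub (Nat.mul s1 s1) (Nat.mul s0 s0)) (rowV p x0 xn s0 s1)

/-- sum over the rows j, …, 79 (k = 80 - j) -/
def rows (p : Pts) (R : ℕ) : ℕ → ℕ
  | 0 => 0
  | k + 1 =>
    Nat.add (row p (xOut R (Nat.div (Nat.mul 388700 (Nat.sub 79 k)) 80) Es) (xIn (Nat.div (Nat.mul 388700 (Nat.sub 80 k)) 80) Es) (Nat.div (Nat.mul 388700 (Nat.sub 79 k)) 80) (Nat.div (Nat.mul 388700 (Nat.sub 80 k)) 80)) (rows p R k)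

/-- height bound ≥ 100 ρ H -/
def yTop (R : ℕ) : ℕ := Nat.div (Nat.add (Nat.mul R 3887) 99) 100
/-- ≥ 100 ρ L -/
def xTip (R : ℕ) : ℕ := Nat.div (Nat.add (Nat.mul R 6475) 99) 100

def mkPts (R : ℕ) : Pts :=
  ⟨xIn (yTop R) Es, Nat.add (Nat.mul (Nat.add (xIn (yTop R) Es) 1) (Nat.add (xIn (yTop R) Es) 1)) (Nat.mul (yTop R) (yTop R)), yTop R, xTip R⟩

/-- vertices below yT satisfy the chord inequality -/
def arcOk (p : Pts) : List (ℕ × ℕ) → Bool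
  | [] => true
  | (x, h) :: l =>
    (Nat.ble (Nat.add p.yT 1) (Nat.mul 100 h) ||
     Nat.ble (Nat.mul (Nat.mul 10000 (Nat.add (Nat.mul x x) (Nat.mul h h))) (Nat.sub 419256250000 (Nat.mul p.xP p.xP)))
      (Nat.add (Nat.mul p.nP (Nat.sub 419256250000 (Nat.mul (Nat.mul 10000 x) x))) (Nat.mul 419256250000 (Nat.sub (Nat.mul (Nat.mul 10000 x) x) (Nat.mul p.xP p.xP)))))
    && arcOk p l

/-- the check for ρ ∈ [R0, R1]/10000 -/
def chkW (R1 R0 : ℕ) : Bool :=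
  arcOk (mkPts R1) Vs && Nat.ble (mkPts R1).nP 419256250000 && Nat.ble R1 10000 && Nat.ble 1 R0 &&
  Nat.ble (Nat.add (Nat.mul (Nat.sub 10060000 (Nat.mul 994 R0)) 628320000000000000000) 1)
    (Nat.mul (rows (mkPts R1) R1 80) 10000)

end VD
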