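import Pool.Agent.Helper50.VD.Poly

/-!
# Kernel evaluable lower bounds: sector sums (tall contacts, close contacts)
-/

namespace VD


/-- K times the points dividing each side into K parts -/
def subd (K : ℕ) (x0 h0 x1 h1 : ℕ) : ℕ → List (ℕ × ℕ)
  | 0 => []
  | k + 1 => (Nat.add (Nat.mul (Nat.add k 1) x0) (Nat.mul (Nat.sub K (Nat.add k 1)) x1), Nat.add (Nat.mul (Nat.add k 1) h0) (Nat.mul (Nat.sub K (Nat.add k 1)) h1))
      :: subd K x0 h0 x1 h1 k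

def refine (K : ℕ) : List (ℕ × ℕ) → List (ℕ × ℕ)
  | (x0, h0) :: (x1, h1) :: l => subd K x0 h0 x1 h1 K ++ refine K ((x1, h1) :: l)
  | [(x, h)] => [(Nat.mul K x, Nat.mul K h)]
  | [] => []

/-- squared distance bound (max over the corners of the cell) of n - 2 z x + x² + y² -/
def vmx (z n ax ay bx by' s0 s1 : ℕ) : ℕ :=
  mx (mx (Nat.sub (Nat.add (Nat.add n (Nat.mul (Nat.mul s0 ax) (Nat.mul s0 ax))) (Nat.mul (Nat.mul s0 ay) (Nat.mul s0 ay))) (Nat.mul (Nat.mul 2 z) (Nat.mul s0 ax)))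
         (Nat.sub (Nat.add (Nat.add n (Nat.mul (Nat.mul s1 ax) (Nat.mul s1 ax))) (Nat.mul (Nat.mul s1 ay) (Nat.mul s1 ay))) (Nat.mul (Nat.mul 2 z) (Nat.mul s1 ax))))
     (mx (Nat.sub (Nat.add (Nat.add n (Nat.mul (Nat.mul s0 bx) (Nat.mul s0 bx))) (Nat.mul (Nat.mul s0 by') (Nat.mul s0 by'))) (Nat.mul (Nat.mul 2 z) (Nat.mul s0 bx)))
         (Nat.sub (Nat.add (Nat.add n (Nat.mul (Nat.mul s1 bx) (Nat.mul s1 bx))) (Nat.mul (Nat.mul s1 by') (Nat.mul s1 by'))) (Nat.mul (Nat.mul 2 z) (Nat.mul s1 bx))))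

/-- same with the plus sign; a = (ax, ay) is left of and above b -/
def vpx (z n ax ay bx by' s1 : ℕ) : ℕ :=
  mx (Nat.add (Nat.add (Nat.add n (Nat.mul (Nat.mul s1 ax) (Nat.mul s1 ax))) (Nat.mul (Nat.mul s1 ay) (Nat.mul s1 ay))) (Nat.mul (Nat.mul 2 z) (Nat.mul s1 ax)))
     (Nat.add (Nat.add (Nat.add n (Nat.mul (Nat.mul s1 bx) (Nat.mul s1 bx))) (Nat.mul (Nat.mul s1 by') (Nat.mul s1 by'))) (Nat.mul (Nat.mul 2 z) (Nat.mul s1 bx)))

/-- lower bound of 10^30 (1/V₋ + 1/V₊) on the cell -/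
def fc2 (z n ax ay bx by' s0 s1 : ℕ) : ℕ :=
  Nat.add (Nat.div 1000000000000000000000000000000 (vmx z n ax ay bx by' s0 s1)) (Nat.div 1000000000000000000000000000000 (vpx z n ax ay bx by' s1))

/-- add the correction f + (z₂ y₂)² f³ / 3; zy = z₂ y₂, f scaled by 10^30 -/
def corr (f zy : ℕ) : ℕ :=
  Nat.add f (Nat.div (Nat.mul (Nat.mul f (Nat.div (Nat.mul zy f) 1000000000000000000000)) (Nat.div (Nat.mul zy f) 1000000000000000000000)) 3000000000000000000)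

/-- extreme points for the tall case -/
structure PtsT where
  xT : ℕ
  yT : ℕ
  n0 : ℕ
  n1 : ℕ
  zl : ℕ

/-- kernel bound on one cell; all lengths in units 1/80000 -/
def cellT (p : PtsT) (ax ay bx by' s0 s1 : ℕ) : ℕ :=
  mn (corr (mn (fc2 0 p.n0 ax ay bx by' s0 s1) (fc2 p.xT p.n1 ax ay bx by' s0 s1)) (Nat.mul p.zl (Nat.mul s0 by')))
     (mn (fc2 0 (Nat.mul p.yT p.yT) ax ay bx by' s0 s1) (fc2 p.xT (Nat.mul p.xT p.xT) ax ay bx by' s0 s1))

/-- sum over the sectors of one slab, weights cross * (h + h') -/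
def slab (p : PtsT) (s0 s1 : ℕ) : List (ℕ × ℕ) → ℕ
  | (ax, ay) :: (bx, by') :: l =>
    Nat.add (Nat.mul (Nat.mul (Nat.sub (Nat.mul bx ay) (Nat.mul ax by')) (Nat.add ay by')) (cellT p ax ay bx by' s0 s1)) (slab p s0 s1 ((bx, by') :: l))
  | _ => 0

/-- slab boundaries, units 1/10000 -/
def sg (R k : ℕ) : ℕ := Nat.div (Nat.add (Nat.mul R (Nat.sub 16 k)) (Nat.mul 10000 k)) 16

/-- sum over all slabs k, …, 15 -/
def slabs (p : PtsT) (R : ℕ) (Q : List (ℕ × ℕ)) : ℕ → ℕ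
  | 0 => 0
  | k + 1 =>
    Nat.add (Nat.mul (Nat.sub (Nat.mul (Nat.mul (sg R (Nat.sub 16 k)) (sg R (Nat.sub 16 k))) (sg R (Nat.sub 16 k))) (Nat.mul (Nat.mul (sg R (Nat.sub 15 k)) (sg R (Nat.sub 15 k))) (sg R (Nat.sub 15 k)))) (slab p (sg R (Nat.sub 15 k)) (sg R (Nat.sub 16 k)) Q)) (slabs p R Q k)

/-- max of the violations of the chord inequality by the vertices left of x (units 1/80000) -/
def viol (x2 n0 n1 : ℕ) : List (ℕ × ℕ) → ℕ
  | [] => 0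
  | (x, h) :: l =>
    mx (cond (Nat.ble (Nat.mul (Nat.mul 6400000000 x) x) x2)
      (Nat.div (Nat.add (Nat.sub (Nat.sub (Nat.mul (Nat.mul 6400000000 (Nat.add (Nat.mul x x) (Nat.mul h h))) x2) (Nat.mul n0 (Nat.sub x2 (Nat.mul (Nat.mul 6400000000 x) x)))) (Nat.mul n1 (Nat.mul (Nat.mul 6400000000 x) x))) (Nat.sub x2 1)) x2) 0) (viol x2 n0 n1 l)

/-- ⌊80000 h_B(x/80000)⌋ -/
def hIn (x : ℕ) : List (ℕ × ℕ × ℕ) → ℕ
  | [] => 310960000
  | (dh, dx, c) :: l => mn (Nat.div (Nat.sub (Nat.mul 80000 c) (Nat.mul dh x)) dx) (hIn x l)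

def mkT (R : ℕ) : PtsT :=
  let xT := 8 * R * 6475
  let yT := 8 * R * 3887
  let zl := hIn xT Es
  let n0 := 310960000 * 310960000
  let n1 := xT * xT + (zl + 1) * (zl + 1)
  let e := viol (xT * xT) n0 n1 Vs
  ⟨xT, yT, n0 + e, n1 + e, zl⟩

/-- the check for ρ ∈ [R0, R1]/10000 (tall contacts) -/
def chkT (R1 R0 : ℕ) : Bool :=
  Nat.ble (mkT R1).n0 (mkT R1).n1 && Nat.ble R1 10000 && Nat.ble 1 R0 &&
  Nat.ble (Nat.add (Nat.mul (Nat.sub 10060000 (Nat.mul 994 R0)) 150800000000000000000000000000000) 1)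
    (slabs (mkT R1) R1 (refine 8 Vs) 16)

/-! ## close contacts: m = min (tip, top) -/

/-- kernel bound on one cell; lengths in units 1/1000 -/
def cellC (ax ay bx by' s0 s1 : ℕ) : ℕ :=
  mn (fc2 0 (Nat.mul 3887000 3887000) ax ay bx by' s0 s1) (fc2 6475000 (Nat.mul 6475000 6475000) ax ay bx by' s0 s1)

def slabC (s0 s1 : ℕ) : List (ℕ × ℕ) → ℕ
  | (ax, ay) :: (bx, by') :: l =>
    Nat.add (Nat.mul (Nat.mul (Nat.sub (Nat.mul bx ay) (Nat.mul ax by')) (Nat.add ay by')) (cellC ax ay bx by' s0 s1)) (slabC s0 s1 ((bx, by') :: l))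
  | _ => 0

/-- slab [s, s+1]/100 -/
def slC (s : ℕ) : ℕ :=
  Nat.mul (Nat.sub (Nat.mul (Nat.mul (Nat.add s 1) (Nat.add s 1)) (Nat.add s 1)) (Nat.mul (Nat.mul s s) s)) (slabC s (Nat.add s 1) (refine 10 Vs))

/-- close contacts: given the values J of the slabs s, s+1, …, 99 (a table), check the nodes -/
def chkC (J : List ℕ) : Bool :=
  (List.range 30).all fun i => Nat.ble (J.getD i 0) (slC (Nat.add 70 i))

/-- sum of the table from i on -/
def sufJ (J : List ℕ) (i : ℕ) : ℕ := (J.drop i).sum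

/-- ρ = s/100, 76 ≤ s ≤ 93 : J(ρ) > 1006 - 994 ρ -/
def chk3 (J : List ℕ) : Bool :=
  (List.range 18).all fun i =>
    Nat.ble ((100600 - 994 * (76 + i)) * 188500000000000000000000000000000 + 1) (sufJ J (6 + i))

/-- two solutions, τ = 93/100, nodes 80 ≤ s ≤ 92 -/
def chk4 (J : List ℕ) : Bool :=
  (List.range 13).all fun i =>
    Nat.ble ((13 - i) * 1006 * 18850000000000000000000000000000000 + 1)
      (93 * (sufJ J (10 + i) - sufJ J 23) + (13 - i) * sufJ J 23)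

end VD
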