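import Pool.Agent.Helper50.VD.Num
import Pool.Agent.Helper50.VD.Row
import Pool.Agent.Helper50.VD.Sec
import Pool.Agent.Helper50.VD.Core

/-!
# MP_22dedb_an : definitions
Om is the open upper half plane, N z y = G z y / z.2 the kernel of the relative stream
function phi A z = ψ_A(z) / z.2, nu the impulse measure y.2 dy.
-/

open MeasureTheory Set Filter Topology
open scoped ENNReal

noncomputable section

namespace VD

/-! ## sets -/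

/-- dilation by r about the origin -/
def dil (r : ℝ) (A : Set (ℝ × ℝ)) : Set (ℝ × ℝ) := {z | (z.1 / r, z.2 / r) ∈ A}

/-- horizontal translation by τ -/
def sh (τ : ℝ) (A : Set (ℝ × ℝ)) : Set (ℝ × ℝ) := {z | (z.1 - τ, z.2) ∈ A}

/-- reflection in the vertical line x₁ = l -/
def rfl' (l : ℝ) (z : ℝ × ℝ) : ℝ × ℝ := (2 * l - z.1, z.2)

/-- the box [-n, n] × (0, n] -/
def Box (n : ℝ) : Set (ℝ × ℝ) := {z | |z.1| ≤ n ∧ 0 < z.2 ∧ z.2 ≤ n}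

/-- doubly monotone sets -/
structure DM (A : Set (ℝ × ℝ)) : Prop where
  meas : MeasurableSet A
  sub : A ⊆ Om
  bdd : ∃ R : ℝ, A ⊆ Box R
  mono : ∀ z ∈ A, ∀ w : ℝ × ℝ, 0 < w.2 → |w.1| ≤ |z.1| → w.2 ≤ z.2 → w ∈ A

/-! ## kernels -/

/-- Green's function of the half plane (times 1/2): ψ(z) = ∫ G(z,y) ω(y) dy with
G = (1/4π) log (|z - y*|² / |z - y|²) -/
def G (z y : ℝ × ℝ) : ℝ :=
  Real.log (((z.1 - y.1) ^ 2 + (z.2 + y.2) ^ 2) / ((z.1 - y.1) ^ 2 + (z.2 - y.2) ^ 2)) /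
    (4 * Real.pi)

/-- G z y / z.2, extended continuously to z.2 = 0 -/
def N (z y : ℝ × ℝ) : ℝ :=
  if z.2 = 0 then y.2 / (Real.pi * ((z.1 - y.1) ^ 2 + y.2 ^ 2)) else G z y / z.2

/-- relative stream function of the patch A -/
def phi (A : Set (ℝ × ℝ)) (z : ℝ × ℝ) : ℝ := ∫ y in A, N z y

/-- impulse measure y.2 dy -/
def nu : Measure (ℝ × ℝ) := volume.withDensity fun y => ENNReal.ofReal y.2

/-- the bilinear form ∬_{A × C} G = ∫_A z.2 φ_C(z) dz -/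
def BG (A C : Set (ℝ × ℝ)) : ℝ := ∫ z in A, z.2 * phi C z

/-- solutions of the steady problem with γ = 0: A = {φ_A > W}, doubly monotone -/
structure Sol (A : Set (ℝ × ℝ)) (W : ℝ) : Prop where
  dm : DM A
  ne : A.Nonempty
  pos : 0 < W
  iff : ∀ z : ℝ × ℝ, 0 < z.2 → (z ∈ A ↔ W < phi A z)

/-! ## the reference polygon -/

/-- gauge with respect to a list of edges -/
def gE (z : ℝ × ℝ) : List (ℕ × ℕ × ℕ) → ℝ
  | [] => 0
  | (dh, dx, c) :: l => max (((dh : ℝ) * |z.1| + dx * z.2) / c) (gE z l)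

/-- gauge of the polygon -/
def g (z : ℝ × ℝ) : ℝ := gE z Es

/-- the open polygon dilated by r -/
def PB (r : ℝ) : Set (ℝ × ℝ) := {z | 0 < z.2 ∧ g z < r}

/-- contact configuration: A is squeezed between ρ B and B; p is an outer and q an inner
contact point -/
structure Conf (A : Set (ℝ × ℝ)) (ρ : ℝ) (p q : ℝ × ℝ) : Prop where
  dm : DM A
  hρ : 0 < ρ
  hρ1 : ρ ≤ 1
  out : ∀ z ∈ A, g z ≤ 1
  inn : ∀ z : ℝ × ℝ, 0 < z.2 → g z < ρ → z ∈ A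
  p1 : 0 ≤ p.1
  p2 : 0 ≤ p.2
  gp : g p = 1
  pc : p ∈ closure A
  q1 : 0 ≤ q.1
  q2 : 0 ≤ q.2
  gq : g q = ρ
  qc : q ∈ closure (Om \ A)
  le : phi A q ≤ phi A p

/-- value of a list of terms -/
def evL (l : List Tm) : ℝ := (l.map Tm.ev).sum

/-- 1/|z-y|'² + 1/|z-y'|'² where n = |z|², x = z.1 : M = |y|², m = y.1 -/
def fF (n x M m : ℝ) : ℝ := 1 / (n + M - 2 * x * m) + 1 / (n + M + 2 * x * m)

/-- lower bound of both contact kernels -/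
def mk (y : ℝ × ℝ) : ℝ :=
  min (fF (6475 ^ 2) 6475 (y.1 ^ 2 + y.2 ^ 2) y.1) (fF (3887 ^ 2) 0 (y.1 ^ 2 + y.2 ^ 2) y.1) /
    Real.pi

/-- ∫ mk dν over the right half of S -/
def Im (S : Set (ℝ × ℝ)) : ℝ := ∫ y in S ∩ {y | 0 < y.1}, y.2 * mk y

/-- open sector-slab {s Q + t Q' : s, t > 0, a < s + t < b} -/
def sec (Q Q' : ℝ × ℝ) (a b : ℝ) : Set (ℝ × ℝ) :=
  {y | ∃ s t : ℝ, 0 < s ∧ 0 < t ∧ a < s + t ∧ s + t < b ∧
    y.1 = s * Q.1 + t * Q'.1 ∧ y.2 = s * Q.2 + t * Q'.2}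

/-! ## maximisers -/

/-- admissible sets in D with impulse c and mass at most m -/
def Cls (D : Set (ℝ × ℝ)) (c m : ℝ≥0∞) (A : Set (ℝ × ℝ)) : Prop :=
  MeasurableSet A ∧ A ⊆ D ∧ nu A = c ∧ volume A ≤ m

/-- maximisers -/
def IsMx (D : Set (ℝ × ℝ)) (c m : ℝ≥0∞) (A : Set (ℝ × ℝ)) : Prop :=
  Cls D c m A ∧ ∀ A', Cls D c m A' → BG A' A' ≤ BG A A

/-- odd symmetrised Biot–Savart kernel -/
def kap (y x : ℝ × ℝ) : ℝ × ℝ := kBS (x - y) - kBS (x - (y.1, -y.2))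

/-- velocity of the patch A -/
def vA (A : Set (ℝ × ℝ)) (x : ℝ × ℝ) : ℝ × ℝ := ∫ y in A, kap y x

/-! ## four dimensional picture -/

abbrev E3 := EuclideanSpace ℝ (Fin 3)

/-- (x₁, x') ↦ (x₁, |x'|) -/
def rad (X : ℝ × E3) : ℝ × ℝ := (X.1, ‖X.2‖)

/-- squared distance -/
def qd (X Y : ℝ × E3) : ℝ := (X.1 - Y.1) ^ 2 + ‖X.2 - Y.2‖ ^ 2

/-- unit vector -/
def e0 : E3 := EuclideanSpace.single 0 1

/-- reflection in the plane ⟨x', e₀⟩ = l -/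
def rf (l : ℝ) (X : ℝ × E3) : ℝ × E3 := (X.1, X.2 + (2 * (l - X.2 0)) • e0)

/-- the part of rad ⁻¹' A beyond the plane whose mirror image is outside -/
def Dset (A : Set (ℝ × ℝ)) (l : ℝ) : Set (ℝ × E3) :=
  {X | l < X.2 0 ∧ rad X ∈ A ∧ rad (rf l X) ∉ A}

end VD
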