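import Pool.Agent.Helper50.VD.St

/-! # F7 : existence of an unconstrained maximiser -/

open MeasureTheory Set Filter Topology
open scoped ENNReal

noncomputable section

namespace VD.M_F7

theorem dil_Box (r : ℝ) (hr : 0 < r) : dil r (Box 1) = Box r := by
  ext z
  simp only [dil, Box, Set.mem_setOf_eq, abs_div, abs_of_pos hr]
  rw [div_le_one hr, div_le_one hr]
  constructor
  · rintro ⟨h1, h2, h3⟩
    refine ⟨h1, ?_, h3⟩
    have := mul_pos h2 hr
    rwa [div_mul_cancel₀ _ hr.ne'] at this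
  · rintro ⟨h1, h2, h3⟩
    exact ⟨h1, div_pos h2 hr, h3⟩

theorem vol_Box_pos : 0 < volume (Box 1) := by
  rw [volume_Box 1 (by norm_num)]
  simp

theorem exists_big (hK5 : StK5) (c : ℝ≥0∞) (hc : c ≠ ∞) : ∃ n : ℝ, 0 < n ∧ c < nu (Box n) := by
  have h1 : 0 < nu (Box 1) := (nu_pos_iff (measurableSet_Box 1) (Box_subset_Om 1)).mpr vol_Box_pos
  have h2 : nu (Box 1) < ∞ := nu_lt_top (le_refl _)
  have h3 : 0 < (nu (Box 1)).toReal := ENNReal.toReal_pos h1.ne' h2.ne
  set r : ℝ := c.toReal / (nu (Box 1)).toReal + 1 with hr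
  have hr1 : 1 ≤ r := by
    have : 0 ≤ c.toReal / (nu (Box 1)).toReal := by positivity
    linarith
  have hr0 : 0 < r := by linarith
  refine ⟨r, hr0, ?_⟩
  have e := (hK5.1 (Box 1) r (measurableSet_Box 1) (Box_subset_Om 1) hr0).2.1
  rw [dil_Box r hr0] at e
  rw [e, ← ENNReal.ofReal_toReal hc, ← ENNReal.ofReal_toReal h2.ne,
    ← ENNReal.ofReal_mul (by positivity)]
  rw [ENNReal.ofReal_lt_ofReal_iff (by positivity)]
  have e2 : r ≤ r ^ 3 := by nlinarith [sq_nonneg r]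
  have e3 : c.toReal < r * (nu (Box 1)).toReal := by
    rw [hr, add_mul, div_mul_cancel₀ _ h3.ne']
    linarith
  refine e3.trans_le ?_
  exact mul_le_mul_of_nonneg_right e2 h3.le

theorem BG_pos (hK9 : StK9) {n W : ℝ} {A : Set (ℝ × ℝ)} (h : BSol n A W) (hn : nu A ≠ 0) :
    0 < BG A A := by
  obtain ⟨hdm, hsub, hW, hiff⟩ := h
  have hi := (hK9.1 A A hdm.meas hdm.meas hdm.sub hdm.sub hdm.vol hdm.vol hdm.nu hdm.nu).1
  have h1 : ∫ z in A, z.2 * W ≤ BG A A := by
    apply setIntegral_mono_on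
    · -- integrability of z.2 * W
      have h2 : IntegrableOn (fun z : ℝ × ℝ => z.2) A := by
        refine ⟨measurable_snd.aestronglyMeasurable, ?_⟩
        rw [hasFiniteIntegral_iff_enorm]
        have h3 : ∫⁻ z in A, ‖z.2‖ₑ = nu A := by
          rw [nu_apply hdm.meas]
          apply setLIntegral_congr_fun hdm.meas
          intro z hz
          show ‖z.2‖ₑ = ENNReal.ofReal z.2
          rw [Real.enorm_eq_ofReal (le_of_lt (show (0 : ℝ) < z.2 from hdm.sub hz))]
        rw [h3]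
        exact hdm.nu
      exact h2.mul_const W
    · exact hi
    · exact hdm.meas
    · intro z hz
      exact mul_le_mul_of_nonneg_left (((hiff z (hsub hz)).mp hz).le)
        (le_of_lt (show (0 : ℝ) < z.2 from hdm.sub hz))
  have h2 : ∫ z in A, z.2 * W = (nu A).toReal * W := by
    rw [integral_mul_const]
    congr 1
    rw [integral_eq_lintegral_of_nonneg_ae]
    · rw [nu_apply hdm.meas]
    · rw [EventuallyLE, ae_restrict_iff' hdm.meas]
      filter_upwards with z hz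
      exact le_of_lt (show (0 : ℝ) < z.2 from hdm.sub hz)
    · exact measurable_snd.aestronglyMeasurable
  have h3 : 0 < (nu A).toReal := ENNReal.toReal_pos hn hdm.nu.ne
  rw [h2] at h1
  exact lt_of_lt_of_le (mul_pos h3 hW) h1

end VD.M_F7

namespace VD

open M_F7

theorem mF7 (hK5 : StK5) (hK9 : StK9) (hE6 : StE6) (hF3 : StF3) (hF4 : StF4) (hF5 : StF5)
    (hF6 : StF6) : StF7 := by
  intro c hc hc'
  obtain ⟨n0, hn0, hcn⟩ := exists_big hK5 c hc'
  have hlt : ∀ n, n0 ≤ n → c < nu (Box n) := fun n hn =>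
    hcn.trans_le (measure_mono (Box_mono hn))
  obtain ⟨A0, hA0⟩ := hF3 n0 c hn0 hcn.le
  obtain ⟨A0', W0, hB0, hnu0, hBG0⟩ := hF4 n0 c A0 hn0 hc hcn hA0
  have hJ : 0 < BG A0 A0 := by
    rw [← hBG0]
    exact BG_pos hK9 hB0 (by rw [hnu0]; exact hc)
  obtain ⟨R, hR, hconf⟩ := hF5 c (BG A0 A0) hc hc' hJ
  set n := max R n0 with hn
  have hnn0 : n0 ≤ n := le_max_right _ _
  have hnR : R ≤ n := le_max_left _ _
  have hn0' : 0 < n := hn0.trans_le hnn0
  obtain ⟨A, hA⟩ := hF3 n c hn0' (hlt n hnn0).le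
  -- admissibility in larger boxes
  have hadm : ∀ (N : ℝ) (C : Set (ℝ × ℝ)), MeasurableSet C → C ⊆ Box N → nu C = c →
      Cls (Box N) c (volume (Box N) + 1) C := by
    intro N C h1 h2 h3
    refine ⟨h1, h2, h3, ?_⟩
    exact (measure_mono h2).trans (le_add_right (le_refl _))
  have key : ∀ N, n ≤ N → ∀ AN, IsMx (Box N) c (volume (Box N) + 1) AN → BG AN AN ≤ BG A A := by
    intro N hN AN hAN
    obtain ⟨A', W, hB, hnu, hBG⟩ := hF4 N c AN (hn0'.trans_le hN) hc (hlt N (hnn0.trans hN)) hAN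
    have h0 : BG A0 A0 ≤ BG A' A' := by
      rw [hBG]
      apply hAN.2
      apply hadm
      · exact hA0.1.1
      · exact hA0.1.2.1.trans (Box_mono (hnn0.trans hN))
      · exact hA0.1.2.2.1
    have h1 := hconf N A' W (hnR.trans hN) hB hnu h0
    rw [← hBG]
    apply hA.2
    apply hadm
    · exact hB.1.meas
    · exact h1.trans (Box_mono hnR)
    · exact hnu
  have hbdd : ∀ C, MeasurableSet C → C ⊆ Om → (∃ N, C ⊆ Box N) → nu C = c → BG C C ≤ BG A A := by
    rintro C h1 - ⟨N, h2⟩ h3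
    obtain ⟨AN, hAN⟩ := hF3 (max N n) c (hn0'.trans_le (le_max_right _ _))
      (hlt _ (hnn0.trans (le_max_right _ _))).le
    refine le_trans ?_ (key (max N n) (le_max_right _ _) AN hAN)
    apply hAN.2
    exact hadm _ _ h1 (h2.trans (Box_mono (le_max_left _ _))) h3
  have hall : ∀ C, MeasurableSet C → C ⊆ Om → volume C < ∞ → nu C = c → BG C C ≤ BG A A := by
    intro C h1 h2 h3 h4
    apply le_of_forall_pos_le_add
    intro ε hε
    obtain ⟨C', g1, g2, g3, g4, g5, g6⟩ := hE6 C h1 h2 h3 (by rw [h4]; exact hc'.lt_top) ε hε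
    have := hbdd C' g1 g2 g3 (g5.trans h4)
    linarith
  have hvA : volume A < ∞ := vol_lt_top hA.1.2.1
  have hmx : IsMx Om c (volume A + 1) A := by
    refine ⟨⟨hA.1.1, hA.1.2.1.trans (Box_subset_Om _), hA.1.2.2.1, le_add_right (le_refl _)⟩, ?_⟩
    rintro C ⟨h1, h2, h3, h4⟩
    exact hall C h1 h2 (h4.trans_lt (ENNReal.add_lt_top.mpr ⟨hvA, ENNReal.one_lt_top⟩)) h3
  obtain ⟨τ, A', W, hS, hae⟩ := hF6 c (volume A + 1) A hc hc'
    (ENNReal.add_lt_top.mpr ⟨hvA, ENNReal.one_lt_top⟩).ne hmx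
    (Or.inl (ENNReal.lt_add_right hvA.ne one_ne_zero))
  obtain ⟨-, g2, -, g4⟩ := hK5.2.1 A' τ hS.dm.meas hS.dm.sub
  refine ⟨A', W, hS, ?_, ?_⟩
  · rw [← g2, ← nu_congr hae]
    exact hA.1.2.2.1
  · intro C h1 h2 h3 h4
    rw [← g4, ← BG_congr hae hae]
    exact hall C h1 h2 h3 h4

end VD
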