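import Pool.Agent.Helper50.VD.Poly

/-!
# Kernel evaluable bounds for sums of logarithms and arctangents
Scale 2^56 = 72057594037927936.
-/

namespace VD


/-- 2^56 -/
abbrev DD : ℕ := 72057594037927936

def serLw (z w : ℕ) : ℕ :=
  Nat.div (Nat.mul (Nat.mul 2 z) (Nat.add 72057594037927936 (Nat.div (Nat.mul w (Nat.add 24019198012642645 (Nat.div (Nat.mul w (Nat.add 14411518807585587 (Nat.div (Nat.mul w (Nat.add 10293942005418276 (Nat.div (Nat.mul w 8006399337547548) 72057594037927936))) 72057594037927936))) 72057594037927936))) 72057594037927936))) 72057594037927936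

/-- ≈ 2^56 * 2 artanh (z/2^56), for z ≤ 2^56/32 -/
def serL (z : ℕ) : ℕ := serLw z (Nat.div (Nat.mul z z) 72057594037927936)

def serAw (y w : ℕ) : ℕ :=
  Nat.div (Nat.mul y (Nat.sub 72057594037927936 (Nat.div (Nat.mul w (Nat.sub 24019198012642645 (Nat.div (Nat.mul w (Nat.sub 14411518807585587 (Nat.div (Nat.mul w (Nat.sub 10293942005418276 (Nat.div (Nat.mul w (Nat.sub 8006399337547548 (Nat.div (Nat.mul w 6550690367084357) 72057594037927936))) 72057594037927936))) 72057594037927936))) 72057594037927936))) 72057594037927936))) 72057594037927936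

/-- ≈ 2^56 * arctan (y/2^56), for y ≤ 2^56/16 -/
def serA (y : ℕ) : ℕ := serAw y (Nat.div (Nat.mul y y) 72057594037927936)

/-- ≈ 2^56 * log (1 + j/16) -/
def tabL0 : ℕ → ℕ
  | 0 => 0
  | j + 1 => tabL0 j + serL (72057594037927936 / (33 + 2 * j))

/-- ≈ 2^56 * arctan (k/16) -/
def tabA0 : ℕ → ℕ
  | 0 => 0
  | k + 1 => tabA0 k + serA (16 * 72057594037927936 / (256 + k * (k + 1)))

/-- packed copy of tabL0, j ≤ 16 -/
def tabL (j : ℕ) : ℕ :=
  ((Nat.div 486744503102259075696594021060250572588341769597956811233104436455248378288202808219645744677683211338819058590619910670744393483083845093198040382461785297415957177512724284530938093207567740490128645418065658788445767558228956672216101983350573841417442500511634581634879045526065631825185684647548289024 (Nat.pow 2 (Nat.mul 60 j))) % 1152921504606846976)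

/-- packed copy of tabA0, k ≤ 16 -/
def tabA (k : ℕ) : ℕ :=
  ((Nat.div 551525346278540543568275950695911643187441061342041470483643502052418027358557443930988560368311729249759966690672863320877879515824277127581723753900095077191020312985600710018439539362386606635180417470018460877032318664725412251266433131732727225710695555170497993334923465509522444164827086915226304512 (Nat.pow 2 (Nat.mul 60 k))) % 1152921504606846976)

/-- ≈ 2^56 * log (m/p), for p ≤ m < 2 p, j = 16 m / p -/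
def logA' (m p j : ℕ) : ℕ :=
  Nat.add (tabL (Nat.sub j 16)) (serL (Nat.div (Nat.mul (Nat.sub (Nat.mul 16 m) (Nat.mul j p)) 72057594037927936) (Nat.add (Nat.mul 16 m) (Nat.mul j p))))

/-- ≈ 2^56 * log m, for 1 ≤ m < 2^32 -/
def logA (m : ℕ) : ℕ :=
  Nat.add (Nat.mul (Nat.log2 m) 49946518145322851) (logA' m (Nat.pow 2 (Nat.log2 m)) (Nat.div (Nat.mul 16 m) (Nat.pow 2 (Nat.log2 m))))

/-- ≈ 2^56 * arctan (p/q), for p ≤ q, 0 < q, k = 16 p / q -/
def atA' (p q k : ℕ) : ℕ :=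
  Nat.add (tabA k) (serA (Nat.div (Nat.mul (Nat.sub (Nat.mul 16 p) (Nat.mul k q)) 72057594037927936) (Nat.add (Nat.mul 16 q) (Nat.mul k p))))

/-- ≈ 2^56 * arctan (p/q), for 0 < q -/
def atA (p q : ℕ) : ℕ :=
  cond (Nat.ble p q) (atA' p q (Nat.div (Nat.mul 16 p) q)) (Nat.sub 113187804032455006 (atA' q p (Nat.div (Nat.mul 16 q) p)))

/-- a term: lg a b m is (a/b) log m, atan a b t q is (a/b) arctan (t/q) -/
inductive Tm where
  | lg (a : ℤ) (b : ℕ) (m : ℕ)
  | atan (a : ℤ) (b : ℕ) (t : ℕ) (q : ℕ)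

/-- real value of a term -/
noncomputable def Tm.ev : Tm → ℝ
  | .lg a b m => (a : ℝ) / b * Real.log m
  | .atan a b t q => (a : ℝ) / b * Real.arctan ((t : ℝ) / q)

/-- approximation of 2^56 * ev, rounded, and the error bound -/
def Tm.ap : Tm → ℤ
  | .lg a b m => if m = 0 then 0 else a * (logA m : ℕ) / (b : ℤ)
  | .atan a b t q => a * (atA t q : ℕ) / (b : ℤ)

/-- error bound for ap -/
def Tm.er : Tm → ℕ
  | .lg a b _ => a.natAbs * 4096 / b + 2
  | .atan a b _ _ => a.natAbs * 4096 / b + 2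

def apL : List Tm → ℤ
  | [] => 0
  | t :: l => t.ap + apL l

def erL : List Tm → ℕ
  | [] => 0
  | t :: l => t.er + erL l

/-- well-formed -/
def Tm.ok : Tm → Bool
  | .lg _ b m => decide (0 < b ∧ m < 4294967296)
  | .atan _ b _ q => decide (0 < b ∧ 0 < q)

def okL : List Tm → Bool
  | [] => true
  | t :: l => t.ok && okL l

/-! ## the polygon -/

/-- a term (a/b) arctan (t/q) with signed t -/
def atS (a : ℤ) (b : ℕ) (t : ℤ) (q : ℕ) : Tm :=
  if 0 ≤ t then .atan a b t.toNat q else .atan (-a) b (-t).toNat q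

/-- terms of one edge for one choice of signs; X, Z already with sign, result multiplied by s2 -/
def edT' (d t0 t1 : ℤ) (n r0 r1 : ℕ) (s2 : ℤ) : List Tm :=
  if d = 0 then [] else
  [.lg (s2 * d * t1) (2 * n) r1, .lg (-(s2 * d * t0)) (2 * n) r0,
   atS (s2 * d * |d|) n t1 d.natAbs, atS (-(s2 * d * |d|)) n t0 d.natAbs]

def edT (x0 h0 x1 h1 : ℤ) (X Z s2 : ℤ) : List Tm :=
  edT' ((x1 * h0 - x0 * h1) + (x1 - x0) * Z + (h0 - h1) * X)
    ((x1 - x0) * (x0 + X) - (h0 - h1) * (h0 + Z)) ((x1 - x0) * (x1 + X) - (h0 - h1) * (h1 + Z))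
    ((x1 - x0) * (x1 - x0) + (h0 - h1) * (h0 - h1)).toNat
    ((x0 + X) * (x0 + X) + (h0 + Z) * (h0 + Z)).toNat
    ((x1 + X) * (x1 + X) + (h1 + Z) * (h1 + Z)).toNat s2

/-- all four sign choices -/
def edAll (X Z : ℤ) (x0 h0 x1 h1 : ℤ) : List Tm :=
  edT x0 h0 x1 h1 X Z 1 ++ edT x0 h0 x1 h1 (-X) Z 1 ++
  edT x0 h0 x1 h1 X (-Z) (-1) ++ edT x0 h0 x1 h1 (-X) (-Z) (-1)

def edges (X Z : ℤ) : List (ℕ × ℕ) → List Tm
  | (x0, h0) :: (x1, h1) :: l => edAll X Z x0 h0 x1 h1 ++ edges X Z ((x1, h1) :: l)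
  | _ => []

/-- terms of the bottom side; 0 ≤ X ≤ 6475, 0 < Z -/
def bot (X Z : ℕ) : List Tm :=
  [.lg (-(Z * (6475 + X) : ℤ)) 1 ((6475 + X) * (6475 + X) + Z * Z),
   .lg (-(Z * (6475 - X) : ℤ)) 1 ((6475 - X) * (6475 - X) + Z * Z),
   .atan (-(2 * Z * Z : ℤ)) 1 (6475 + X) Z,
   .atan (-(2 * Z * Z : ℤ)) 1 (6475 - X) Z]

/-- terms of T(X,Z) = 4 π Z φ_B(X,Z) -/
def TT (X Z : ℕ) : List Tm := edges X Z Vs ++ bot X Z

/-- one edge, one sign, for the axis formula -/
def edA' (dx d t0 t1 : ℤ) (n r0 r1 : ℕ) : List Tm :=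
  [.lg (dx * t1) n r1, .lg (-(dx * t0)) n r0] ++
  if d = 0 then [] else [atS (2 * dx * |d|) n t1 d.natAbs, atS (-(2 * dx * |d|)) n t0 d.natAbs]

def edA (x0 h0 x1 h1 : ℤ) (X : ℤ) : List Tm :=
  edA' (x1 - x0) ((x1 * h0 - x0 * h1) + (h0 - h1) * X)
    ((x1 - x0) * (x0 + X) - (h0 - h1) * h0) ((x1 - x0) * (x1 + X) - (h0 - h1) * h1)
    ((x1 - x0) * (x1 - x0) + (h0 - h1) * (h0 - h1)).toNat
    ((x0 + X) * (x0 + X) + h0 * h0).toNat ((x1 + X) * (x1 + X) + h1 * h1).toNat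

def edgesA (X : ℤ) : List (ℕ × ℕ) → List Tm
  | (x0, h0) :: (x1, h1) :: l => edA x0 h0 x1 h1 X ++ edA x0 h0 x1 h1 (-X) ++ edgesA X ((x1, h1) :: l)
  | _ => []

/-- terms of 2 π φ_B(X,0) -/
def TA (X : ℕ) : List Tm :=
  edgesA X Vs ++ [.lg (-(2 * (6475 + X) : ℤ)) 1 (6475 + X), .lg (-(2 * (6475 - X) : ℤ)) 1 (6475 - X)]

/-- φ_B(X,Z) ≤ 1006 (Z > 0) -/
def upOk (X Z : ℕ) : Bool :=
  Nat.ble 1 Z && Nat.ble X 6475 && okL (TT X Z) &&
    decide (apL (TT X Z) + erL (TT X Z) ≤ 4 * (226375608064910012 - 8192) * Z * 1006)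

/-- 994 ≤ φ_B(X,Z) (Z > 0) -/
def loOk (X Z : ℕ) : Bool :=
  Nat.ble 1 Z && Nat.ble X 6475 && okL (TT X Z) &&
    decide (4 * (226375608064910012 + 8192) * Z * 994 ≤ apL (TT X Z) - erL (TT X Z))

/-- φ_B(X,0) ≤ 1006 -/
def axOk (X : ℕ) : Bool :=
  Nat.ble X 6475 && okL (TA X) &&
    decide (apL (TA X) + erL (TA X) ≤ 2 * (226375608064910012 - 8192) * 1006)

/-- (x,y) is in the closed polygon -/
def inE (x y : ℕ) : List (ℕ × ℕ × ℕ) → Bool
  | [] => true
  | (dh, dx, c) :: l => Nat.ble (dh * x + dx * y) c && inE x y l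

/-- (x,y) is not in the open polygon -/
def outE (x y : ℕ) : List (ℕ × ℕ × ℕ) → Bool
  | [] => false
  | (dh, dx, c) :: l => Nat.ble c (dh * x + dx * y) || outE x y l

/-- chain check, upper bound: points (x_k, y_{k+1}) with (x_{k+1}, y_{k+1}) in the polygon -/
def upC : List (ℕ × ℕ) → Bool
  | (x, y) :: (x', y') :: l => upOk x y && inE x' y Es && upC ((x', y') :: l)
  | _ => true

/-- chain check, lower bound: points (x_{k+1}, y_k) with (x_{k+1}, y_{k+1}) outside -/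
def loC : List (ℕ × ℕ) → Bool
  | (x, y) :: (x', y') :: l => loOk x y && outE x y' Es && loC ((x', y') :: l)
  | _ => true

end VD
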