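import Mathlib

/-!
# The reference polygon (unit: the true dipole has W ≈ 1000)
-/

namespace VD

/-- vertices of the part of the polygon in the first quadrant -/
def Vs : List (ℕ × ℕ) :=
  [(0,3887),(896,3839),(1776,3695),(2622,3461),(3415,3144),(4135,2759),(4768,2325),(5304,1860),
   (5738,1388),(6067,934),(6295,524),(6429,191),(6475,0)]

/-- edges (dh, dx, c): the side is dh * |x| + dx * y = c -/
def Es : List (ℕ × ℕ × ℕ) :=
  [(48, 896, 3482752), (144, 880, 3507344), (234, 846, 3541554), (317, 793, 3575747),
   (385, 720, 3578455), (434, 633, 3541037), (465, 536, 3463320), (472, 434, 3310728),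
   (454, 329, 3061704), (410, 228, 2700422), (333, 134, 2166451), (191, 46, 1236725)]

/-- minimum, kernel friendly -/
def mn (a b : ℕ) : ℕ := cond (Nat.ble a b) a b
/-- maximum, kernel friendly -/
def mx (a b : ℕ) : ℕ := cond (Nat.ble a b) b a

theorem mn_eq (a b : ℕ) : mn a b = min a b := by
  unfold mn
  by_cases h : a ≤ b
  · simp [Nat.ble_eq.mpr h, min_eq_left h]
  · have h' : Nat.ble a b = false := by
      cases hb : Nat.ble a b
      · rfl
      · exact absurd (Nat.ble_eq.mp hb) h
    simp [h', min_eq_right (le_of_not_ge h)]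

theorem mx_eq (a b : ℕ) : mx a b = max a b := by
  unfold mx
  by_cases h : a ≤ b
  · simp [Nat.ble_eq.mpr h, max_eq_right h]
  · have h' : Nat.ble a b = false := by
      cases hb : Nat.ble a b
      · rfl
      · exact absurd (Nat.ble_eq.mp hb) h
    simp [h', max_eq_left (le_of_not_ge h)]

end VD
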