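import Pool.Agent.Helper50.VD.Basic

/-!
# MP_22dedb_an : statements of all modules
A module proves theorem X (hA : StA) ... : StX.
Proofs: see the plan MP_22dedb-plan.md.
-/

open MeasureTheory Set Filter Topology
open scoped ENNReal

noncomputable section

namespace VD

/-! ## Group K : the kernel -/

/-- K0: measurability -/
def StK0 : Prop :=
  Measurable (fun p : (ℝ × ℝ) × (ℝ × ℝ) => N p.1 p.2) ∧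
  (∀ A, MeasurableSet A → Measurable (phi A)) ∧
  Measurable (fun p : (ℝ × ℝ) × (ℝ × ℝ) => kap p.1 p.2)

/-- K1: pointwise bounds of the kernel -/
def StK1 : Prop :=
  ∀ z y : ℝ × ℝ, 0 ≤ z.2 → 0 < y.2 → z ≠ y →
    0 < N z y ∧
    N z y ≤ 1 / (Real.pi * Real.sqrt ((z.1 - y.1) ^ 2 + (z.2 - y.2) ^ 2)) ∧
    N z y ≤ y.2 / (Real.pi * ((z.1 - y.1) ^ 2 + (z.2 - y.2) ^ 2)) ∧
    y.2 / (Real.pi * ((z.1 - y.1) ^ 2 + (z.2 + y.2) ^ 2)) ≤ N z y ∧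
    y.2 / Real.pi * (1 / ((z.1 - y.1) ^ 2 + z.2 ^ 2 + y.2 ^ 2) +
      (2 * z.2 * y.2) ^ 2 / (3 * ((z.1 - y.1) ^ 2 + z.2 ^ 2 + y.2 ^ 2) ^ 3)) ≤ N z y

/-- K1b: comparison of two poles -/
def StK1b : Prop :=
  ∀ z w y : ℝ × ℝ, 0 ≤ z.2 → z.2 ≤ w.2 → 0 < y.2 → w ≠ y →
    (w.1 - y.1) ^ 2 + w.2 ^ 2 ≤ (z.1 - y.1) ^ 2 + z.2 ^ 2 → N z y ≤ N w y

/-- K1c: integral representation -/
def StK1c : Prop :=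
  ∀ S s ξ : ℝ, 0 < S → 0 < s → (ξ ≠ 0 ∨ s ≠ S) →
    N (0, S) (ξ, s) =
      (1 / (2 * Real.pi * S)) * ∫ r in (|s - S|)..(s + S), r / (ξ ^ 2 + r ^ 2)

/-- K2: integrability, sup bound -/
def StK2 : Prop :=
  ∀ A, MeasurableSet A → A ⊆ Om → volume A < ∞ → ∀ z : ℝ × ℝ, 0 ≤ z.2 →
    IntegrableOn (N z) A ∧ 0 ≤ phi A z ∧ phi A z ≤ 4 * Real.sqrt (volume A).toReal ∧
    (0 < volume A → 0 < phi A z)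

/-- K3: continuity up to the axis -/
def StK3 : Prop :=
  ∀ A, MeasurableSet A → A ⊆ Om → volume A < ∞ → ContinuousOn (phi A) {z | 0 ≤ z.2}

/-- K4: decay -/
def StK4 : Prop :=
  ∀ A, MeasurableSet A → A ⊆ Om → volume A < ∞ → ∀ ε : ℝ, 0 < ε →
    ∃ R : ℝ, ∀ z : ℝ × ℝ, 0 ≤ z.2 → R ≤ ‖z‖ → phi A z ≤ ε

/-- K5: scaling, translation, reflection -/
def StK5 : Prop :=
  (∀ A r, MeasurableSet A → A ⊆ Om → 0 < r →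
    (∀ z : ℝ × ℝ, phi (dil r A) (r * z.1, r * z.2) = r * phi A z) ∧
    nu (dil r A) = ENNReal.ofReal (r ^ 3) * nu A ∧
    volume (dil r A) = ENNReal.ofReal (r ^ 2) * volume A ∧
    BG (dil r A) (dil r A) = r ^ 4 * BG A A) ∧
  (∀ A τ, MeasurableSet A → A ⊆ Om →
    (∀ z : ℝ × ℝ, phi (sh τ A) z = phi A (z.1 - τ, z.2)) ∧
    nu (sh τ A) = nu A ∧ volume (sh τ A) = volume A ∧ BG (sh τ A) (sh τ A) = BG A A) ∧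
  (∀ A l, MeasurableSet A → A ⊆ Om →
    (∀ z : ℝ × ℝ, phi (rfl' l ⁻¹' A) z = phi A (rfl' l z)) ∧
    nu (rfl' l ⁻¹' A) = nu A ∧ volume (rfl' l ⁻¹' A) = volume A ∧
    BG (rfl' l ⁻¹' A) (rfl' l ⁻¹' A) = BG A A)

/-- K6: φ of a doubly monotone set decreases in |x₁| -/
def StK6 : Prop :=
  ∀ A, DM A → 0 < volume A → ∀ x x' s : ℝ, 0 ≤ s → |x| < |x'| → phi A (x', s) < phi A (x, s)

/-- K7: φ of a doubly monotone set decreases in x₂ -/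
def StK7 : Prop :=
  ∀ A, DM A → 0 < volume A → ∀ x s t : ℝ, 0 ≤ s → s < t → phi A (x, t) < phi A (x, s)

/-- K9: the bilinear form -/
def StK9 : Prop :=
  (∀ A C, MeasurableSet A → MeasurableSet C → A ⊆ Om → C ⊆ Om → volume A < ∞ → volume C < ∞ →
    nu A < ∞ → nu C < ∞ →
    IntegrableOn (fun z : ℝ × ℝ => z.2 * phi C z) A ∧ BG A C = BG C A ∧ 0 ≤ BG A C ∧
    ENNReal.ofReal (BG A C) = ∫⁻ z in A, ∫⁻ y in C, ENNReal.ofReal (G z y)) ∧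
  (∀ A, MeasurableSet A → A ⊆ Om → volume A < ∞ → nu A < ∞ →
    Tendsto (fun R : ℝ => BG (A ∩ Box R) (A ∩ Box R)) atTop (𝓝 (BG A A)))

/-! ## Group P : the polygon -/

/-- P0: the gauge -/
def StP0 : Prop :=
  Continuous g ∧
  (∀ (r : ℝ) (z : ℝ × ℝ), 0 ≤ r → g (r * z.1, r * z.2) = r * g z) ∧
  (∀ z : ℝ × ℝ, 0 ≤ z.2 →
    0 ≤ g z ∧ |z.1| ≤ 6475 * g z ∧ z.2 ≤ 3887 * g z ∧ g z ≤ |z.1| / 6475 + z.2 / 3887) ∧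
  (∀ z w : ℝ × ℝ, 0 ≤ z.2 → |z.1| ≤ |w.1| → z.2 ≤ w.2 → g z ≤ g w) ∧
  (∀ z w : ℝ × ℝ, 0 ≤ z.2 → |z.1| < |w.1| → z.2 ≤ w.2 → g z < g w) ∧
  (∀ z w : ℝ × ℝ, 0 ≤ z.2 → |z.1| ≤ |w.1| → z.2 < w.2 → g z < g w) ∧
  (∀ r : ℝ, 0 < r → DM (PB r) ∧ (PB r).Nonempty ∧ 0 < volume (PB r) ∧ PB r = dil r (PB 1) ∧
    volume {z : ℝ × ℝ | 0 < z.2 ∧ g z = r} = 0)

/-- antiderivative of log (ξ² + u²) in u -/
def Ft (ξ u : ℝ) : ℝ := u * Real.log (ξ ^ 2 + u ^ 2) - 2 * u + 2 * ξ * Real.arctan (u / ξ)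

/-- vertex function -/
def Vf (ξ u : ℝ) : ℝ :=
  ξ * u * Real.log (ξ ^ 2 + u ^ 2) / 2 - 3 / 2 * (ξ * u) + ξ ^ 2 * Real.arctan (u / ξ)

/-- (d/2n) (t₁ log r₁² - t₀ log r₀²) + (d|d|/n) (arctan (t₁/|d|) - arctan (t₀/|d|)) -/
def Wf (x0 h0 x1 h1 X Z : ℝ) : ℝ :=
  let n := (x1 - x0) ^ 2 + (h0 - h1) ^ 2
  let d := (x1 * h0 - x0 * h1) + (x1 - x0) * Z + (h0 - h1) * X
  let t0 := (x1 - x0) * (x0 + X) - (h0 - h1) * (h0 + Z)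
  let t1 := (x1 - x0) * (x1 + X) - (h0 - h1) * (h1 + Z)
  d / (2 * n) * (t1 * Real.log ((x1 + X) ^ 2 + (h1 + Z) ^ 2) -
      t0 * Real.log ((x0 + X) ^ 2 + (h0 + Z) ^ 2)) +
    d * |d| / n * (Real.arctan (t1 / |d|) - Real.arctan (t0 / |d|))

/-- P1a: one side -/
def StP1a : Prop :=
  ∀ x0 h0 x1 h1 X Z : ℝ, x0 < x1 →
    ∫ x in x0..x1, Ft (x + X) (h0 + (h1 - h0) * ((x - x0) / (x1 - x0)) + Z) =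
      Vf (x1 + X) (h1 + Z) - Vf (x0 + X) (h0 + Z) + Wf x0 h0 x1 h1 X Z -
        3 / 2 * ((x1 * h0 - x0 * h1) + (x1 - x0) * Z + (h0 - h1) * X)

/-- column integral (times 4 π Z) -/
def Th (ξ h Z : ℝ) : ℝ := Ft ξ (h + Z) - Ft ξ (h - Z) - 2 * Ft ξ Z

/-- column integrals over all sides, both halves -/
def colS (X Z : ℝ) : List (ℕ × ℕ) → ℝ
  | (x0, h0) :: (x1, h1) :: l =>
    (∫ x in (x0 : ℝ)..(x1 : ℝ),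
      (Th (x - X) (h0 + ((h1 : ℝ) - h0) * ((x - x0) / ((x1 : ℝ) - x0))) Z +
       Th (x + X) (h0 + ((h1 : ℝ) - h0) * ((x - x0) / ((x1 : ℝ) - x0))) Z)) +
      colS X Z ((x1, h1) :: l)
  | _ => 0

/-- P1b: columns, Z > 0 -/
def StP1b : Prop :=
  ∀ X Z : ℝ, 0 < Z → 4 * Real.pi * Z * phi (PB 1) (X, Z) = colS X Z Vs

/-- column integrals over all sides on the axis (times 2 π) -/
def colA (X : ℝ) : List (ℕ × ℕ) → ℝ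
  | (x0, h0) :: (x1, h1) :: l =>
    (∫ x in (x0 : ℝ)..(x1 : ℝ),
      (Real.log ((x - X) ^ 2 + (h0 + ((h1 : ℝ) - h0) * ((x - x0) / ((x1 : ℝ) - x0))) ^ 2) -
        Real.log ((x - X) ^ 2) +
       (Real.log ((x + X) ^ 2 + (h0 + ((h1 : ℝ) - h0) * ((x - x0) / ((x1 : ℝ) - x0))) ^ 2) -
        Real.log ((x + X) ^ 2)))) +
      colA X ((x1, h1) :: l)
  | _ => 0

/-- P2b: columns on the axis -/
def StP2b : Prop :=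
  ∀ X : ℝ, 2 * Real.pi * phi (PB 1) (X, 0) = colA X Vs

/-- P1: closed form of 4 π Z φ_B(X, Z) -/
def StP1 : Prop :=
  ∀ X Z : ℕ, 1 ≤ Z → X ≤ 6475 → 4 * Real.pi * Z * phi (PB 1) ((X : ℝ), (Z : ℝ)) = evL (TT X Z)

/-- P2: closed form of 2 π φ_B(X, 0) -/
def StP2 : Prop :=
  ∀ X : ℕ, X ≤ 6475 → 2 * Real.pi * phi (PB 1) ((X : ℝ), (0 : ℝ)) = evL (TA X)

/-- P3a: approximations of log and arctan -/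
def StP3a : Prop :=
  (∀ m : ℕ, 1 ≤ m → m < 4294967296 → |(logA m : ℝ) - 2 ^ 56 * Real.log m| ≤ 4096) ∧
  (∀ p q : ℕ, 0 < q → |(atA p q : ℝ) - 2 ^ 56 * Real.arctan ((p : ℝ) / q)| ≤ 4096)

/-- P3: soundness of the approximations -/
def StP3 : Prop :=
  (∀ l : List Tm, okL l = true → |(apL l : ℝ) - 2 ^ 56 * evL l| ≤ (erL l : ℝ)) ∧
  (226375608064910012 - 8192 : ℝ) ≤ 2 ^ 56 * Real.pi ∧
  2 ^ 56 * Real.pi ≤ (226375608064910012 + 8192 : ℝ)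

/-- P4: a checked chain bounds φ_B on a part of the boundary -/
def StP4 : Prop :=
  (∀ (l : List (ℕ × ℕ)) (a b : ℕ × ℕ), upC (a :: l ++ [b]) = true →
    ∀ z : ℝ × ℝ, (a.1 : ℝ) ≤ z.1 → z.1 < b.1 → 0 ≤ z.2 → g z = 1 → phi (PB 1) z ≤ 1006) ∧
  (∀ (l : List (ℕ × ℕ)) (a b : ℕ × ℕ), loC (a :: l ++ [b]) = true →
    ∀ z : ℝ × ℝ, 0 ≤ z.1 → (b.2 : ℝ) < z.2 → z.2 ≤ a.2 → g z = 1 → 994 ≤ phi (PB 1) z)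

/-- P5: φ_B ≈ 1000 on the boundary of the polygon -/
def StP5 : Prop :=
  ∀ z : ℝ × ℝ, 0 ≤ z.1 → 0 ≤ z.2 → g z = 1 → 994 ≤ phi (PB 1) z ∧ phi (PB 1) z ≤ 1006

/-! ## Group R : crude shape bounds -/

/-- R1: tall sets -/
def StR1 : Prop :=
  ∀ A W, Sol A W → ∀ τ : ℝ, 0 < τ → (∀ t, 0 < t → t < τ → ((5 / 3 * t, t) : ℝ × ℝ) ∈ A) →
    (∀ t, τ < t → ((5 / 3 * t, t) : ℝ × ℝ) ∉ A) → ∀ z ∈ A, z.2 ^ 2 ≤ 34 / 3 * τ ^ 2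

/-- R2: row integrals of the kernel. (a) beyond the pole, (b) below the pole, (c) full line and
tails -/
def StR2 : Prop :=
  (∀ S s : ℝ, 0 ≤ S → S ≤ s → 0 < s →
    IntegrableOn (fun ξ => N (0, S) (ξ, s)) (Iic (S - s)) ∧
    ∫ ξ in Iic (S - s), N (0, S) (ξ, s) ≤ 1 / 4 * (1 + S / s)) ∧
  (∀ S s : ℝ, 0 < s → s < S →
    IntegrableOn (fun ξ => N (0, S) (ξ, s)) (Iic (S - s)) ∧
    ∫ ξ in Iic (S - s), N (0, S) (ξ, s) ≤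
      s / (2 * S) + (S - s) / (2 * Real.pi * S) * Real.log ((S + s) / (S - s))) ∧
  (∀ s : ℝ, 0 < s → s < 1 → ∀ a b : ℝ, 0 < a → 0 < b →
    s - s / Real.pi * (1 / a + 1 / b) ≤ ∫ ξ in (-b)..a, N (0, 1) (ξ, s)) ∧
  (∀ s : ℝ, 0 < s → s < 1 → ∀ b : ℝ, 0 < b →
    s / 2 - s / Real.pi * (1 / b) ≤ ∫ ξ in (-b)..0, N (0, 1) (ξ, s))

/-- R3: the two scalar inequalities of the wide case -/
def StR3 : Prop :=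
  (∀ S : ℝ, 0 < S →
    ∫ s in (0 : ℝ)..S, (s / (2 * S) + (S - s) / (2 * Real.pi * S) * Real.log ((S + s) / (S - s)))
      ≤ S * (1 / 4 + (2 * Real.log 2 - 1) / (2 * Real.pi))) ∧
  (∀ S : ℝ, 0 ≤ S → S ≤ 1 →
    S * (1 / 4 + (2 * Real.log 2 - 1) / (2 * Real.pi)) - 0.7647 * S ^ 2 / 2 +
      ∫ s in S..1, max (-(0.2924 * s)) (1 / 4 * (1 + S / s) - 0.7647 * s) < 0)

/-- R4: one row. Poles (X, S) and (5/3, 1), X + S = c ≥ 9/2, row at height s with half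
width l -/
def StR4 : Prop :=
  ∀ X S s l : ℝ, 0 ≤ S → S ≤ 1 → 9 / 2 ≤ X + S → 0 < s → s < 1 → s ≠ S → 5 / 3 ≤ l → l ≤ X + S - s →
    (s < S → X ≤ l) →
    (∫ y in (-l)..l, (N (X, S) (y, s) - N (5 / 3, 1) (y, s))) ≤
      if s < S then
        s / (2 * S) + (S - s) / (2 * Real.pi * S) * Real.log ((S + s) / (S - s)) - 0.7647 * s
      else max (-(0.2924 * s)) (1 / 4 * (1 + S / s) - 0.7647 * s)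

/-- R5: wide sets -/
def StR5 : Prop :=
  ∀ A W, Sol A W → ∀ τ : ℝ, 0 < τ → (∀ t, 0 < t → t < τ → ((5 / 3 * t, t) : ℝ × ℝ) ∈ A) →
    (∀ t, τ < t → ((5 / 3 * t, t) : ℝ × ℝ) ∉ A) → ∀ z ∈ A, z.2 ≤ τ → |z.1| + z.2 ≤ 9 / 2 * τ

/-- R6: lower bounds for ρ -/
def StR6 : Prop :=
  ∀ A W, Sol A W → ∀ ρ p q, Conf A ρ p q →
    (p.2 ≤ q.2 → 3701 / 10000 ≤ ρ) ∧ (p.1 ≤ q.1 → 2813 / 10000 ≤ ρ)

/-! ## Group U : contacts -/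

/-- U0: existence of a contact configuration -/
def StU0 : Prop :=
  ∀ A W, Sol A W → ∃ r : ℝ, 0 < r ∧ Sol (dil r A) (r * W) ∧
    ∃ ρ p q, Conf (dil r A) ρ p q ∧ r * W ≤ phi (dil r A) p

/-- U1: the contact inequality; and one of the two types always holds -/
def StU1 : Prop :=
  ∀ A ρ p q, Conf A ρ p q →
    (∫ y in PB 1 \ A, N p y) + (∫ y in A \ PB ρ, N q y) ≤ 1006 - 994 * ρ ∧
    (p.2 ≤ q.2 ∨ p.1 ≤ q.1) ∧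
    (∀ z ∈ A, q.2 < z.2 → |z.1| ≤ q.1)

/-- contribution of the row at height s -/
def Irow (A : Set (ℝ × ℝ)) (ρ : ℝ) (p q : ℝ × ℝ) (s : ℝ) : ℝ :=
  ∫ y in Ioi (0 : ℝ),
    ((PB 1 \ A).indicator (fun z => N p z + N p (-z.1, z.2)) (y, s) +
      (A \ PB ρ).indicator (fun z => N q z + N q (-z.1, z.2)) (y, s))

/-- U2: slicing -/
def StU2 : Prop :=
  ∀ A ρ p q, Conf A ρ p q →
    IntegrableOn (Irow A ρ p q) (Ioi 0) ∧ (∀ s, 0 ≤ Irow A ρ p q s) ∧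
    (∫ y in PB 1 \ A, N p y) + (∫ y in A \ PB ρ, N q y) = ∫ s in Ioi (0 : ℝ), Irow A ρ p q s

/-- W1: the arc lemma -/
def StW1 : Prop :=
  ∀ n0 x0 n1 x1 n x M m : ℝ, 0 ≤ x0 → x0 ≤ x → x ≤ x1 → x0 < x1 → 0 ≤ m → m ^ 2 < M →
    x0 ^ 2 ≤ n0 → x1 ^ 2 ≤ n1 → n0 ≤ n1 → n1 - n0 ≤ x1 ^ 2 - x0 ^ 2 → x ^ 2 ≤ n →
    n * (x1 ^ 2 - x0 ^ 2) ≤ n0 * (x1 ^ 2 - x ^ 2) + n1 * (x ^ 2 - x0 ^ 2) →
    min (fF n0 x0 M m) (fF n1 x1 M m) ≤ fF n x M m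

/-- A1: the outer arc, wide case -/
def StA1 : Prop :=
  ∀ R1 : ℕ, 1 ≤ R1 → R1 ≤ 10000 → arcOk (mkPts R1) Vs = true → (mkPts R1).nP ≤ 419256250000 →
    (mkPts R1).xP < 647500 ∧ (mkPts R1).xP ^ 2 ≤ (mkPts R1).nP ∧ 0 < (mkPts R1).xT ∧
    (∀ z : ℝ × ℝ, 0 ≤ z.1 → 0 ≤ z.2 → g z ≤ 1 → 100 * z.2 ≤ (mkPts R1).yT →
      (10 ^ 4 * (z.1 ^ 2 + z.2 ^ 2)) * (647500 ^ 2 - ((mkPts R1).xP : ℝ) ^ 2) ≤
        (mkPts R1).nP * (647500 ^ 2 - (100 * z.1) ^ 2) +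
          647500 ^ 2 * ((100 * z.1) ^ 2 - ((mkPts R1).xP : ℝ) ^ 2)) ∧
    (∀ z : ℝ × ℝ, 0 ≤ z.1 → 0 ≤ z.2 → g z = 1 → 100 * z.2 ≤ (mkPts R1).yT →
      ((mkPts R1).xP : ℝ) ≤ 100 * z.1)

/-- A2: the outer arc, tall case -/
def StA2 : Prop :=
  ∀ R1 : ℕ, 1 ≤ R1 → R1 ≤ 10000 → (mkT R1).n0 ≤ (mkT R1).n1 →
    (mkT R1).n1 ≤ (mkT R1).n0 + (mkT R1).xT ^ 2 ∧ (mkT R1).xT ^ 2 ≤ (mkT R1).n1 ∧
    (∀ z : ℝ × ℝ, 0 ≤ z.1 → 0 ≤ z.2 → g z ≤ 1 → 80000 * z.1 ≤ (mkT R1).xT →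
      (80000 ^ 2 * (z.1 ^ 2 + z.2 ^ 2)) * ((mkT R1).xT : ℝ) ^ 2 ≤
        (mkT R1).n0 * (((mkT R1).xT : ℝ) ^ 2 - (80000 * z.1) ^ 2) +
          (mkT R1).n1 * (80000 * z.1) ^ 2) ∧
    (∀ z : ℝ × ℝ, 0 ≤ z.1 → 0 ≤ z.2 → g z = 1 → 80000 * z.1 ≤ (mkT R1).xT →
      ((mkT R1).zl : ℝ) ≤ 80000 * z.2)

/-- A3: the polygon is inside the ellipse -/
def StA3 : Prop :=
  ∀ (r : ℝ) (z : ℝ × ℝ), 0 < r → 0 ≤ z.1 → 0 ≤ z.2 → g z ≤ r →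
    (z.1 ^ 2 + z.2 ^ 2) * (6475 * r) ^ 2 ≤
      (3887 * r) ^ 2 * ((6475 * r) ^ 2 - z.1 ^ 2) + (6475 * r) ^ 2 * z.1 ^ 2

/-- W2: cell averages (Jensen) -/
def StW2 : Prop :=
  ∀ n x a b : ℝ, a < b → x ^ 2 < n →
    3 * (b - a) / (3 * n - 3 * x * (a + b) + (a ^ 2 + a * b + b ^ 2)) ≤
      ∫ y in a..b, 1 / (n - 2 * x * y + y ^ 2)

/-- W3: the dynamic programming lemma -/
def StW3 : Prop :=
  ∀ (P : Pts) (s2 x0 w lim : ℕ) (kp km : ℝ → ℝ),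
    (∀ y, 0 ≤ kp y) → (∀ y, 0 ≤ km y) →
    IntervalIntegrable kp volume x0 (x0 + w : ℕ) → IntervalIntegrable km volume x0 (x0 + w : ℕ) →
    (∀ i < 16, (cP P s2 (bd x0 w i) (bd x0 w (i + 1)) : ℝ) ≤
      ∫ y in (bd x0 w i : ℝ)..(bd x0 w (i + 1) : ℝ), kp y) →
    (∀ i < 16, (cQ P s2 (bd x0 w i) (bd x0 w (i + 1)) : ℝ) ≤
      ∫ y in (bd x0 w i : ℝ)..(bd x0 w (i + 1) : ℝ), km y) →
    (∀ i < 16, ∀ y : ℝ, (bd x0 w i : ℝ) ≤ y → y ≤ (bd x0 w (i + 1) : ℝ) →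
      (cR P s2 (bd x0 w i) (bd x0 w (i + 1)) : ℝ) ≤ ((bd x0 w (i + 1) : ℝ) - bd x0 w i) * kp y ∧
      (cR P s2 (bd x0 w i) (bd x0 w (i + 1)) : ℝ) ≤ ((bd x0 w (i + 1) : ℝ) - bd x0 w i) * km y) →
    ∀ t : ℝ, t ≤ lim →
      ((dp P s2 x0 w lim 16).2 : ℝ) ≤ ∫ y in (x0 : ℝ)..((x0 + w : ℕ) : ℝ), if y < t then km y else kp y

/-- scaled kernel: lengths multiplied by 100 -/
def kS (z : ℝ × ℝ) (s y : ℝ) : ℝ := fF (10 ^ 4 * (z.1 ^ 2 + z.2 ^ 2)) (100 * z.1) (y ^ 2 + s ^ 2) y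

/-- W4a: cell bounds -/
def StW4a : Prop :=
  ∀ R1 : ℕ, 1 ≤ R1 → R1 ≤ 10000 → arcOk (mkPts R1) Vs = true → (mkPts R1).nP ≤ 419256250000 →
    ∀ (s : ℝ) (s1 a b : ℕ), 0 < s → s ≤ s1 → a ≤ b →
    (∀ p : ℝ × ℝ, 0 ≤ p.1 → 0 ≤ p.2 → g p = 1 → 100 * p.2 ≤ (mkPts R1).yT →
      (cP (mkPts R1) (s1 * s1) a b : ℝ) ≤ 10 ^ 18 * ∫ y in (a : ℝ)..(b : ℝ), kS p s y ∧
      ∀ y : ℝ, (a : ℝ) ≤ y → y ≤ b →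
        (cR (mkPts R1) (s1 * s1) a b : ℝ) ≤ ((b : ℝ) - a) * (10 ^ 18 * kS p s y)) ∧
    (∀ q : ℝ × ℝ, 0 ≤ q.1 → 0 ≤ q.2 → g q ≤ (R1 : ℝ) / 10000 →
      (cQ (mkPts R1) (s1 * s1) a b : ℝ) ≤ 10 ^ 18 * ∫ y in (a : ℝ)..(b : ℝ), kS q s y ∧
      ∀ y : ℝ, (a : ℝ) ≤ y → y ≤ b →
        (cR (mkPts R1) (s1 * s1) a b : ℝ) ≤ ((b : ℝ) - a) * (10 ^ 18 * kS q s y))

/-- W4: the row lemma -/
def StW4 : Prop :=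
  ∀ R1 : ℕ, 1 ≤ R1 → R1 ≤ 10000 → arcOk (mkPts R1) Vs = true →
    (mkPts R1).nP ≤ 419256250000 → ∀ A ρ p q, Conf A ρ p q → p.2 ≤ q.2 → ρ ≤ R1 / 10000 →
    ∀ s0 s1 : ℕ, s0 < s1 → s1 ≤ 388700 → ∀ s : ℝ, (s0 : ℝ) / 100 < s → s < (s1 : ℝ) / 100 → s ≠ q.2 →
      (rowV (mkPts R1) (xOut R1 s0 Es) (xIn s1 Es) s0 s1 : ℝ) * s / (Real.pi * 10 ^ 16) ≤
        Irow A ρ p q s

/-- W5: soundness of chkW -/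
def StW5 : Prop :=
  ∀ R1 R0 : ℕ, chkW R1 R0 = true → ∀ A ρ p q, Conf A ρ p q → p.2 ≤ q.2 →
    (R0 : ℝ) / 10000 ≤ ρ → ρ ≤ (R1 : ℝ) / 10000 → False

/-- sum over consecutive pairs of c Q Q' * cross Q Q' * (h + h') -/
def pairSum (c : ℕ × ℕ → ℕ × ℕ → ℝ) : List (ℕ × ℕ) → ℝ
  | Q :: Q' :: l =>
    c Q Q' * ((Q'.1 : ℝ) * Q.2 - Q.1 * Q'.2) * ((Q.2 : ℝ) + Q'.2) + pairSum c (Q' :: l)
  | _ => 0

/-- T1: measure of a sector slab -/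
def StT1 : Prop :=
  ∀ (Q Q' : ℝ × ℝ) (a b : ℝ), 0 ≤ Q.1 → 0 < Q.2 → 0 < Q'.1 → 0 ≤ Q'.2 → 0 < Q'.1 * Q.2 - Q.1 * Q'.2 →
    0 ≤ a → a < b →
    MeasurableSet (sec Q Q' a b) ∧
    IntegrableOn (fun y : ℝ × ℝ => y.2) (sec Q Q' a b) ∧
    ∫ y in sec Q Q' a b, y.2 = (b ^ 3 - a ^ 3) * (Q'.1 * Q.2 - Q.1 * Q'.2) * (Q.2 + Q'.2) / 6

/-- T2: lower bound of integrals over an annulus of the polygon by sector sums -/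
def StT2 : Prop :=
  ∀ (K : ℕ) (c : ℕ × ℕ → ℕ × ℕ → ℝ) (f : ℝ × ℝ → ℝ) (a b : ℝ), 1 ≤ K → 0 < a → a < b → b ≤ 1 →
    (∀ y : ℝ × ℝ, 0 < y.1 → 0 < y.2 → 0 ≤ f y) →
    IntegrableOn (fun y : ℝ × ℝ => y.2 * f y) ((PB b \ PB a) ∩ {y | 0 < y.1}) →
    (∀ Q Q' : ℕ × ℕ, (Q, Q') ∈ (refine K Vs).zip (refine K Vs).tail →
      ∀ᵐ y : ℝ × ℝ, y ∈ sec ((Q.1 : ℝ) / K, (Q.2 : ℝ) / K) ((Q'.1 : ℝ) / K, (Q'.2 : ℝ) / K) a b →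
        c Q Q' ≤ f y) →
    (b ^ 3 - a ^ 3) / (6 * (K : ℝ) ^ 3) * pairSum c (refine K Vs) ≤
      ∫ y in (PB b \ PB a) ∩ {y | 0 < y.1}, y.2 * f y

/-- T4: soundness of fc2 : y in the cell with corners s₀ a, s₁ a, s₀ b, s₁ b -/
def StT4 : Prop :=
  ∀ z n ax ay bx by' s0 s1 : ℕ, z ^ 2 ≤ n → s0 ≤ s1 → ax ≤ bx → by' ≤ ay → 0 < s0 → 0 < ay →
    ∀ s u : ℝ, (s0 : ℝ) ≤ s → s ≤ s1 → 0 < u → u < 1 →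
      (fc2 z n ax ay bx by' s0 s1 : ℝ) ≤
        10 ^ 30 * fF n z ((s * ((1 - u) * ax + u * bx)) ^ 2 + (s * ((1 - u) * ay + u * by')) ^ 2)
          (s * ((1 - u) * ax + u * bx))

/-- T3a: cell bound, tall case -/
def StT3a : Prop :=
  ∀ R1 : ℕ, 1 ≤ R1 → R1 ≤ 10000 → (mkT R1).n0 ≤ (mkT R1).n1 →
    ∀ ax ay bx by' s0 s1 : ℕ, s0 ≤ s1 → ax ≤ bx → by' ≤ ay → 0 < s0 → 0 < ay → 0 < bx →
    ∀ y : ℝ × ℝ, y ∈ sec ((ax : ℝ) / 8, (ay : ℝ) / 8) ((bx : ℝ) / 8, (by' : ℝ) / 8)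
      ((s0 : ℝ) / 10000) ((s1 : ℝ) / 10000) →
    (∀ p : ℝ × ℝ, 0 ≤ p.1 → 0 ≤ p.2 → g p = 1 → 80000 * p.1 ≤ (mkT R1).xT → p ≠ y →
      y.2 * ((cellT (mkT R1) ax ay bx by' s0 s1 : ℝ) * 80000 ^ 2 / (Real.pi * 10 ^ 30)) ≤
        N p y + N p (-y.1, y.2)) ∧
    (∀ q : ℝ × ℝ, 0 ≤ q.1 → 0 ≤ q.2 → g q ≤ (R1 : ℝ) / 10000 → q ≠ y →
      y.2 * ((cellT (mkT R1) ax ay bx by' s0 s1 : ℝ) * 80000 ^ 2 / (Real.pi * 10 ^ 30)) ≤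
        N q y + N q (-y.1, y.2))

/-- T3: soundness of chkT -/
def StT3 : Prop :=
  ∀ R1 R0 : ℕ, chkT R1 R0 = true → ∀ A ρ p q, Conf A ρ p q → p.1 ≤ q.1 →
    (R0 : ℝ) / 10000 ≤ ρ → ρ ≤ (R1 : ℝ) / 10000 → False

/-- C1: properties of mk -/
def StC1 : Prop :=
  (∀ p y : ℝ × ℝ, 0 ≤ p.1 → 0 ≤ p.2 → g p ≤ 1 → 0 < y.1 → 0 < y.2 → p ≠ y →
    y.2 * mk y ≤ N p y + N p (-y.1, y.2)) ∧
  (∀ y : ℝ × ℝ, 0 < y.1 → 0 < y.2 → 0 < mk y) ∧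
  (∀ (y : ℝ × ℝ) (r : ℝ), 0 < y.1 → 0 < y.2 → g y ≤ 1 → 0 < r → r ≤ 1 →
    r ^ 2 * mk (r * y.1, r * y.2) ≤ mk y) ∧
  (∀ S : Set (ℝ × ℝ), MeasurableSet S → S ⊆ PB 1 →
    IntegrableOn (fun y : ℝ × ℝ => y.2 * mk y) (S ∩ {y | 0 < y.1}))

/-- C2: one slab of the close check -/
def StC2 : Prop :=
  ∀ (s : ℕ) (a b : ℝ), 70 ≤ s → s ≤ 99 → (s : ℝ) / 100 ≤ a → a < b → b ≤ (s + 1 : ℝ) / 100 →
    (b ^ 3 - a ^ 3) * 10 ^ 6 / (((s : ℝ) + 1) ^ 3 - (s : ℝ) ^ 3) * slC s / (Real.pi * 6 * 10 ^ 33) ≤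
      Im (PB b \ PB a)

/-- C3: close contacts -/
def StC3 : Prop :=
  ∀ A ρ p q, Conf A ρ p q → 76 / 100 ≤ ρ → ρ ≤ 93 / 100 → False

/-- C4: the numerical inequality for two solutions -/
def StC4 : Prop :=
  ∀ ρ : ℝ, (93 / 100) ^ 2 ≤ ρ → ρ < 1 →
    (1 - ρ) * 1006 < Im (PB (93 / 100) \ PB (93 / 100 * ρ)) + (1 - ρ) * Im (PB 1 \ PB (93 / 100))

/-- U3: every solution is close to the polygon -/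
def StU3 : Prop :=
  ∀ A W, Sol A W → ∀ ρ p q, Conf A ρ p q → 93 / 100 < ρ

/-- U4: uniqueness up to dilation -/
def StU4 : Prop :=
  ∀ A W A' W', Sol A W → Sol A' W' → ∃ r : ℝ, 0 < r ∧ A' = dil r A

/-! ## Group E : energy -/

/-- E1: a one dimensional integral -/
def StE1 : Prop :=
  ∀ A B c : ℝ, A ≠ 0 → B ≠ 0 → (c ≠ 0 ∨ A + B ≠ 0) →
    Integrable (fun p : ℝ => (p * (p + c) + A * B) / ((p ^ 2 + A ^ 2) * ((p + c) ^ 2 + B ^ 2))) ∧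
    ∫ p : ℝ, (p * (p + c) + A * B) / ((p ^ 2 + A ^ 2) * ((p + c) ^ 2 + B ^ 2)) =
      Real.pi * (Real.sign A + Real.sign B) * (A + B) / (c ^ 2 + (A + B) ^ 2)

/-- E2: inner product of two vortex-pair kernels -/
def StE2 : Prop :=
  ∀ y z : ℝ × ℝ, 0 < y.2 → 0 < z.2 → y ≠ z →
    Integrable (fun x => (kap y x).1 * (kap z x).1 + (kap y x).2 * (kap z x).2) →
    ∫ x, ((kap y x).1 * (kap z x).1 + (kap y x).2 * (kap z x).2) = 2 * G y z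

/-- E3: bounds of the kernel kap -/
def StE3 : Prop :=
  (∀ A, MeasurableSet A → A ⊆ Om → volume A < ∞ → ∀ x,
    IntegrableOn (fun y => kap y x) A ∧ IntegrableOn (fun y => kBS (x - y)) A ∧
    IntegrableOn (fun y : ℝ × ℝ => kBS (x - (y.1, -y.2))) A) ∧
  (∀ R : ℝ, 0 < R → ∃ C : ℝ, ∀ A, MeasurableSet A → A ⊆ Box R → ∀ x : ℝ × ℝ,
    ∫ y in A, ‖kap y x‖ ≤ C / (1 + x.1 ^ 2 + x.2 ^ 2))

/-- E4: the bilinear energy identity -/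
def StE4 : Prop :=
  ∀ A C, MeasurableSet A → MeasurableSet C → A ⊆ Om → C ⊆ Om → (∃ R, A ⊆ Box R) → (∃ R, C ⊆ Box R) →
    Integrable (fun x => (vA A x).1 ^ 2 + (vA A x).2 ^ 2) ∧
    Integrable (fun x => (vA A x).1 * (vA C x).1 + (vA A x).2 * (vA C x).2) ∧
    ∫ x, ((vA A x).1 * (vA C x).1 + (vA A x).2 * (vA C x).2) = 2 * BG A C

/-- E5: energy of a patch -/
def StE5 : Prop :=
  (∀ A, MeasurableSet A → A ⊆ Om → (∃ R, A ⊆ Box R) →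
    Energy (patch A) = ENNReal.ofReal (BG A A / 2)) ∧
  (∀ A, MeasurableSet A → A ⊆ Om → volume A < ∞ → nu A < ∞ →
    Energy (patch A) ≤ ENNReal.ofReal (BG A A / 2)) ∧
  (∀ ω ω' : ℝ × ℝ → ℝ, ω =ᵐ[volume] ω' → Energy ω = Energy ω')

/-- E6: approximation by bounded sets -/
def StE6 : Prop :=
  ∀ A, MeasurableSet A → A ⊆ Om → volume A < ∞ → nu A < ∞ → ∀ ε : ℝ, 0 < ε →
    ∃ A', MeasurableSet A' ∧ A' ⊆ Om ∧ (∃ R, A' ⊆ Box R) ∧ volume A' ≤ volume A ∧ nu A' = nu A ∧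
      BG A A - ε ≤ BG A' A'

/-- E7: positivity and Cauchy–Schwarz -/
def StE7 : Prop :=
  ∀ A C, MeasurableSet A → MeasurableSet C → A ⊆ Om → C ⊆ Om → (∃ R, A ⊆ Box R) → (∃ R, C ⊆ Box R) →
    0 ≤ BG A A - 2 * BG A C + BG C C ∧ BG A C ^ 2 ≤ BG A A * BG C C

/-! ## Group X : maximisers are solutions -/

/-- X0: sets with prescribed measure -/
def StX0 : Prop :=
  (∀ (E : Set (ℝ × ℝ)) (t : ℝ≥0∞), MeasurableSet E → t ≤ volume E → t ≠ ∞ →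
    ∃ E' ⊆ E, MeasurableSet E' ∧ volume E' = t) ∧
  (∀ (E : Set (ℝ × ℝ)) (t : ℝ≥0∞), MeasurableSet E → t ≤ nu E → t ≠ ∞ →
    ∃ E' ⊆ E, MeasurableSet E' ∧ nu E' = t)

/-- X1: the exchange argument -/
def StX1 : Prop :=
  ∀ (D A : Set (ℝ × ℝ)) (c m : ℝ≥0∞), MeasurableSet D → D ⊆ Om → c ≠ 0 → c ≠ ∞ → m ≠ ∞ →
    IsMx D c m A → (volume A < m ∨ ∀ δ : ℝ, 0 < δ → 0 < volume (A ∩ {z | z.2 < δ})) →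
    0 < volume (D \ A) →
    ∃ W : ℝ, 0 < W ∧ (∀ᵐ z, z ∈ A → W ≤ phi A z) ∧ (∀ᵐ z, z ∈ D → z ∉ A → phi A z ≤ W)

/-- points of A left of the line x₁ = l whose mirror image is not in A -/
def Pl (A : Set (ℝ × ℝ)) (l : ℝ) : Set (ℝ × ℝ) := {z | z.1 < l ∧ z ∈ A ∧ rfl' l z ∉ A}
/-- points left of the line, not in A, whose mirror image is in A -/
def Ql (A : Set (ℝ × ℝ)) (l : ℝ) : Set (ℝ × ℝ) := {z | z.1 < l ∧ z ∉ A ∧ rfl' l z ∈ A}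

/-- X2: polarisation increases the energy strictly -/
def StX2 : Prop :=
  ∀ A l, MeasurableSet A → A ⊆ Om → volume A < ∞ → nu A < ∞ →
    0 < volume (Pl A l) → 0 < volume (Ql A l) →
    MeasurableSet ((A \ (rfl' l ⁻¹' Ql A l)) ∪ Ql A l) ∧
    nu ((A \ (rfl' l ⁻¹' Ql A l)) ∪ Ql A l) = nu A ∧
    volume ((A \ (rfl' l ⁻¹' Ql A l)) ∪ Ql A l) = volume A ∧
    BG A A < BG ((A \ (rfl' l ⁻¹' Ql A l)) ∪ Ql A l) ((A \ (rfl' l ⁻¹' Ql A l)) ∪ Ql A l)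

/-- X3: symmetry about the centre of mass -/
def StX3 : Prop :=
  ∀ A, MeasurableSet A → A ⊆ Om → (∃ R, A ⊆ Box R) → 0 < volume A → 0 ≤ ∫ z in A, z.1 →
    (∀ l : ℝ, 0 ≤ l → volume (Pl A l) = 0 ∨ volume (Ql A l) = 0) →
    ∃ τ : ℝ, 0 ≤ τ ∧ (∀ᵐ z, z ∈ A ↔ rfl' τ z ∈ A) ∧
      (∀ z : ℝ × ℝ, 0 ≤ z.2 → phi A (rfl' τ z) = phi A z) ∧
      (∀ x x' s : ℝ, 0 ≤ s → τ ≤ x → x < x' → phi A (x', s) < phi A (x, s))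

/-- X4: maximisers are symmetric -/
def StX4 : Prop :=
  ∀ (D A : Set (ℝ × ℝ)) (c m : ℝ≥0∞), (D = Om ∨ ∃ n : ℝ, D = Box n) → m ≠ ∞ → c ≠ ∞ →
    IsMx D c m A → (∃ R, A ⊆ Box R) → 0 < volume A →
    ∃ τ : ℝ, (∀ᵐ z, z ∈ A ↔ rfl' τ z ∈ A) ∧
      (∀ z : ℝ × ℝ, 0 ≤ z.2 → phi A (rfl' τ z) = phi A z) ∧
      (∀ x x' s : ℝ, 0 ≤ s → τ ≤ x → x < x' → phi A (x', s) < phi A (x, s))

/-! ## Group M : moving planes in ℝ × ℝ³ -/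

/-- M0: radial integration -/
def StM0 : Prop :=
  ∀ F : ℝ × ℝ → ℝ≥0∞, Measurable F →
    ∫⁻ Y : ℝ × E3, F (rad Y) = ∫⁻ y in Om, F y * ENNReal.ofReal (4 * Real.pi * y.2 ^ 2)

/-- M1: φ as a Newtonian potential in four dimensions -/
def StM1 : Prop :=
  ∀ A, MeasurableSet A → A ⊆ Om → volume A < ∞ → ∀ X : ℝ × E3,
    ∫⁻ Y in rad ⁻¹' A, ENNReal.ofReal (1 / (‖Y.2‖ * qd X Y)) =
      ENNReal.ofReal (4 * Real.pi ^ 2 * phi A (rad X))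

/-- M2: a singular integral is small on small sets -/
def StM2 : Prop :=
  ∃ C : ℝ, 0 < C ∧ ∀ (D : Set (ℝ × E3)) (X : ℝ × E3) (R : ℝ), MeasurableSet D → 0 < R →
    ∫⁻ Y in D, ENNReal.ofReal ((Real.sqrt (qd X Y) ^ 3)⁻¹) ≤
      ENNReal.ofReal (C * R) + ENNReal.ofReal ((R ^ 3)⁻¹) * volume D

/-- M3: the gap lemma -/
def StM3 : Prop :=
  ∀ (A : Set (ℝ × ℝ)) (n W : ℝ), MeasurableSet A → A ⊆ Box n → 0 < volume A →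
    (∀ᵐ z, z ∈ A → W ≤ phi A z) → (∀ᵐ z, z ∈ Box n → z ∉ A → phi A z ≤ W) →
    ∀ l1 : ℝ, 0 < l1 → ∃ c : ℝ, 0 < c ∧ ∀ l : ℝ, l1 ≤ l →
      volume (Dset A l) = 0 ∨ ENNReal.ofReal c ≤ volume (Dset A l)

/-- M4: continuity in l -/
def StM4 : Prop :=
  ∀ (A : Set (ℝ × ℝ)) (n : ℝ), MeasurableSet A → A ⊆ Box n →
    Continuous (fun l : ℝ => (volume (Dset A l)).toReal) ∧ (∀ l, volume (Dset A l) < ∞) ∧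
    (∀ l, n ≤ l → volume (Dset A l) = 0)

/-- M5: reflection comparison -/
def StM5 : Prop :=
  ∀ (A : Set (ℝ × ℝ)) (n l : ℝ), MeasurableSet A → A ⊆ Box n → 0 < volume A → 0 < l →
    volume (Dset A l) = 0 → ∀ X : ℝ × E3, l < X.2 0 → phi A (rad X) < phi A (rad (rf l X))

/-- M6: monotonicity in x₂ -/
def StM6 : Prop :=
  ∀ (A : Set (ℝ × ℝ)) (n W : ℝ), MeasurableSet A → A ⊆ Box n → 0 < volume A →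
    (∀ᵐ z, z ∈ A → W ≤ phi A z) → (∀ᵐ z, z ∈ Box n → z ∉ A → phi A z ≤ W) →
    ∀ x s t : ℝ, 0 ≤ s → s < t → phi A (x, t) < phi A (x, s)

/-! ## Group F : existence -/

/-- F0: Lipschitz bound for the stream function in a box -/
def StF0 : Prop :=
  ∀ n : ℝ, 0 < n → ∃ C : ℝ, ∀ A, MeasurableSet A → A ⊆ Box n → ∀ z z' : ℝ × ℝ,
    |z.1| ≤ n → 0 ≤ z.2 → z.2 ≤ n → |z'.1| ≤ n → 0 ≤ z'.2 → z'.2 ≤ n →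
    |z.2 * phi A z - z'.2 * phi A z'| ≤ C * ‖z - z'‖

/-- F1: compactness -/
def StF1 : Prop :=
  ∀ n : ℝ, 0 < n → ∀ A : ℕ → Set (ℝ × ℝ), (∀ k, MeasurableSet (A k) ∧ A k ⊆ Box n) →
    ∃ (ψ : ℝ × ℝ → ℝ) (s : ℕ → ℕ), Measurable ψ ∧ (∃ M : ℝ, ∀ z, |ψ z| ≤ M) ∧ StrictMono s ∧
      ∀ ε : ℝ, 0 < ε → ∀ᶠ k in atTop, ∀ z ∈ Box n, |z.2 * phi (A (s k)) z - ψ z| ≤ ε

/-- F2: the bathtub principle -/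
def StF2 : Prop :=
  ∀ (n : ℝ) (ψ : ℝ × ℝ → ℝ) (c : ℝ≥0∞), 0 < n → Measurable ψ → (∃ M : ℝ, ∀ z, |ψ z| ≤ M) →
    c ≤ nu (Box n) → ∃ A, MeasurableSet A ∧ A ⊆ Box n ∧ nu A = c ∧
      ∀ A', MeasurableSet A' → A' ⊆ Box n → nu A' = c → ∫ z in A', ψ z ≤ ∫ z in A, ψ z

/-- F3: existence of maximisers in a box -/
def StF3 : Prop :=
  ∀ (n : ℝ) (c : ℝ≥0∞), 0 < n → c ≤ nu (Box n) →
    ∃ A, IsMx (Box n) c (volume (Box n) + 1) A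

/-- solution in a box -/
def BSol (n : ℝ) (A : Set (ℝ × ℝ)) (W : ℝ) : Prop :=
  DM A ∧ A ⊆ Box n ∧ 0 < W ∧ ∀ z ∈ Box n, (z ∈ A ↔ W < phi A z)

/-- F4: structure of maximisers in a box -/
def StF4 : Prop :=
  ∀ (n : ℝ) (c : ℝ≥0∞) (A : Set (ℝ × ℝ)), 0 < n → c ≠ 0 → c < nu (Box n) →
    IsMx (Box n) c (volume (Box n) + 1) A →
    ∃ A' W, BSol n A' W ∧ nu A' = c ∧ BG A' A' = BG A A

/-- F5: confinement -/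
def StF5 : Prop :=
  ∀ (c : ℝ≥0∞) (J1 : ℝ), c ≠ 0 → c ≠ ∞ → 0 < J1 → ∃ R : ℝ, 0 < R ∧ ∀ (n : ℝ) (A : Set (ℝ × ℝ)) (W : ℝ),
    R ≤ n → BSol n A W → nu A = c → J1 ≤ BG A A → A ⊆ Box R

/-- F6: structure of maximisers in the half plane -/
def StF6 : Prop :=
  ∀ (c m : ℝ≥0∞) (A : Set (ℝ × ℝ)), c ≠ 0 → c ≠ ∞ → m ≠ ∞ → IsMx Om c m A →
    (volume A < m ∨ ∀ δ : ℝ, 0 < δ → 0 < volume (A ∩ {z | z.2 < δ})) →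
    ∃ (τ : ℝ) (A' : Set (ℝ × ℝ)) (W : ℝ), Sol A' W ∧ A =ᵐ[volume] sh τ A'

/-- F7: existence of an unconstrained maximiser -/
def StF7 : Prop :=
  ∀ c : ℝ≥0∞, c ≠ 0 → c ≠ ∞ → ∃ A W, Sol A W ∧ nu A = c ∧
    ∀ A', MeasurableSet A' → A' ⊆ Om → volume A' < ∞ → nu A' = c → BG A' A' ≤ BG A A

/-! ## the result -/

/-- the full answer to Q1 -/
def StFinal : Prop :=
  ∃ μs : ℝ, 0 < μs ∧ ∃ μ0 : ℝ, 0 < μ0 ∧ ∃ ω0 : ℝ × ℝ → ℝ, InK μ0 ω0 ∧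
    (∀ μ : ℝ, 0 < μ → μ ≤ μs → ∀ ω : ℝ × ℝ → ℝ, InS μ ω ↔
      ∃ r τ : ℝ, 0 < r ∧ r ^ 3 * μ0 = μ ∧
        ω =ᵐ[volume] fun x => ω0 ((x.1 - τ) / r, x.2 / r)) ∧
    (∀ μ : ℝ, μs < μ → ∀ ω : ℝ × ℝ → ℝ, InS μ ω →
      ∃ δ : ℝ, 0 < δ ∧ ∀ᵐ x : ℝ × ℝ, 0 < x.2 → x.2 < δ → ω x = 0)

end VD
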